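import Pool.Agent.U4.UH.Rq
import Pool.Agent.H24R2.DZ.Half

/-!
# The next zero of the derivative on the line
-/

set_option autoImplicit false

open Complex MeasureTheory Filter Topology Set
open scoped ComplexConjugate

namespace Pool.Agent.U4.UH

open Pool.Agent.H986R2.K4 (QQ)
open Pool.Agent.H24R2.DZ (hc)

/-- a function with `A' = q A` -/
lemma exp_int {A q : ℝ → ℂ} {b : ℝ} (hq : ContinuousOn q (Icc 0 b))
    (hA : ∀ y ∈ Icc 0 b, HasDerivAt A (q y * A y) y) {y : ℝ} (hy : y ∈ Icc 0 b) :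
    A y = A 0 * cexp (∫ τ in (0 : ℝ)..y, q τ) := by
  have hb : (0 : ℝ) ≤ b := hy.1.trans hy.2
  obtain ⟨Q, hQ⟩ : ∃ Q : ℝ → ℂ, Q = IccExtend hb ((Icc 0 b).domRestrict q) := ⟨_, rfl⟩
  have hQc : Continuous Q := by
    rw [hQ]
    exact Continuous.Icc_extend' hq.domRestrict
  have hQq : ∀ t ∈ Icc 0 b, Q t = q t := fun t ht => by
    rw [hQ, IccExtend_of_mem hb _ ht]
    rfl
  have hint : ∀ y ∈ Icc 0 b, ∫ τ in (0 : ℝ)..y, q τ = ∫ τ in (0 : ℝ)..y, Q τ := by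
    intro y hy
    refine intervalIntegral.integral_congr fun t ht => ?_
    rw [uIcc_of_le hy.1] at ht
    exact (hQq t ⟨ht.1, ht.2.trans hy.2⟩).symm
  have hd : ∀ y ∈ Icc 0 b, HasDerivAt (fun y => A y * cexp (-∫ τ in (0 : ℝ)..y, Q τ)) 0 y := by
    intro y hy
    have h1 : HasDerivAt (fun y => ∫ τ in (0 : ℝ)..y, Q τ) (Q y) y :=
      intervalIntegral.integral_hasDerivAt_right (hQc.intervalIntegrable _ _)
        (hQc.stronglyMeasurableAtFilter _ _) hQc.continuousAt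
    have h2 := (hA y hy).fun_mul h1.fun_neg.cexp
    refine h2.congr_deriv ?_
    rw [hQq y hy]
    ring
  have hc := constant_of_has_deriv_right_zero (a := 0) (b := b)
    (f := fun y => A y * cexp (-∫ τ in (0 : ℝ)..y, Q τ))
    (fun y hy => (hd y hy).continuousAt.continuousWithinAt)
    (fun y hy => (hd y ⟨hy.1, hy.2.le⟩).hasDerivWithinAt) y hy
  simp only [intervalIntegral.integral_same, neg_zero, Complex.exp_zero, mul_one] at hc
  rw [hint y hy, ← hc, mul_assoc, ← Complex.exp_add]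
  simp

/-- **The phase of the derivative on the line.** -/
theorem phase {ε a : ℝ} (hε : 0 < ε) (hε1 : ε ≤ 1 / 4) (ha : 0 < a) (ha1 : a ≤ 1 / 2) (haε : a ≤ ε) :
    ∃ κ1 η : ℝ, ∃ n0 : ℕ, 0 < κ1 ∧ 0 < η ∧ ∀ (n : ℕ) (F : ℂ → ℂ), n0 ≤ n → QQ a 6 n η F →
      1 ≤ n * ε ∧ 8 ≤ n * κ1 ∧ ∃ (c : ℂ) (Θ : ℝ → ℝ), Θ 0 = 0 ∧ ContinuousOn Θ (Icc 0 κ1) ∧ c ≠ 0 ∧
        (∀ x ∈ Icc 0 κ1, ∀ y ∈ Icc 0 κ1, x ≤ y →
          (n + 1) * (1 - ε) * (y - x) ≤ Θ y - Θ x ∧ Θ y - Θ x ≤ (n + 1) * (1 + ε) * (y - x)) ∧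
        ∀ y ∈ Icc 0 κ1, (iteratedDeriv n F (I * y) = 0 ↔ (c * cexp (I * Θ y)).re = 0) := by
  obtain ⟨κ1, η, n1, hκ1, hκ1a, hη, H⟩ := rtq hε (by linarith) a 6 ha ha1 haε (by norm_num)
  refine ⟨κ1, η, max n1 (max ⌈1 / ε⌉₊ ⌈8 / κ1⌉₊), hκ1, hη, ?_⟩
  intro n F hn hQ
  have hn1 : n1 ≤ n := (le_max_left _ _).trans hn
  have hn2 : 1 / ε ≤ n := (Nat.le_ceil _).trans
    (by exact_mod_cast ((le_max_left _ _).trans (le_max_right _ _)).trans hn)
  have hn3 : 8 / κ1 ≤ n := (Nat.le_ceil _).trans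
    (by exact_mod_cast ((le_max_right _ _).trans (le_max_right _ _)).trans hn)
  rw [div_le_iff₀ hε] at hn2
  rw [div_le_iff₀ hκ1] at hn3
  have hn0 : (0 : ℝ) < n := by
    by_contra hneg
    push Not at hneg
    nlinarith
  refine ⟨hn2, hn3, ?_⟩
  have hκ14 : κ1 ≤ 1 / 4 := by linarith
  have hnI : ∀ y : ℝ, ‖I * (y : ℂ)‖ = |y| := by
    intro y
    rw [norm_mul, Complex.norm_I, one_mul, Complex.norm_real, Real.norm_eq_abs]
  have hconj : ∀ y : ℝ, -conj (I * (y : ℂ)) = I * y := by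
    intro y
    rw [map_mul, conj_I, conj_ofReal]
    ring
  have hhalf := fun (k : ℕ) (y : ℝ) (hy : |y| ≤ κ1) =>
    Pool.Agent.H24R2.DZ.half F k (I * y) hQ.diff hQ.symm (by rw [hnI]; linarith)
  obtain ⟨A, hA⟩ : ∃ A : ℝ → ℂ, A = fun y : ℝ => hc F (n + 1) (I * y) := ⟨_, rfl⟩
  obtain ⟨R, hR⟩ : ∃ R : ℝ → ℂ, R = fun y : ℝ => hc F (n + 2) (I * y) / hc F (n + 1) (I * y) := ⟨_, rfl⟩
  obtain ⟨q, hq⟩ : ∃ q : ℝ → ℂ, q = fun y : ℝ => I * (n + 1) * R y := ⟨_, rfl⟩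
  have hmem : ∀ y ∈ Icc 0 κ1, |y| ≤ κ1 := fun y hy => by rw [abs_of_nonneg hy.1]; exact hy.2
  have hAne : ∀ y ∈ Icc 0 κ1, A y ≠ 0 := by
    intro y hy
    rw [hA]
    exact (H n F hn1 hQ (I * y) (by rw [hnI]; exact hmem y hy)).1
  have hRb : ∀ y ∈ Icc 0 κ1, ‖R y - 1‖ ≤ ε := by
    intro y hy
    rw [hR]
    exact (H n F hn1 hQ (I * y) (by rw [hnI]; exact hmem y hy)).2
  have hder : ∀ k : ℕ, ∀ y ∈ Icc 0 κ1, HasDerivAt (fun y : ℝ => hc F (k + 1) (I * y))
      (I * (k + 1) * hc F (k + 2) (I * y)) y := by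
    intro k y hy
    have h1 := (hhalf k y (hmem y hy)).2
    have h2 : HasDerivAt (fun y : ℝ => I * (y : ℂ)) I y := by
      simpa using (hasDerivAt_id (y : ℝ)).ofReal_comp.const_mul I
    have h3 := HasDerivAt.comp_of_eq (h₂ := hc F (k + 1)) y h1 h2 rfl
    refine h3.congr_deriv ?_
    ring
  have hAd : ∀ y ∈ Icc 0 κ1, HasDerivAt A (q y * A y) y := by
    intro y hy
    have h1 := hder n y hy
    rw [hA]
    refine h1.congr_deriv ?_
    rw [hq, hR]
    have h2 := hAne y hy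
    rw [hA] at h2
    simp only at h2 ⊢
    field_simp
  have hRc : ContinuousOn R (Icc 0 κ1) := by
    rw [hR]
    refine ContinuousOn.div (fun y hy => ?_) (fun y hy => ?_) (fun y hy => ?_)
    · exact (hder (n + 1) y hy).continuousAt.continuousWithinAt
    · exact (hder n y hy).continuousAt.continuousWithinAt
    · have h2 := hAne y hy
      rw [hA] at h2
      exact h2
  have hqc : ContinuousOn q (Icc 0 κ1) := by
    rw [hq]
    exact continuousOn_const.mul hRc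
  obtain ⟨E, hE⟩ : ∃ E : ℝ → ℂ, E = fun y => ∫ τ in (0 : ℝ)..y, q τ := ⟨_, rfl⟩
  have hAE : ∀ y ∈ Icc 0 κ1, A y = A 0 * cexp (E y) := by
    intro y hy
    rw [hE]
    exact exp_int hqc hAd hy
  -- the zeros
  have hfac : (n.factorial : ℂ) ≠ 0 := by exact_mod_cast n.factorial_ne_zero
  have hval : ∀ y ∈ Icc 0 κ1, iteratedDeriv n F (I * y) / n.factorial = A y + (-1) ^ n * conj (A y) := by
    intro y hy
    have h1 := (hhalf n y (hmem y hy)).1
    rw [hconj] at h1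
    rw [h1, hA]
  have h00 : (0 : ℝ) ∈ Icc 0 κ1 := ⟨le_rfl, hκ1.le⟩
  obtain ⟨c0, hc0, hc02⟩ : ∃ c0 : ℂ, c0 ≠ 0 ∧ (-1) ^ n * c0 = conj c0 := by
    rcases Nat.even_or_odd n with h | h
    · exact ⟨1, one_ne_zero, by rw [h.neg_one_pow]; simp⟩
    · exact ⟨I, I_ne_zero, by rw [h.neg_one_pow]; simp⟩
  have hzero : ∀ y ∈ Icc 0 κ1, (iteratedDeriv n F (I * y) = 0 ↔
      (c0 * A 0 * cexp (I * (E y).im)).re = 0) := by
    intro y hy
    have h1 := hval y hy
    have h2 : c0 * (A y + (-1) ^ n * conj (A y)) = (2 * (c0 * A y).re : ℝ) := by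
      have h3 : c0 * (A y + (-1) ^ n * conj (A y)) = c0 * A y + conj (c0 * A y) := by
        rw [map_mul, ← hc02]
        ring
      rw [h3, Complex.add_conj]
    have h4 : (c0 * A y).re = Real.exp (E y).re * (c0 * A 0 * cexp (I * (E y).im)).re := by
      have h5 : cexp (E y) = (Real.exp (E y).re : ℂ) * cexp (I * (E y).im) := by
        rw [Complex.ofReal_exp, ← Complex.exp_add]
        congr 1
        conv_lhs => rw [← Complex.re_add_im (E y)]
        ring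
      have h6 : c0 * A y = (Real.exp (E y).re : ℂ) * (c0 * A 0 * cexp (I * (E y).im)) := by
        rw [hAE y hy, h5]
        ring
      rw [h6, Complex.re_ofReal_mul]
    have hex := (Real.exp_pos (E y).re).ne'
    constructor
    · intro h5
      rw [h5, zero_div] at h1
      rw [← h1, mul_zero] at h2
      have h6 : 2 * (c0 * A y).re = 0 := by exact_mod_cast h2.symm
      rw [h4] at h6
      have h7 : Real.exp (E y).re * (c0 * A 0 * cexp (I * (E y).im)).re = 0 := by linarith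
      exact (mul_eq_zero.1 h7).resolve_left hex
    · intro h5
      rw [h4, h5, mul_zero, mul_zero, ofReal_zero] at h2
      have h6 := (mul_eq_zero.1 h2).resolve_left hc0
      rw [h6] at h1
      exact (div_eq_zero_iff.1 h1).resolve_right hfac
  -- the phase
  obtain ⟨Θ, hΘ⟩ : ∃ Θ : ℝ → ℝ, Θ = fun y => (E y).im := ⟨_, rfl⟩
  have hqint : ∀ x y : ℝ, x ∈ Icc 0 κ1 → y ∈ Icc 0 κ1 → IntervalIntegrable q volume x y := by
    intro x y hx hy
    apply ContinuousOn.intervalIntegrable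
    apply hqc.mono
    intro t ht
    rw [mem_uIcc] at ht
    rcases ht with h | h
    · exact ⟨hx.1.trans h.1, h.2.trans hy.2⟩
    · exact ⟨hy.1.trans h.1, h.2.trans hx.2⟩
  have hqim : ∀ y ∈ Icc 0 κ1, (n + 1) * (1 - ε) ≤ (q y).im ∧ (q y).im ≤ (n + 1) * (1 + ε) := by
    intro y hy
    have h1 : (q y).im = (n + 1) * (R y).re := by
      rw [hq]
      simp only
      rw [mul_assoc, Complex.I_mul_im]
      have : ((n : ℂ) + 1) = (((n : ℝ) + 1 : ℝ) : ℂ) := by push_cast; ring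
      rw [this, Complex.re_ofReal_mul]
    have h2 := abs_le.1 ((Complex.abs_re_le_norm _).trans (hRb y hy))
    rw [sub_re, one_re] at h2
    rw [h1]
    constructor
    · apply mul_le_mul_of_nonneg_left _ (by positivity)
      linarith [h2.1]
    · apply mul_le_mul_of_nonneg_left _ (by positivity)
      linarith [h2.2]
  have hΘd : ∀ x ∈ Icc 0 κ1, ∀ y ∈ Icc 0 κ1, x ≤ y →
      (n + 1) * (1 - ε) * (y - x) ≤ Θ y - Θ x ∧ Θ y - Θ x ≤ (n + 1) * (1 + ε) * (y - x) := by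
    intro x hx y hy hxy
    have h1 : Θ y - Θ x = ∫ τ in x..y, (q τ).im := by
      rw [hΘ, hE]
      simp only
      rw [← sub_im, intervalIntegral.integral_interval_sub_left (hqint 0 y h00 hy) (hqint 0 x h00 hx)]
      exact ((Complex.imCLM.intervalIntegral_comp_comm (hqint x y hx hy))).symm
    have hi : IntervalIntegrable (fun τ => (q τ).im) volume x y := by
      apply ContinuousOn.intervalIntegrable
      rw [uIcc_of_le hxy]
      exact Complex.continuous_im.comp_continuousOn (hqc.mono fun t ht =>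
        ⟨hx.1.trans ht.1, ht.2.trans hy.2⟩)
    have hmm : ∀ t ∈ Icc x y, t ∈ Icc 0 κ1 := fun t ht => ⟨hx.1.trans ht.1, ht.2.trans hy.2⟩
    have h2 := intervalIntegral.integral_mono_on hxy (_root_.intervalIntegrable_const (c := (n + 1) * (1 - ε)))
      hi (fun t ht => (hqim t (hmm t ht)).1)
    have h3 := intervalIntegral.integral_mono_on hxy hi
      (_root_.intervalIntegrable_const (c := (n + 1) * (1 + ε))) (fun t ht => (hqim t (hmm t ht)).2)
    rw [intervalIntegral.integral_const, smul_eq_mul] at h2 h3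
    rw [h1]
    constructor
    · linarith
    · linarith
  have hΘ0 : Θ 0 = 0 := by
    rw [hΘ, hE]
    simp
  have hΘc : ContinuousOn Θ (Icc 0 κ1) := by
    have h1 : ContinuousOn (fun y => (n + 1) * (1 + ε) * y) (Icc 0 κ1) := by fun_prop
    intro x hx
    rw [Metric.continuousWithinAt_iff]
    intro e he
    refine ⟨e / ((n + 1) * (1 + ε)), by positivity, ?_⟩
    intro y hy hxy
    rw [Real.dist_eq] at hxy ⊢
    have hK : 0 < ((n : ℝ) + 1) * (1 + ε) := by positivity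
    rw [lt_div_iff₀ hK] at hxy
    have hl : 0 ≤ ((n : ℝ) + 1) * (1 - ε) := by
      apply mul_nonneg (by positivity) (by linarith)
    rcases le_total x y with hc | hc
    · have h2 := hΘd x hx y hy hc
      rw [abs_of_nonneg (by linarith)] at hxy
      rw [abs_of_nonneg (by nlinarith [h2.1])]
      linarith [h2.2]
    · have h2 := hΘd y hy x hx hc
      rw [abs_of_nonpos (by linarith)] at hxy
      rw [abs_of_nonpos (by nlinarith [h2.1])]
      linarith [h2.2]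
  refine ⟨c0 * A 0, Θ, hΘ0, hΘc, mul_ne_zero hc0 (hAne 0 h00), hΘd, ?_⟩
  intro y hy
  rw [hzero y hy, hΘ]

/-- the point where the phase is `π` -/
lemma pi_pt {κ1 ε : ℝ} {n : ℕ} {Θ : ℝ → ℝ} (hκ1 : 0 < κ1) (hε : 0 < ε) (hε1 : ε ≤ 1 / 4)
    (hn2 : 1 ≤ n * ε) (hn3 : 8 ≤ n * κ1) (hΘ0 : Θ 0 = 0) (hΘc : ContinuousOn Θ (Icc 0 κ1))
    (hΘd : ∀ x ∈ Icc 0 κ1, ∀ y ∈ Icc 0 κ1, x ≤ y →
      (n + 1) * (1 - ε) * (y - x) ≤ Θ y - Θ x ∧ Θ y - Θ x ≤ (n + 1) * (1 + ε) * (y - x)) :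
    ∃ y1 ∈ Icc 0 κ1, 0 < y1 ∧ Θ y1 = Real.pi ∧ |n * y1 / Real.pi - 1| ≤ 3 * ε := by
  have hpi := Real.pi_gt_three
  have hpi4 := Real.pi_lt_four
  have h00 : (0 : ℝ) ∈ Icc 0 κ1 := ⟨le_rfl, hκ1.le⟩
  have hn0 : (0 : ℝ) < n := by
    by_contra hneg
    push Not at hneg
    have : n * ε ≤ 0 := mul_nonpos_of_nonpos_of_nonneg hneg hε.le
    linarith
  have hend : Real.pi ≤ Θ κ1 := by
    have h2 := (hΘd 0 h00 κ1 ⟨hκ1.le, le_rfl⟩ hκ1.le).1
    rw [hΘ0, sub_zero, sub_zero] at h2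
    have h3 : n * κ1 * (3 / 4) ≤ (n + 1) * (1 - ε) * κ1 := by
      have h4 : (n : ℝ) * (3 / 4) ≤ (n + 1) * (1 - ε) :=
        mul_le_mul (by linarith) (by linarith) (by norm_num) (by linarith)
      have h5 := mul_le_mul_of_nonneg_right h4 hκ1.le
      linarith
    linarith
  obtain ⟨y1, hy1, hy1Θ⟩ := intermediate_value_Icc hκ1.le hΘc
    (show Real.pi ∈ Icc _ _ from ⟨by rw [hΘ0]; linarith, hend⟩)
  have hy1pos : 0 < y1 := by
    rcases hy1.1.lt_or_eq with h | h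
    · exact h
    · rw [← h, hΘ0] at hy1Θ
      linarith
  have hb1 := hΘd 0 h00 y1 hy1 hy1.1
  rw [hΘ0, hy1Θ, sub_zero, sub_zero] at hb1
  refine ⟨y1, hy1, hy1pos, hy1Θ, ?_⟩
  have hpi0 : 0 < Real.pi := Real.pi_pos
  have h8 : 0 ≤ n * y1 := by positivity
  rw [abs_le]
  constructor
  · have h1 : Real.pi ≤ (n + 1) * (1 + ε) * y1 := hb1.2
    have h2 : (1 - 3 * ε) * Real.pi ≤ n * y1 := by
      have h3 : (n + 1 : ℝ) ≤ n * (1 + ε) := by linarith
      have h4 : Real.pi ≤ n * y1 * (1 + ε) ^ 2 := by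
        refine h1.trans ?_
        have h5 : (n + 1 : ℝ) * ((1 + ε) * y1) ≤ n * (1 + ε) * ((1 + ε) * y1) :=
          mul_le_mul_of_nonneg_right h3 (by positivity)
        calc (n + 1 : ℝ) * (1 + ε) * y1 = (n + 1 : ℝ) * ((1 + ε) * y1) := by ring
          _ ≤ n * (1 + ε) * ((1 + ε) * y1) := h5
          _ = _ := by ring
      have h5 : (1 - 3 * ε) * (1 + ε) ^ 2 ≤ 1 := by
        have e : (1 - 3 * ε) * (1 + ε) ^ 2 = 1 - ε - 5 * ε ^ 2 - 3 * ε ^ 3 := by ring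
        have h6 : 0 ≤ ε ^ 2 := by positivity
        have h7 : 0 ≤ ε ^ 3 := by positivity
        rw [e]
        linarith
      have h7 : 0 ≤ 1 - 3 * ε := by linarith
      calc (1 - 3 * ε) * Real.pi ≤ (1 - 3 * ε) * (n * y1 * (1 + ε) ^ 2) := by gcongr
        _ = (1 - 3 * ε) * (1 + ε) ^ 2 * (n * y1) := by ring
        _ ≤ 1 * (n * y1) := mul_le_mul_of_nonneg_right h5 h8
        _ = n * y1 := one_mul _
    have h3 : (1 - 3 * ε) ≤ n * y1 / Real.pi := by
      rw [le_div_iff₀ hpi0]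
      exact h2
    linarith
  · have h1 : (n + 1) * (1 - ε) * y1 ≤ Real.pi := hb1.1
    have h2 : n * y1 ≤ (1 + 3 * ε) * Real.pi := by
      have h3 : n * y1 * (1 - ε) ≤ Real.pi := by
        have h4 : (n : ℝ) * ((1 - ε) * y1) ≤ (n + 1) * ((1 - ε) * y1) :=
          mul_le_mul_of_nonneg_right (by linarith) (mul_nonneg (by linarith) hy1pos.le)
        calc n * y1 * (1 - ε) = n * ((1 - ε) * y1) := by ring
          _ ≤ (n + 1) * ((1 - ε) * y1) := h4
          _ = (n + 1) * (1 - ε) * y1 := by ring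
          _ ≤ _ := h1
      have h5 : 1 ≤ (1 + 3 * ε) * (1 - ε) := by nlinarith
      calc n * y1 = 1 * (n * y1) := (one_mul _).symm
        _ ≤ (1 + 3 * ε) * (1 - ε) * (n * y1) := mul_le_mul_of_nonneg_right h5 h8
        _ = (1 + 3 * ε) * (n * y1 * (1 - ε)) := by ring
        _ ≤ (1 + 3 * ε) * Real.pi := by gcongr
    have h3 : n * y1 / Real.pi ≤ 1 + 3 * ε := by
      rw [div_le_iff₀ hpi0]
      exact h2
    linarith

/-- **Existence of a zero, and the next zero.** -/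
theorem gap {ε a : ℝ} (hε : 0 < ε) (hε1 : ε ≤ 1 / 4) (ha : 0 < a) (ha1 : a ≤ 1 / 2) (haε : a ≤ ε) :
    ∃ η : ℝ, ∃ n0 : ℕ, 0 < η ∧ ∀ (n : ℕ) (F : ℂ → ℂ), n0 ≤ n → QQ a 6 n η F →
      (∃ y1 : ℝ, 0 ≤ y1 ∧ n * y1 / Real.pi ≤ 1 + 3 * ε ∧ iteratedDeriv n F (I * y1) = 0) ∧
      (iteratedDeriv n F 0 = 0 → ∃ y1 : ℝ, 0 < y1 ∧ iteratedDeriv n F (I * y1) = 0 ∧
        (∀ y : ℝ, 0 < y → y < y1 → iteratedDeriv n F (I * y) ≠ 0) ∧
        |n * y1 / Real.pi - 1| ≤ 3 * ε) := by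
  obtain ⟨κ1, η, n0, hκ1, hη, H⟩ := phase hε hε1 ha ha1 haε
  refine ⟨η, n0, hη, ?_⟩
  intro n F hn hQ
  obtain ⟨hn2, hn3, c, Θ, hΘ0, hΘc, hc, hΘd, hz⟩ := H n F hn hQ
  obtain ⟨y1, hy1, hy1pos, hy1Θ, hy1b⟩ := pi_pt hκ1 hε hε1 hn2 hn3 hΘ0 hΘc hΘd
  have h00 : (0 : ℝ) ∈ Icc 0 κ1 := ⟨le_rfl, hκ1.le⟩
  have hform : ∀ y : ℝ, (c * cexp (I * Θ y)).re = c.re * Real.cos (Θ y) - c.im * Real.sin (Θ y) := by
    intro y
    have e : cexp (I * Θ y) = (Real.cos (Θ y) : ℂ) + (Real.sin (Θ y) : ℂ) * I := by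
      rw [mul_comm I, Complex.exp_mul_I, Complex.ofReal_cos, Complex.ofReal_sin]
    rw [e, Complex.mul_re, Complex.add_re, Complex.add_im, Complex.re_ofReal_mul, Complex.im_ofReal_mul,
      Complex.ofReal_re, Complex.ofReal_im, Complex.I_re, Complex.I_im]
    ring
  constructor
  · -- a zero exists
    obtain ⟨g, hg⟩ : ∃ g : ℝ → ℝ, g = fun y => (c * cexp (I * Θ y)).re := ⟨_, rfl⟩
    have hgc : ContinuousOn g (Icc 0 y1) := by
      have h1 : g = fun y => c.re * Real.cos (Θ y) - c.im * Real.sin (Θ y) := by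
        rw [hg]
        funext y
        exact hform y
      rw [h1]
      have h2 : ContinuousOn Θ (Icc 0 y1) := hΘc.mono (Icc_subset_Icc le_rfl hy1.2)
      exact (continuousOn_const.mul (Real.continuous_cos.comp_continuousOn h2)).sub
        (continuousOn_const.mul (Real.continuous_sin.comp_continuousOn h2))
    have hg0 : g 0 = c.re := by
      rw [hg]
      simp only
      rw [hform, hΘ0, Real.cos_zero, Real.sin_zero]
      ring
    have hg1 : g y1 = -c.re := by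
      rw [hg]
      simp only
      rw [hform, hy1Θ, Real.cos_pi, Real.sin_pi]
      ring
    obtain ⟨y, hy, hgy⟩ : ∃ y ∈ Icc 0 y1, g y = 0 := by
      rcases le_total 0 c.re with h | h
      · obtain ⟨y, hy, h1⟩ := intermediate_value_Icc' hy1pos.le hgc
          (show (0 : ℝ) ∈ Icc _ _ from ⟨by rw [hg1]; linarith, by rw [hg0]; exact h⟩)
        exact ⟨y, hy, h1⟩
      · obtain ⟨y, hy, h1⟩ := intermediate_value_Icc hy1pos.le hgc
          (show (0 : ℝ) ∈ Icc _ _ from ⟨by rw [hg0]; exact h, by rw [hg1]; linarith⟩)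
        exact ⟨y, hy, h1⟩
    refine ⟨y, hy.1, ?_, (hz y ⟨hy.1, hy.2.trans hy1.2⟩).2 (by rw [hg] at hgy; exact hgy)⟩
    have h1 := (abs_le.1 hy1b).2
    have h2 : n * y / Real.pi ≤ n * y1 / Real.pi := by
      have := hy.2
      have := Real.pi_pos
      gcongr
    linarith
  · intro h0
    have hc0 : c.re = 0 := by
      have h1 := (hz 0 h00).1 (by rw [ofReal_zero, mul_zero]; exact h0)
      rw [hform, hΘ0, Real.cos_zero, Real.sin_zero] at h1
      linarith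
    have hcim : c.im ≠ 0 := by
      intro h1
      exact hc (Complex.ext hc0 h1)
    have hz' : ∀ y ∈ Icc 0 κ1, (iteratedDeriv n F (I * y) = 0 ↔ Real.sin (Θ y) = 0) := by
      intro y hy
      rw [hz y hy, hform, hc0]
      constructor
      · intro h1
        have h2 : c.im * Real.sin (Θ y) = 0 := by linarith
        exact (mul_eq_zero.1 h2).resolve_left hcim
      · intro h1
        rw [h1]
        ring
    refine ⟨y1, hy1pos, ?_, ?_, hy1b⟩
    · rw [hz' y1 hy1, hy1Θ]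
      exact Real.sin_pi
    · intro y hy hyy
      have hyI : y ∈ Icc 0 κ1 := ⟨hy.le, hyy.le.trans hy1.2⟩
      rw [Ne, hz' y hyI]
      have h1 := (hΘd 0 h00 y hyI hy.le).1
      have h2 := (hΘd y hyI y1 hy1 hyy.le).1
      rw [hΘ0, sub_zero, sub_zero] at h1
      rw [hy1Θ] at h2
      have hl : 0 < ((n : ℝ) + 1) * (1 - ε) := mul_pos (by positivity) (by linarith)
      have h3 : 0 < Θ y := lt_of_lt_of_le (mul_pos hl hy) h1
      have h4 : Θ y < Real.pi := by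
        have := mul_pos hl (sub_pos.2 hyy)
        linarith
      exact (Real.sin_pos_of_pos_of_lt_pi h3 h4).ne'

end Pool.Agent.U4.UH
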