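import Pool.Agent.U4.UH.Gap

/-!
# The slope at the saddle point, uniformly for all L-functions
-/

set_option autoImplicit false

open Complex MeasureTheory Filter Topology Set
open scoped ComplexConjugate

namespace Pool.Agent.U4.UH

open Pool.Agent.W355.UN Pool.Agent.W169.HF H353.E

variable {m : ℕ} {N : ℝ} {μ : Fin m → ℂ}

/-- the conductor at height `y` and scale `R`; `R = 1` is the analytic conductor -/
noncomputable def scond (N : ℝ) (μ : Fin m → ℂ) (R y : ℝ) : ℝ :=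
  N * ∏ j, (R + ‖(y : ℂ) * I - μ j‖)

lemma log_scond (hN : 1 ≤ N) {R : ℝ} (hR : 0 < R) (y : ℝ) :
    Real.log (scond N μ R y) = Real.log N + ∑ j, Real.log (R + ‖(y : ℂ) * I - μ j‖) := by
  have hp : ∀ j, 0 < R + ‖(y : ℂ) * I - μ j‖ := fun j => by positivity
  unfold scond
  rw [Real.log_mul (by linarith) (Finset.prod_pos fun j _ => hp j).ne',
    Real.log_prod (fun j _ => (hp j).ne')]

lemma ell_twob (hN : 1 ≤ N) (hμ : ∀ j, (μ j).re ≤ 1 / 2) {y S : ℝ} (hS : 1 ≤ S) :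
    |ell N μ y S - Real.log (scond N μ S y) / 2| ≤ 8 * m := by
  have hlp := logpi
  rw [log_scond hN (by linarith)]
  have hlog5 : Real.log 5 ≤ 4 := by
    have := Real.log_le_sub_one_of_pos (show (0 : ℝ) < 5 by norm_num)
    linarith
  have hterm : ∀ j, |((((-(Real.log Real.pi) / 2 : ℝ)) : ℂ) +
      logDeriv Gamma ((1 / 2 + 2 * S + y * I - μ j) / 2) / 2).re -
        1 / 2 * Real.log (S + ‖(y : ℂ) * I - μ j‖)| ≤ 8 := fun j => by
    obtain ⟨z, hzd⟩ : ∃ z : ℂ, z = (1 / 2 + 2 * S + y * I - μ j) / 2 := ⟨_, rfl⟩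
    obtain ⟨a, ha⟩ : ∃ a : ℝ, a = ‖(y : ℂ) * I - μ j‖ := ⟨_, rfl⟩
    have ha0 : 0 ≤ a := by rw [ha]; positivity
    have hre : z.re = (1 / 2 + 2 * S - (μ j).re) / 2 := by rw [hzd, pt_re]
    have hre1 : S ≤ z.re := by rw [hre]; linarith [hμ j]
    rw [← hzd, ← ha, term_re]
    have h3 := dig_up (z := z) (by linarith)
    have h3' := dig_lo (z := z) (by linarith)
    have hge1 : S + 2 ≤ ‖z + 2‖ := by
      have := Complex.re_le_norm (z + 2)
      rw [add_re, re_ofNat] at this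
      linarith
    have hpos : 0 < ‖z + 2‖ := by linarith
    have e1 : z + 2 = ((y : ℂ) * I - μ j) / 2 + ((S + 9 / 4 : ℝ) : ℂ) := by
      rw [hzd]
      push_cast
      ring
    have hn2 : ‖((y : ℂ) * I - μ j) / 2‖ = a / 2 := by
      rw [norm_div, ← ha]
      norm_num
    have hn3 : ‖((S + 9 / 4 : ℝ) : ℂ)‖ = S + 9 / 4 := by
      rw [Complex.norm_real, Real.norm_eq_abs, abs_of_nonneg (by linarith)]
    have hup : ‖z + 2‖ ≤ 5 * (S + a) := by
      rw [e1]
      refine (norm_add_le _ _).trans ?_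
      rw [hn2, hn3]
      linarith
    have hlo : S + a ≤ 5 * ‖z + 2‖ := by
      have h4 : ‖((y : ℂ) * I - μ j) / 2‖ ≤ ‖z + 2‖ + ‖((S + 9 / 4 : ℝ) : ℂ)‖ := by
        have e2 : ((y : ℂ) * I - μ j) / 2 = (z + 2) - ((S + 9 / 4 : ℝ) : ℂ) := by
          rw [e1]
          ring
        rw [e2]
        exact norm_sub_le _ _
      rw [hn2, hn3] at h4
      linarith
    have hSa : 0 < S + a := by linarith
    have hl1 : Real.log ‖z + 2‖ ≤ 4 + Real.log (S + a) := by
      have := Real.log_le_log hpos hup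
      rw [Real.log_mul (by norm_num) hSa.ne'] at this
      linarith
    have hl2 : Real.log (S + a) ≤ 4 + Real.log ‖z + 2‖ := by
      have := Real.log_le_log hSa hlo
      rw [Real.log_mul (by norm_num) hpos.ne'] at this
      linarith
    rw [abs_le]
    constructor <;> linarith
  unfold ell gaD
  rw [add_re, ofReal_re, re_sum]
  have e : Real.log N / 2 + ∑ j, ((((-(Real.log Real.pi) / 2 : ℝ)) : ℂ) +
      logDeriv Gamma ((1 / 2 + 2 * S + y * I - μ j) / 2) / 2).re -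
        (Real.log N + ∑ j, Real.log (S + ‖(y : ℂ) * I - μ j‖)) / 2 =
      ∑ j, (((((-(Real.log Real.pi) / 2 : ℝ)) : ℂ) +
      logDeriv Gamma ((1 / 2 + 2 * S + y * I - μ j) / 2) / 2).re -
        1 / 2 * Real.log (S + ‖(y : ℂ) * I - μ j‖)) := by
    rw [Finset.sum_sub_distrib, ← Finset.mul_sum]
    ring
  rw [e]
  have h1 := (Finset.abs_sum_le_sum_abs (fun j => ((((-(Real.log Real.pi) / 2 : ℝ)) : ℂ) +
      logDeriv Gamma ((1 / 2 + 2 * S + y * I - μ j) / 2) / 2).re -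
        1 / 2 * Real.log (S + ‖(y : ℂ) * I - μ j‖))
      (Finset.univ : Finset (Fin m))).trans (Finset.sum_le_sum fun j _ => hterm j)
  rw [Finset.sum_const, Finset.card_univ, Fintype.card_fin, nsmul_eq_mul] at h1
  linarith

/-- the slope at the saddle point is half of the logarithm of the conductor at the scale `n / m`, up to a
factor `1 + o(1)`, uniformly for all L-functions -/
theorem ell_abs {ε : ℝ} (hε : 0 < ε) : ∃ M : ℝ, 1 ≤ M ∧ ∀ (m : ℕ) (N : ℝ) (μ : Fin m → ℂ), 1 ≤ m →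
    1 ≤ N → (∀ j, (μ j).re ≤ 1 / 2) → ∀ n : ℕ, M * m ≤ n → ∀ y S σ : ℝ, 1 ≤ S → 1 / 2 ≤ σ → σ ≤ 1 →
      σ * (S * ell N μ y S) = n → m ≤ ell N μ y S →
      1 ≤ Real.log (scond N μ (n / m) y) ∧
      |ell N μ y S - Real.log (scond N μ (n / m) y) / 2| ≤ ε * Real.log (scond N μ (n / m) y) := by
  have hev : ∀ᶠ v : ℝ in atTop, 1 ≤ v ∧ 20 + Real.log v / 2 ≤ ε * v := by
    have h1 : ∀ᶠ v : ℝ in atTop, Real.log v ≤ ε * v := by
      have h2 := Real.isLittleO_log_id_atTop.def hε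
      filter_upwards [h2, eventually_ge_atTop 1] with v h3 h4
      rw [Real.norm_eq_abs, id, Real.norm_eq_abs, abs_of_nonneg (by linarith : (0 : ℝ) ≤ v)] at h3
      exact (le_abs_self _).trans h3
    have h2 : ∀ᶠ v : ℝ in atTop, 20 ≤ ε / 2 * v := by
      have h3 := (tendsto_id (α := ℝ) (x := atTop)).const_mul_atTop (show 0 < ε / 2 by positivity)
      exact h3.eventually_ge_atTop _
    filter_upwards [h1, h2, eventually_ge_atTop 1] with v h3 h4 h5
    exact ⟨h5, by linarith⟩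
  obtain ⟨v0, hv0⟩ := eventually_atTop.1 hev
  refine ⟨Real.exp (max v0 1), Real.one_le_exp (le_trans zero_le_one (le_max_right _ _)), ?_⟩
  intro m N μ hm hN hμ n hn y S σ hS hσ hσ1 hSn hmℓ
  have hm1 : (1 : ℝ) ≤ m := by exact_mod_cast hm
  have hm0 : (0 : ℝ) < m := by linarith
  obtain ⟨R, hR⟩ : ∃ R : ℝ, R = n / m := ⟨_, rfl⟩
  have hRM : Real.exp (max v0 1) ≤ R := by
    rw [hR, le_div_iff₀ hm0]
    exact hn
  have hR1 : 1 ≤ R := (Real.one_le_exp (le_trans zero_le_one (le_max_right _ _))).trans hRM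
  have hnR : (n : ℝ) = R * m := by
    rw [hR]
    field_simp
  rw [← hR]
  obtain ⟨ℓ, hℓ⟩ : ∃ ℓ : ℝ, ℓ = ell N μ y S := ⟨_, rfl⟩
  have hH := abs_le.1 (ell_twob hN hμ hS (y := y))
  rw [← hℓ] at hSn hmℓ hH ⊢
  have hlN : 0 ≤ Real.log N := Real.log_nonneg hN
  have hS0 : 0 < S := by linarith
  have hℓ1 : 1 ≤ ℓ := hm1.trans hmℓ
  obtain ⟨u, hu⟩ : ∃ u : ℝ, u = ℓ / m := ⟨_, rfl⟩
  have hℓu : ℓ = u * m := by
    rw [hu]
    field_simp
  have hu1 : 1 ≤ u := by
    rw [hu, le_div_iff₀ hm0]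
    linarith
  obtain ⟨W, hW⟩ : ∃ W : ℝ, W = Real.log (scond N μ R y) := ⟨_, rfl⟩
  obtain ⟨V, hV⟩ : ∃ V : ℝ, V = Real.log (scond N μ S y) := ⟨_, rfl⟩
  rw [← hV] at hH
  rw [← hW]
  have hWs : W = Real.log N + ∑ j, Real.log (R + ‖(y : ℂ) * I - μ j‖) := by
    rw [hW, log_scond hN (by linarith)]
  have hVs : V = Real.log N + ∑ j, Real.log (S + ‖(y : ℂ) * I - μ j‖) := by
    rw [hV, log_scond hN hS0]
  have hlog2 : Real.log 2 ≤ 1 := by
    have := Real.log_le_sub_one_of_pos (show (0 : ℝ) < 2 by norm_num)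
    linarith
  -- `S ≤ 2 R` and `R ≤ S u`
  have hS2 : S ≤ 2 * R := by
    have h3 : S * m ≤ S * ℓ := mul_le_mul_of_nonneg_left hmℓ hS0.le
    have h4 : 1 / 2 * (S * ℓ) ≤ σ * (S * ℓ) := mul_le_mul_of_nonneg_right hσ (by positivity)
    have h5 : S * m ≤ (2 * R) * m := by
      rw [hSn, hnR] at h4
      linarith
    exact le_of_mul_le_mul_right h5 hm0
  have hSl : R ≤ S * u := by
    have h3 : σ * (S * ℓ) ≤ 1 * (S * ℓ) := mul_le_mul_of_nonneg_right hσ1 (by positivity)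
    rw [hSn, hnR, hℓu] at h3
    have h5 : R * m ≤ (S * u) * m := by linarith
    exact le_of_mul_le_mul_right h5 hm0
  have hWm : m * Real.log R ≤ W := by
    have h3 : ∑ _j : Fin m, Real.log R ≤ ∑ j, Real.log (R + ‖(y : ℂ) * I - μ j‖) :=
      Finset.sum_le_sum fun j _ => Real.log_le_log (by linarith) (by linarith [norm_nonneg ((y : ℂ) * I - μ j)])
    rw [Finset.sum_const, Finset.card_univ, Fintype.card_fin, nsmul_eq_mul] at h3
    rw [hWs]
    linarith
  have hVW : V ≤ W + m := by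
    have h3 : ∑ j, Real.log (S + ‖(y : ℂ) * I - μ j‖) ≤
        ∑ j, (Real.log (R + ‖(y : ℂ) * I - μ j‖) + 1) := by
      refine Finset.sum_le_sum fun j _ => ?_
      have hn := norm_nonneg ((y : ℂ) * I - μ j)
      have h4 := Real.log_le_log (show 0 < S + ‖(y : ℂ) * I - μ j‖ by linarith)
        (show S + ‖(y : ℂ) * I - μ j‖ ≤ 2 * (R + ‖(y : ℂ) * I - μ j‖) by linarith)
      rw [Real.log_mul (by norm_num) (by linarith)] at h4
      linarith
    rw [Finset.sum_add_distrib, Finset.sum_const, Finset.card_univ, Fintype.card_fin, nsmul_eq_mul,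
      mul_one] at h3
    rw [hWs, hVs]
    linarith
  have hWV : W ≤ V + m * Real.log u := by
    have h3 : ∑ j, Real.log (R + ‖(y : ℂ) * I - μ j‖) ≤
        ∑ j, (Real.log (S + ‖(y : ℂ) * I - μ j‖) + Real.log u) := by
      refine Finset.sum_le_sum fun j _ => ?_
      have hn := norm_nonneg ((y : ℂ) * I - μ j)
      have h5 : ‖(y : ℂ) * I - μ j‖ * 1 ≤ ‖(y : ℂ) * I - μ j‖ * u := mul_le_mul_of_nonneg_left hu1 hn
      have h4 := Real.log_le_log (show 0 < R + ‖(y : ℂ) * I - μ j‖ by linarith)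
        (show R + ‖(y : ℂ) * I - μ j‖ ≤ (S + ‖(y : ℂ) * I - μ j‖) * u by linarith)
      rw [Real.log_mul (by linarith) (by linarith)] at h4
      linarith
    rw [Finset.sum_add_distrib, Finset.sum_const, Finset.card_univ, Fintype.card_fin,
      nsmul_eq_mul] at h3
    rw [hWs, hVs]
    linarith
  obtain ⟨v, hv⟩ : ∃ v : ℝ, v = W / m := ⟨_, rfl⟩
  have hWv : W = v * m := by
    rw [hv]
    field_simp
  have hlR : max v0 1 ≤ Real.log R := by
    rw [Real.le_log_iff_exp_le (by linarith)]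
    exact hRM
  have hvR : Real.log R ≤ v := by
    rw [hv, le_div_iff₀ hm0]
    linarith
  obtain ⟨h1, h2⟩ := hv0 v ((le_max_left _ _).trans (hlR.trans hvR))
  have huv : u ≤ v / 2 + 9 := by
    have h3 : u * m ≤ (v / 2 + 9) * m := by
      rw [← hℓu]
      have : W / 2 = v / 2 * m := by rw [hWv]; ring
      linarith [hH.2]
    exact le_of_mul_le_mul_right h3 hm0
  have hlogu : Real.log u ≤ 9 + Real.log v := by
    have h3 : u ≤ 10 * v := by linarith
    have h4 := Real.log_le_log (by linarith) h3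
    rw [Real.log_mul (by norm_num) (by linarith)] at h4
    have h5 := Real.log_le_sub_one_of_pos (show (0 : ℝ) < 10 by norm_num)
    linarith
  have hlu0 : 0 ≤ Real.log v := Real.log_nonneg h1
  have hεW : (20 + Real.log v / 2) * m ≤ ε * W := by
    rw [hWv, ← mul_assoc]
    exact mul_le_mul_of_nonneg_right h2 hm0.le
  have hmu : m * Real.log u ≤ m * (9 + Real.log v) := mul_le_mul_of_nonneg_left hlogu hm0.le
  have hmv : 0 ≤ m * Real.log v := by positivity
  refine ⟨?_, ?_⟩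
  · rw [hWv]
    calc (1 : ℝ) = 1 * 1 := by ring
      _ ≤ v * m := mul_le_mul h1 hm1 zero_le_one (by linarith)
  · rw [abs_le]
    constructor
    · linarith [hH.1]
    · linarith [hH.2]

end Pool.Agent.U4.UH
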