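import Pool.Agent.U4.UH.Gam

/-!
# The slope at the saddle point, for a fixed L-function
-/

set_option autoImplicit false

open Complex MeasureTheory Filter Topology Set
open scoped ComplexConjugate

namespace Pool.Agent.U4.UH

open Pool.Agent.W355.UN Pool.Agent.W169.HF H353.E

variable {m : ℕ} {N : ℝ} {μ : Fin m → ℂ}

lemma ell_two (hN : 1 ≤ N) (hμ : ∀ j, (μ j).re ≤ 1 / 2) : ∃ D : ℝ, 0 ≤ D ∧ ∀ y S : ℝ, 1 ≤ S →
    |ell N μ y S - m / 2 * Real.log (|y| + S)| ≤ D := by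
  have hlN : 0 ≤ Real.log N := Real.log_nonneg hN
  have hlog5 : ∀ j, 0 ≤ Real.log (‖μ j‖ + 5) := fun j =>
    Real.log_nonneg (by linarith [norm_nonneg (μ j)])
  refine ⟨Real.log N / 2 + ∑ j, (5 + 1 / 2 * Real.log (‖μ j‖ + 5)), ?_, ?_⟩
  · have : 0 ≤ ∑ j, (5 + 1 / 2 * Real.log (‖μ j‖ + 5)) :=
      Finset.sum_nonneg fun j _ => by linarith [hlog5 j]
    linarith
  intro y S hS
  have hy := abs_nonneg y
  have hlp := logpi
  have hterm : ∀ j, |((((-(Real.log Real.pi) / 2 : ℝ)) : ℂ) +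
      logDeriv Gamma ((1 / 2 + 2 * S + y * I - μ j) / 2) / 2).re - 1 / 2 * Real.log (|y| + S)| ≤
      5 + 1 / 2 * Real.log (‖μ j‖ + 5) := fun j => by
    obtain ⟨z, hzd⟩ : ∃ z : ℂ, z = (1 / 2 + 2 * S + y * I - μ j) / 2 := ⟨_, rfl⟩
    have hre : z.re = (1 / 2 + 2 * S - (μ j).re) / 2 := by rw [hzd, pt_re]
    have hre1 : S ≤ z.re := by rw [hre]; linarith [hμ j]
    have him : z.im = (y - (μ j).im) / 2 := by
      rw [hzd, show (2 : ℂ) = ((2 : ℝ) : ℂ) by norm_num, Complex.div_ofReal_im]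
      simp
    rw [← hzd, term_re]
    have h3 := dig_up (z := z) (by linarith)
    have h3' := dig_lo (z := z) (by linarith)
    have hμn := norm_nonneg (μ j)
    have hge1 : S + 2 ≤ ‖z + 2‖ := by
      have := Complex.re_le_norm (z + 2)
      rw [add_re, re_ofNat] at this
      linarith
    have hpos : 0 < ‖z + 2‖ := by linarith
    have hup : ‖z + 2‖ ≤ (|y| + S) * (‖μ j‖ + 5) := by
      have h4 : ‖z + 2‖ ≤ |(z + 2).re| + |(z + 2).im| := Complex.norm_le_abs_re_add_abs_im _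
      rw [add_re, add_im, re_ofNat, im_ofNat, add_zero, him, hre] at h4
      have h5 := Complex.abs_re_le_norm (μ j)
      have h6 := Complex.abs_im_le_norm (μ j)
      have h7 : |(1 / 2 + 2 * S - (μ j).re) / 2 + 2| ≤ 1 / 4 + S + ‖μ j‖ / 2 + 2 := by
        rw [abs_le]
        have := abs_le.1 h5
        constructor <;> linarith [this.1, this.2]
      have h8 : |(y - (μ j).im) / 2| ≤ |y| / 2 + ‖μ j‖ / 2 := by
        rw [abs_div, abs_two]
        have := abs_sub y (μ j).im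
        linarith
      nlinarith
    have hlo : |y| + S ≤ ‖z + 2‖ * (‖μ j‖ + 5) := by
      have h5 : |(z + 2).im| ≤ ‖z + 2‖ := Complex.abs_im_le_norm _
      rw [add_im, im_ofNat, add_zero, him] at h5
      have h6 := Complex.abs_im_le_norm (μ j)
      have h7 : |y| ≤ 2 * |(y - (μ j).im) / 2| + ‖μ j‖ := by
        rw [abs_div, abs_two]
        have e : y = (y - (μ j).im) + (μ j).im := by ring
        have := abs_add_le (y - (μ j).im) (μ j).im
        rw [← e] at this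
        linarith
      nlinarith
    have hYS : 0 < |y| + S := by linarith
    have hl1 : Real.log ‖z + 2‖ ≤ Real.log (|y| + S) + Real.log (‖μ j‖ + 5) := by
      rw [← Real.log_mul hYS.ne' (by linarith)]
      exact Real.log_le_log hpos hup
    have hl2 : Real.log (|y| + S) ≤ Real.log ‖z + 2‖ + Real.log (‖μ j‖ + 5) := by
      rw [← Real.log_mul hpos.ne' (by linarith)]
      exact Real.log_le_log hYS hlo
    rw [abs_le]
    constructor <;> linarith
  unfold ell gaD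
  rw [add_re, ofReal_re, re_sum]
  have e : Real.log N / 2 + ∑ j, ((((-(Real.log Real.pi) / 2 : ℝ)) : ℂ) +
      logDeriv Gamma ((1 / 2 + 2 * S + y * I - μ j) / 2) / 2).re - m / 2 * Real.log (|y| + S) =
      Real.log N / 2 + ∑ j, (((((-(Real.log Real.pi) / 2 : ℝ)) : ℂ) +
      logDeriv Gamma ((1 / 2 + 2 * S + y * I - μ j) / 2) / 2).re - 1 / 2 * Real.log (|y| + S)) := by
    rw [Finset.sum_sub_distrib, Finset.sum_const, Finset.card_univ, Fintype.card_fin, nsmul_eq_mul]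
    ring
  rw [e]
  refine (abs_add_le _ _).trans ?_
  rw [abs_of_nonneg (by linarith : (0 : ℝ) ≤ Real.log N / 2)]
  have h1 := (Finset.abs_sum_le_sum_abs (fun j => ((((-(Real.log Real.pi) / 2 : ℝ)) : ℂ) +
      logDeriv Gamma ((1 / 2 + 2 * S + y * I - μ j) / 2) / 2).re - 1 / 2 * Real.log (|y| + S))
      (Finset.univ : Finset (Fin m))).trans (Finset.sum_le_sum fun j _ => hterm j)
  linarith

/-- the slope at the saddle point is asymptotically `(m / 2) log (|y| + n)`, uniformly in `y` -/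
theorem ell_asy (hm : 1 ≤ m) (hN : 1 ≤ N) (hμ : ∀ j, (μ j).re ≤ 1 / 2) {ε : ℝ} (hε : 0 < ε) :
    ∃ n0 : ℕ, ∀ n : ℕ, n0 ≤ n → ∀ y S σ : ℝ, 1 ≤ S → 1 / 2 ≤ σ → σ ≤ 1 →
      σ * (S * ell N μ y S) = n → m ≤ ell N μ y S →
      1 ≤ Real.log (|y| + n) ∧
      |ell N μ y S - m / 2 * Real.log (|y| + n)| ≤ ε * Real.log (|y| + n) := by
  obtain ⟨D, hD, H⟩ := ell_two hN hμ
  have hm1 : (1 : ℝ) ≤ m := by exact_mod_cast hm
  obtain ⟨D2, hD2⟩ : ∃ D2 : ℝ, D2 = m / 2 + D := ⟨_, rfl⟩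
  have hD20 : 0 < D2 := by rw [hD2]; positivity
  have hev : ∀ᶠ Y : ℝ in atTop, 1 ≤ Y ∧ D2 + m / 2 * (Real.log (m + D2) + Real.log Y) ≤ ε * Y := by
    have h1 : ∀ᶠ Y : ℝ in atTop, Real.log Y ≤ (ε / m) * Y := by
      have h2 := Real.isLittleO_log_id_atTop.def (show 0 < ε / m by positivity)
      filter_upwards [h2, eventually_ge_atTop 1] with Y h3 h4
      rw [Real.norm_eq_abs, id, Real.norm_eq_abs, abs_of_nonneg (by linarith : (0 : ℝ) ≤ Y)] at h3
      exact (le_abs_self _).trans h3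
    have h2 : ∀ᶠ Y : ℝ in atTop, D2 + m / 2 * Real.log (m + D2) ≤ ε / 2 * Y := by
      have h3 := (tendsto_id (α := ℝ) (x := atTop)).const_mul_atTop (show 0 < ε / 2 by positivity)
      exact h3.eventually_ge_atTop _
    filter_upwards [h1, h2, eventually_ge_atTop 1] with Y h3 h4 h5
    refine ⟨h5, ?_⟩
    have h6 : m / 2 * Real.log Y ≤ m / 2 * ((ε / m) * Y) := mul_le_mul_of_nonneg_left h3 (by positivity)
    have h7 : (m : ℝ) / 2 * ((ε / m) * Y) = ε / 2 * Y := by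
      field_simp
    rw [h7] at h6
    linarith
  obtain ⟨Y0, hY0⟩ := eventually_atTop.1 hev
  refine ⟨⌈Real.exp (max Y0 1)⌉₊, ?_⟩
  intro n hn y S σ hS hσ hσ1 hSn hmℓ
  have hn' : Real.exp (max Y0 1) ≤ n := (Nat.le_ceil _).trans (by exact_mod_cast hn)
  have hy := abs_nonneg y
  have hn1 : (1 : ℝ) ≤ n := le_trans (Real.one_le_exp (le_trans zero_le_one (le_max_right _ _))) hn'
  obtain ⟨Y, hY⟩ : ∃ Y : ℝ, Y = Real.log (|y| + n) := ⟨_, rfl⟩
  have hYn : max Y0 1 ≤ Y := by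
    rw [hY, Real.le_log_iff_exp_le (by linarith)]
    linarith
  obtain ⟨h1, h2⟩ := hY0 Y ((le_max_left _ _).trans hYn)
  obtain ⟨ℓ, hℓ⟩ : ∃ ℓ : ℝ, ℓ = ell N μ y S := ⟨_, rfl⟩
  have hH := abs_le.1 (H y S hS)
  rw [← hℓ] at hSn hmℓ hH ⊢
  rw [← hY]
  have hℓ1 : 1 ≤ ℓ := hm1.trans hmℓ
  have hS0 : 0 < S := by linarith
  have hS2 : S ≤ 2 * n := by
    rw [← hSn]
    have h3 : S * 1 ≤ S * ℓ := mul_le_mul_of_nonneg_left hℓ1 hS0.le
    have h4 : 1 / 2 * (S * ℓ) ≤ σ * (S * ℓ) := mul_le_mul_of_nonneg_right hσ (by positivity)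
    linarith
  have hSl : n ≤ S * ℓ := by
    rw [← hSn]
    have : σ * (S * ℓ) ≤ 1 * (S * ℓ) := mul_le_mul_of_nonneg_right hσ1 (by positivity)
    linarith
  have hlog2 : Real.log 2 ≤ 1 := by
    have := Real.log_le_sub_one_of_pos (show (0 : ℝ) < 2 by norm_num)
    linarith
  have hup : Real.log (|y| + S) ≤ 1 + Y := by
    have h3 : |y| + S ≤ 2 * (|y| + n) := by linarith
    have h4 := Real.log_le_log (by linarith) h3
    rw [Real.log_mul (by norm_num) (by linarith), ← hY] at h4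
    linarith
  have hℓup : ℓ ≤ m / 2 * Y + D2 := by
    have h3 : (m : ℝ) / 2 * Real.log (|y| + S) ≤ m / 2 * (1 + Y) :=
      mul_le_mul_of_nonneg_left hup (by positivity)
    rw [hD2]
    linarith [hH.2]
  have hlo : Y - Real.log ℓ ≤ Real.log (|y| + S) := by
    have h3 : |y| + n ≤ (|y| + S) * ℓ := by
      have h4 : |y| * 1 ≤ |y| * ℓ := mul_le_mul_of_nonneg_left hℓ1 hy
      linarith
    have h4 := Real.log_le_log (by linarith) h3
    rw [Real.log_mul (by linarith) (by linarith), ← hY] at h4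
    linarith
  have hlogℓ : Real.log ℓ ≤ Real.log (m + D2) + Real.log Y := by
    rw [← Real.log_mul (by positivity) (by linarith)]
    apply Real.log_le_log (by linarith)
    refine hℓup.trans ?_
    have h3 : (m : ℝ) / 2 * Y ≤ m * Y := by
      have : (m : ℝ) / 2 ≤ m := by linarith
      exact mul_le_mul_of_nonneg_right this (by linarith)
    have h4 : D2 * 1 ≤ D2 * Y := mul_le_mul_of_nonneg_left h1 hD20.le
    linarith
  refine ⟨h1, ?_⟩
  have h5 : (m : ℝ) / 2 * (Y - Real.log ℓ) ≤ m / 2 * Real.log (|y| + S) :=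
    mul_le_mul_of_nonneg_left hlo (by positivity)
  have h6 : (m : ℝ) / 2 * Real.log ℓ ≤ m / 2 * (Real.log (m + D2) + Real.log Y) :=
    mul_le_mul_of_nonneg_left hlogℓ (by positivity)
  have h7 : D ≤ D2 := by rw [hD2]; linarith
  have h8 : 0 ≤ (m : ℝ) / 2 * (Real.log (m + D2) + Real.log Y) := by
    refine le_trans ?_ h6
    have := Real.log_nonneg hℓ1
    positivity
  rw [abs_le]
  constructor
  · linarith [hH.1]
  · linarith

end Pool.Agent.U4.UH
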