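import Pool.Agent.U4.UH.Gap
import Pool.Agent.U4.UH.Asy
import Pool.Agent.Y771.NF.FinD
import Pool.Agent.Y771.NF.Delta

/-!
# The discriminant
-/

set_option autoImplicit false

open Complex

namespace Pool.Agent.U4.UH

open Pool.Agent.W355.UN
open Pool.Agent.H986R2.K4.WinAux (scale)
open Pool.Agent.W97.TW (deltaForm)

/-- the completed L-function of the discriminant -/
noncomputable def LamD : ℂ → ℂ := Pool.Agent.Y771.NF.Lam (N := 1) (k := 12) deltaForm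

lemma LamD_diff : Differentiable ℂ LamD :=
  Pool.Agent.Y771.NF.Lam_diff (by norm_num) Pool.Agent.Y771.NF.newf_delta

theorem delta_ul : ∃ (B : ℝ → ℝ) (u : ℂ) (X L : ℂ → ℂ), u ≠ 0 ∧
    UL 2 B ((1 : ℕ) : ℝ) 0 (Pool.Agent.Y771.NF.muk 12) X L ∧ (∀ s : ℂ, X s = u * LamD (s + 11 / 2)) ∧
    ∀ (k : ℕ) (z : ℂ), iteratedDeriv k X (1 / 2 + z) = u * iteratedDeriv k LamD (6 + z) := by
  have hk : 1 ≤ 12 := by norm_num
  obtain ⟨u, hu, hue⟩ := Pool.Agent.Y771.NF.exists_unit Pool.Agent.Y771.NF.newf_delta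
  obtain ⟨Z, hFE, hL⟩ := Pool.Agent.Y671.GL.exists_Z hk Pool.Agent.Y771.NF.newf_delta
  obtain ⟨B, r, hUL⟩ := Pool.Agent.Y771.NF.ul_of hk Pool.Agent.Y771.NF.newf_delta hu hue hFE hL
  have e0 : ∀ s : ℂ, Pool.Agent.Y771.NF.Xf deltaForm u (s - 1 / 2) = u * LamD (s + 11 / 2) := by
    intro s
    unfold Pool.Agent.Y771.NF.Xf LamD
    congr 2
    push_cast
    ring
  refine ⟨B, u, _, _, hu, hUL, e0, ?_⟩
  intro k z
  have e1 : (fun s => Pool.Agent.Y771.NF.Xf deltaForm u (s - 1 / 2)) =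
      fun s => u * LamD (11 / 2 + 1 * s) := by
    funext s
    rw [e0, one_mul, add_comm]
  rw [e1, iteratedDeriv_const_mul_field, scale LamD_diff, one_pow, one_mul]
  congr 2
  ring

/-- the analytic conductor of the discriminant -/
lemma delta_cond {κ y : ℝ} (hκ : 0 ≤ κ) {n : ℕ} (hy : |y| ≤ Real.exp (κ * n)) :
    Real.log (W355.UN.cond ((1 : ℕ) : ℝ) (Pool.Agent.Y771.NF.muk 12) y) ≤ 28 + 2 * κ * n := by
  have h4 := Pool.Agent.Y771.NF.cond_le (N := 1) (k := 12) (by norm_num) y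
  have hn0 : (0 : ℝ) ≤ n := Nat.cast_nonneg n
  have h5 : Real.log (1 + |y|) ≤ 1 + κ * n := by
    have h6 : 1 + |y| ≤ 2 * Real.exp (κ * n) := by
      have h8 : 1 ≤ Real.exp (κ * n) := Real.one_le_exp (by positivity)
      linarith
    have h7 := Real.log_le_log (by positivity) h6
    rw [Real.log_mul (by norm_num) (Real.exp_pos _).ne', Real.log_exp] at h7
    have h8 := Real.log_le_sub_one_of_pos (show (0 : ℝ) < 2 by norm_num)
    linarith
  have h6 := Real.log_le_sub_one_of_pos (show (0 : ℝ) < 2 + (12 : ℕ) by norm_num)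
  have h7 : Real.log (((1 : ℕ) : ℝ)) = 0 := by simp
  rw [h7] at h4
  push_cast at h4 h6 ⊢
  linarith

/-- lower bound for the analytic conductor -/
lemma delta_le_cond {y : ℝ} (hy : 1 ≤ |y|) :
    2 * Real.log |y| ≤ Real.log (W355.UN.cond ((1 : ℕ) : ℝ) (Pool.Agent.Y771.NF.muk 12) y) := by
  have hy0 : 0 < |y| := by linarith
  have e : 2 * Real.log |y| = Real.log (|y| * |y|) := by
    rw [Real.log_mul hy0.ne' hy0.ne']
    ring
  rw [e]
  apply Real.log_le_log (by positivity)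
  unfold W355.UN.cond
  rw [Fin.prod_univ_two, Nat.cast_one, one_mul]
  have hb : ∀ j : Fin 2, |y| ≤ 1 + ‖(y : ℂ) * I - Pool.Agent.Y771.NF.muk 12 j‖ := by
    intro j
    have h1 : |((y : ℂ) * I - Pool.Agent.Y771.NF.muk 12 j).im| ≤
        ‖(y : ℂ) * I - Pool.Agent.Y771.NF.muk 12 j‖ := Complex.abs_im_le_norm _
    have h2 : ((y : ℂ) * I - Pool.Agent.Y771.NF.muk 12 j).im = y := by
      fin_cases j
      · show ((y : ℂ) * I - -((((12 : ℕ) : ℂ) - 1) / 2)).im = y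
        rw [show (((12 : ℕ) : ℂ) - 1) / 2 = ((11 / 2 : ℝ) : ℂ) by push_cast; norm_num]
        simp
      · show ((y : ℂ) * I - -((((12 : ℕ) : ℂ) + 1) / 2)).im = y
        rw [show (((12 : ℕ) : ℂ) + 1) / 2 = ((13 / 2 : ℝ) : ℂ) by push_cast; norm_num]
        simp
    rw [h2] at h1
    linarith
  exact mul_le_mul (hb 0) (hb 1) hy0.le (by positivity)

/-- **The horizon of the heat flow** of the discriminant. -/
theorem delta_heat {κ : ℝ} (hκ : 1 / 2 < κ) : ∃ T0 : ℝ, 1 ≤ T0 ∧ ∀ (t : ℝ) (s : ℂ), 0 < t →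
    T0 ≤ |s.im| → Real.exp (κ / t) ≤ |s.im| → Pool.Agent.W169.HF.heat t LamD (s + 11 / 2) = 0 →
      s.re = 1 / 2 := by
  obtain ⟨B, u, X, L, hu, hUL, hX0, -⟩ := delta_ul
  obtain ⟨η, hη⟩ : ∃ η : ℝ, η = min 1 (2 * κ - 1) := ⟨_, rfl⟩
  have hη0 : 0 < η := by rw [hη]; exact lt_min one_pos (by linarith)
  have hη1 : η ≤ 1 := by rw [hη]; exact min_le_left _ _
  have hη2 : η ≤ 2 * κ - 1 := by rw [hη]; exact min_le_right _ _
  obtain ⟨C, hC, H⟩ := sharp (B := B) (θ := 0) (η := η) hUL.hB le_rfl (by norm_num) hη0 hη1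
  refine ⟨Real.exp C, Real.one_le_exp hC.le, ?_⟩
  intro t s ht hT hκs h0
  have hy1 : 1 ≤ |s.im| := (Real.one_le_exp hC.le).trans hT
  have hl1 : C ≤ Real.log |s.im| := by
    rw [Real.le_log_iff_exp_le (by linarith)]
    exact hT
  have hl2 : κ / t ≤ Real.log |s.im| := by
    rw [Real.le_log_iff_exp_le (by linarith)]
    exact hκs
  have hc := delta_le_cond hy1
  rw [div_le_iff₀ ht] at hl2
  have e2 : (((2 : ℕ) : ℝ)) = 2 := by norm_num
  refine H 2 _ _ X L hUL t s ht (by rw [e2]; linarith) ?_ ?_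
  · have h1 : t * (2 * Real.log |s.im|) ≤
        t * Real.log (W355.UN.cond ((1 : ℕ) : ℝ) (Pool.Agent.Y771.NF.muk 12) s.im) :=
      mul_le_mul_of_nonneg_left hc ht.le
    linarith
  · have h1 : Pool.Agent.W169.HF.heat t X s = u * Pool.Agent.W169.HF.heat t LamD (s + 11 / 2) := by
      unfold Pool.Agent.W169.HF.heat
      have e3 : (fun v : ℝ => ((Real.exp (-v ^ 2) : ℝ) : ℂ) * X (s + ((2 * Real.sqrt t * v : ℝ) : ℂ))) =
          fun v : ℝ => u * (((Real.exp (-v ^ 2) : ℝ) : ℂ) *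
            LamD (s + 11 / 2 + ((2 * Real.sqrt t * v : ℝ) : ℂ))) := by
        funext v
        rw [hX0]
        have e1 : s + ((2 * Real.sqrt t * v : ℝ) : ℂ) + 11 / 2 =
            s + 11 / 2 + ((2 * Real.sqrt t * v : ℝ) : ℂ) := by ring
        rw [e1]
        ring
      rw [e3, MeasureTheory.integral_const_mul]
      ring
    rw [h1, h0, mul_zero]

/-- **Zeros of the derivatives of the completed L-function of the discriminant.** -/
theorem delta_zeros {κ : ℝ} (hκ : κ < 2) : ∃ N : ℕ, ∀ n : ℕ, N ≤ n → ∀ s : ℂ,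
    |s.im| ≤ Real.exp (κ * n) → iteratedDeriv n LamD (6 + s) = 0 →
      s.re = 0 ∧ iteratedDeriv (n + 1) LamD (6 + s) ≠ 0 := by
  obtain ⟨B, u, X, L, hu, hUL, -, hX⟩ := delta_ul
  obtain ⟨κ1, hκ1⟩ : ∃ κ1 : ℝ, κ1 = max κ 1 := ⟨_, rfl⟩
  have h1 : 1 ≤ κ1 := by rw [hκ1]; exact le_max_right _ _
  have h2 : κ1 < 2 := by rw [hκ1]; exact max_lt hκ (by norm_num)
  have h3 : κ ≤ κ1 := by rw [hκ1]; exact le_max_left _ _
  obtain ⟨M, hM, H⟩ := main hUL.hB le_rfl zero_le_one (κ := κ1 + 2) (by linarith) (by linarith)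
  have hg : 0 < 2 - κ1 := by linarith
  refine ⟨⌈max (2 * M) (28 / (2 - κ1))⌉₊, ?_⟩
  intro n hn s hs hz
  have hn' : max (2 * M) (28 / (2 - κ1)) ≤ n := (Nat.le_ceil _).trans (by exact_mod_cast hn)
  have hnM : M * ((2 : ℕ) : ℝ) ≤ n := by
    have := (le_max_left _ _).trans hn'
    push_cast
    linarith
  have hn28 : 28 ≤ (2 - κ1) * n := by
    have := (le_max_right _ _).trans hn'
    rw [div_le_iff₀ hg] at this
    linarith
  have hn0 : (0 : ℝ) ≤ n := Nat.cast_nonneg n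
  have him : (1 / 2 + s).im = s.im := by simp
  have hre : (1 / 2 + s).re = 1 / 2 + s.re := by simp
  have hc : Real.log (W355.UN.cond ((1 : ℕ) : ℝ) (Pool.Agent.Y771.NF.muk 12) (1 / 2 + s).im) ≤
      (κ1 + 2) * n := by
    rw [him]
    have h4 : |s.im| ≤ Real.exp (κ1 * n) := hs.trans (Real.exp_le_exp.2 (by gcongr))
    have := delta_cond (by linarith) h4
    linarith
  obtain ⟨h4, h5⟩ := H 2 _ _ _ _ hUL n hnM (1 / 2 + s) hc (by rw [hX, hz, mul_zero])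
  rw [hre] at h4
  refine ⟨by linarith, fun h6 => h5 ?_⟩
  rw [hX, h6, mul_zero]

/-- **Equal spacing** for the discriminant. -/
theorem delta_gap {κ ε : ℝ} (hκ : κ < 2) (hε : 0 < ε) : ∃ N : ℕ, ∀ n : ℕ, N ≤ n → ∀ y : ℝ,
    |y| ≤ Real.exp (κ * n) →
      (∃ y' : ℝ, y ≤ y' ∧ (y' - y) * Real.log (|y| + n) / Real.pi ≤ 1 + ε ∧
        iteratedDeriv n LamD (6 + y' * I) = 0) ∧
      (iteratedDeriv n LamD (6 + y * I) = 0 → ∃ y' : ℝ, y < y' ∧
        iteratedDeriv n LamD (6 + y' * I) = 0 ∧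
        (∀ v : ℝ, y < v → v < y' → iteratedDeriv n LamD (6 + v * I) ≠ 0) ∧
        |(y' - y) * Real.log (|y| + n) / Real.pi - 1| ≤ ε) := by
  obtain ⟨B, u, X, L, hu, hUL, -, hX⟩ := delta_ul
  obtain ⟨κ1, hκ1⟩ : ∃ κ1 : ℝ, κ1 = max κ 1 := ⟨_, rfl⟩
  have h1 : 1 ≤ κ1 := by rw [hκ1]; exact le_max_right _ _
  have h2 : κ1 < 2 := by rw [hκ1]; exact max_lt hκ (by norm_num)
  have h3 : κ ≤ κ1 := by rw [hκ1]; exact le_max_left _ _
  obtain ⟨ε1, hε1⟩ : ∃ ε1 : ℝ, ε1 = min (ε / 4) (1 / 4) := ⟨_, rfl⟩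
  have hε10 : 0 < ε1 := by rw [hε1]; exact lt_min (by linarith) (by norm_num)
  have hε13 : ε1 ≤ ε / 4 := by rw [hε1]; exact min_le_left _ _
  have hε14 : ε1 ≤ 1 / 4 := by rw [hε1]; exact min_le_right _ _
  obtain ⟨M, hM, H⟩ := main_gap hUL.hB le_rfl zero_le_one (κ := κ1 + 2) (by linarith) (by linarith) hε10
  obtain ⟨n0, hA⟩ := ell_asy (m := 2) (by norm_num) hUL.hN hUL.re_le hε10
  have hg : 0 < 2 - κ1 := by linarith
  refine ⟨max n0 ⌈max (2 * M) (28 / (2 - κ1))⌉₊, ?_⟩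
  intro n hn y hy
  have hn0' : n0 ≤ n := (le_max_left _ _).trans hn
  have hn' : max (2 * M) (28 / (2 - κ1)) ≤ n :=
    (Nat.le_ceil _).trans (by exact_mod_cast (le_max_right _ _).trans hn)
  have hnM : M * ((2 : ℕ) : ℝ) ≤ n := by
    have := (le_max_left _ _).trans hn'
    push_cast
    linarith
  have hn28 : 28 ≤ (2 - κ1) * n := by
    have := (le_max_right _ _).trans hn'
    rw [div_le_iff₀ hg] at this
    linarith
  have hn0 : (0 : ℝ) ≤ n := Nat.cast_nonneg n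
  have hc : Real.log (W355.UN.cond ((1 : ℕ) : ℝ) (Pool.Agent.Y771.NF.muk 12) y) ≤ (κ1 + 2) * n := by
    have h4 : |y| ≤ Real.exp (κ1 * n) := hy.trans (Real.exp_le_exp.2 (by gcongr))
    have := delta_cond (by linarith) h4
    linarith
  obtain ⟨S, σ, hS, hσ, hσ1, hSn, hmℓ, hex, hgap⟩ := H 2 _ _ _ _ hUL n hnM y hc
  obtain ⟨hY1, hYℓ⟩ := hA n hn0' y S σ hS hσ hσ1 hSn hmℓ
  obtain ⟨ℓ, hℓ⟩ : ∃ ℓ : ℝ, ℓ = ell ((1 : ℕ) : ℝ) (Pool.Agent.Y771.NF.muk 12) y S := ⟨_, rfl⟩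
  obtain ⟨Y, hY⟩ : ∃ Y : ℝ, Y = Real.log (|y| + n) := ⟨_, rfl⟩
  rw [← hℓ] at hYℓ hex hgap
  rw [← hY] at hY1 hYℓ ⊢
  have e2 : (((2 : ℕ) : ℝ)) / 2 * Y = Y := by push_cast; ring
  rw [e2] at hYℓ
  have hYb := abs_le.1 hYℓ
  have hpi := Real.pi_pos
  have hX' : ∀ v : ℝ, iteratedDeriv n X (1 / 2 + v * I) = 0 ↔ iteratedDeriv n LamD (6 + v * I) = 0 := by
    intro v
    rw [hX]
    constructor
    · intro h
      exact (mul_eq_zero.1 h).resolve_left hu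
    · intro h
      rw [h, mul_zero]
  have hℓY : (1 - ε1) * Y ≤ ℓ := by linarith [hYb.1]
  have hYℓ2 : ℓ ≤ (1 + ε1) * Y := by linarith [hYb.2]
  have hup : ∀ d : ℝ, 0 ≤ d → d * ℓ / Real.pi ≤ 1 + ε1 → d * Y / Real.pi ≤ 1 + 4 * ε1 := by
    intro d hd h
    rw [div_le_iff₀ hpi] at h ⊢
    have h4 : d * ((1 - ε1) * Y) ≤ d * ℓ := mul_le_mul_of_nonneg_left hℓY hd
    have h5 : 0 ≤ d * Y := mul_nonneg hd (by linarith)
    have h6 : 1 + ε1 ≤ (1 + 4 * ε1) * (1 - ε1) := by nlinarith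
    have h7 : (1 - ε1) * (d * Y) ≤ (1 - ε1) * ((1 + 4 * ε1) * Real.pi) := by
      calc (1 - ε1) * (d * Y) = d * ((1 - ε1) * Y) := by ring
        _ ≤ d * ℓ := h4
        _ ≤ (1 + ε1) * Real.pi := h
        _ ≤ (1 + 4 * ε1) * (1 - ε1) * Real.pi := mul_le_mul_of_nonneg_right h6 hpi.le
        _ = _ := by ring
    exact le_of_mul_le_mul_left h7 (by linarith)
  refine ⟨?_, fun hz => ?_⟩
  · obtain ⟨y', h4, h5, h6⟩ := hex
    exact ⟨y', h4, (hup _ (by linarith) h5).trans (by linarith), (hX' y').1 h6⟩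
  · obtain ⟨y', h4, h5, h6, h7⟩ := hgap ((hX' y).2 hz)
    refine ⟨y', h4, (hX' y').1 h5, fun v hv1 hv2 hv => h6 v hv1 hv2 ((hX' v).2 hv), ?_⟩
    have h8 := abs_le.1 h7
    have h9 := hup (y' - y) (by linarith) (by linarith [h8.2])
    rw [abs_le]
    constructor
    · have h10 : 1 - ε1 ≤ (y' - y) * ℓ / Real.pi := by linarith [h8.1]
      rw [le_div_iff₀ hpi] at h10
      have h11 : (1 - 4 * ε1) ≤ (y' - y) * Y / Real.pi := by
        rw [le_div_iff₀ hpi]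
        have h12 : (y' - y) * ℓ ≤ (y' - y) * ((1 + ε1) * Y) := mul_le_mul_of_nonneg_left hYℓ2 (by linarith)
        have h13 : (1 - 4 * ε1) * (1 + ε1) ≤ 1 - ε1 := by nlinarith
        have h14 : (1 + ε1) * ((1 - 4 * ε1) * Real.pi) ≤ (1 + ε1) * ((y' - y) * Y) := by
          calc (1 + ε1) * ((1 - 4 * ε1) * Real.pi) = (1 - 4 * ε1) * (1 + ε1) * Real.pi := by ring
            _ ≤ (1 - ε1) * Real.pi := mul_le_mul_of_nonneg_right h13 hpi.le
            _ ≤ (y' - y) * ℓ := h10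
            _ ≤ (y' - y) * ((1 + ε1) * Y) := h12
            _ = _ := by ring
        exact le_of_mul_le_mul_left h14 (by linarith)
      linarith
    · linarith

end Pool.Agent.U4.UH
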