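import Pool.Agent.U4.UH.Gap
import Pool.Agent.U4.UH.Asu
import Pool.Agent.W355.UN.Fin

/-!
# Dirichlet L-functions, uniformly in the modulus
-/

set_option autoImplicit false

open Complex MeasureTheory Filter Topology Set
open scoped ComplexConjugate

namespace Pool.Agent.U4.UH

open Pool.Agent.W355.UN Pool.Agent.W169.HF H353.E

/-- the completed L-function `q^(s/2) Λ(s, χ)` -/
noncomputable def LamC {q : ℕ} [NeZero q] (χ : DirichletCharacter ℂ q) (s : ℂ) : ℂ :=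
  (q : ℂ) ^ (s / 2) * DirichletCharacter.completedLFunction χ s

lemma LamC_diff {q : ℕ} [NeZero q] {χ : DirichletCharacter ℂ q} (hχ : χ ≠ 1) :
    Differentiable ℂ (LamC χ) := by
  have hq : (q : ℂ) ≠ 0 := Nat.cast_ne_zero.2 (NeZero.ne q)
  unfold LamC
  refine Differentiable.mul ?_ (DirichletCharacter.differentiable_completedLFunction hχ)
  intro s
  exact (differentiableAt_id.div_const 2).const_cpow (Or.inl hq)

theorem dir_ul (q : ℕ) [NeZero q] (χ : DirichletCharacter ℂ q) (hq : 1 < q) (hχ : χ.IsPrimitive) :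
    ∃ (a : ℝ) (L : ℂ → ℂ), (a = 0 ∨ a = 1) ∧ UL 1 Bst q 0 (fun _ => -(a : ℂ)) (LamC χ) L := by
  classical
  have hχ1 : χ ≠ 1 := by
    rintro rfl
    rw [DirichletCharacter.isPrimitive_def, DirichletCharacter.conductor_one] at hχ
    omega
  obtain ⟨X, h⟩ := dir_raw q χ hq hχ
  have h' : Raw 1 0 (q : ℝ) (fun _ => ((Pool.Agent.W355.LJ.parD χ : ℝ) : ℂ))
      (fun n => χ (n : ZMod q)) (fun n => χ (n : ZMod q)) X := by
    have e : (fun j : Fin 1 => ([((Pool.Agent.W355.LJ.parD χ : ℝ) : ℂ)]).get j) =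
        fun _ => ((Pool.Agent.W355.LJ.parD χ : ℝ) : ℂ) := by
      funext j
      rw [Subsingleton.elim j 0]
      rfl
    unfold RawL at h
    rw [← e]
    exact h
  have hX : LamC χ = X := by
    refine Pk.uniq (G := fun s => (q : ℂ) ^ (s / 2) * ∏ j : Fin 1,
      Gammaℝ (s + (fun _ => ((Pool.Agent.W355.LJ.parD χ : ℝ) : ℂ)) j) *
        LSeries (fun n => χ (n : ZMod q)) s) h'.entire (LamC_diff hχ1) ?_ ?_
    · obtain ⟨σ, hσ⟩ := h'.eq
      refine ⟨σ, fun s hs => ?_⟩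
      rw [hσ s hs, pow_zero, one_mul, Fin.prod_univ_one, Fin.prod_univ_one]
      push_cast
      ring
    · refine ⟨2, fun s hs => ?_⟩
      have hs1 : 1 < s.re := by linarith
      have hs0 : s ≠ 0 := fun h0 => by rw [h0] at hs; norm_num at hs
      have h1 := DirichletCharacter.LFunction_eq_completed_div_gammaFactor χ s (Or.inl hs0)
      rw [DirichletCharacter.LFunction_eq_LSeries χ hs1] at h1
      have hg : DirichletCharacter.gammaFactor χ s =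
          Gammaℝ (s + ((Pool.Agent.W355.LJ.parD χ : ℝ) : ℂ)) := by
        rcases χ.even_or_odd with he | ho
        · rw [he.gammaFactor_def]
          unfold Pool.Agent.W355.LJ.parD
          rw [if_pos he]
          simp
        · rw [ho.gammaFactor_def]
          unfold Pool.Agent.W355.LJ.parD
          rw [if_neg ho.not_even]
          simp
      have hg0 : DirichletCharacter.gammaFactor χ s ≠ 0 := by
        rw [hg]
        apply Gammaℝ_ne_zero_of_re_pos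
        rw [add_re, ofReal_re]
        have : 0 ≤ Pool.Agent.W355.LJ.parD χ := by
          unfold Pool.Agent.W355.LJ.parD
          split_ifs <;> norm_num
        linarith
      rw [eq_div_iff hg0] at h1
      unfold LamC
      rw [← h1, hg, Fin.prod_univ_one]
      ring
  refine ⟨Pool.Agent.W355.LJ.parD χ, _, ?_, hX ▸ h'.ul Pool.Agent.W672.UN.coef
    Pool.Agent.W12.UN.slow Pool.Agent.W215.UN.gam⟩
  unfold Pool.Agent.W355.LJ.parD
  split_ifs
  · exact Or.inl rfl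
  · exact Or.inr rfl

/-- the completed L-function of a primitive character; for `q = 1` it is `2 ξ(s)` -/
noncomputable def LamQ {q : ℕ} [NeZero q] (χ : DirichletCharacter ℂ q) (s : ℂ) : ℂ :=
  if q = 1 then s * (s - 1) * completedRiemannZeta₀ s + 1
  else (q : ℂ) ^ (s / 2) * DirichletCharacter.completedLFunction χ s

theorem all_ul (q : ℕ) [NeZero q] (χ : DirichletCharacter ℂ q) (hχ : χ.IsPrimitive) :
    ∃ (a : ℝ) (L : ℂ → ℂ), (a = 0 ∨ a = 1) ∧ UL 1 Bst q 0 (fun _ => -(a : ℂ)) (LamQ χ) L := by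
  have hq0 := NeZero.ne q
  by_cases h1 : q = 1
  · subst h1
    have hX : LamQ χ = fun s => s * (s - 1) * completedRiemannZeta₀ s + 1 := by
      funext s
      unfold LamQ
      rw [if_pos rfl]
    have h' : Raw 1 1 ((1 : ℕ) : ℝ) (fun _ => ((0 : ℝ) : ℂ)) (fun _ => 1) (fun _ => 1)
        (fun s => s * (s - 1) * completedRiemannZeta₀ s + 1) := by
      have h := zeta_raw
      unfold RawL at h
      have e : (fun j : Fin 1 => ([(0 : ℂ)]).get j) = fun _ => ((0 : ℝ) : ℂ) := by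
        funext j
        rw [Subsingleton.elim j 0, ofReal_zero]
        rfl
      rw [← e, Nat.cast_one]
      exact h
    have h'' := h'.ul Pool.Agent.W672.UN.coef Pool.Agent.W12.UN.slow Pool.Agent.W215.UN.gam
    rw [← hX] at h''
    exact ⟨0, _, Or.inl rfl, h''⟩
  · obtain ⟨a, L, ha, hUL⟩ := dir_ul q χ (by omega) hχ
    refine ⟨a, L, ha, ?_⟩
    have e : LamQ χ = LamC χ := by
      funext s
      unfold LamQ LamC
      rw [if_neg h1]
    rw [e]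
    exact hUL

lemma dir_cond {q : ℕ} (hq : 1 ≤ q) {a : ℝ} (ha : a = 0 ∨ a = 1) {κ y : ℝ} {n : ℕ}
    (h : (q : ℝ) * (|y| + 2) ≤ Real.exp (κ * n)) :
    Real.log (W355.UN.cond (q : ℝ) (fun _ : Fin 1 => -(a : ℂ)) y) ≤ κ * n := by
  have hq1 : (1 : ℝ) ≤ q := by exact_mod_cast hq
  have hq0 : (0 : ℝ) < q := by linarith
  have ha1 : |a| ≤ 1 := by
    rcases ha with rfl | rfl <;> norm_num
  have h1 : ‖(y : ℂ) * I - -(a : ℂ)‖ ≤ |y| + 1 := by
    rw [sub_neg_eq_add]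
    refine (norm_add_le _ _).trans ?_
    rw [norm_mul, Complex.norm_I, mul_one, Complex.norm_real, Complex.norm_real, Real.norm_eq_abs,
      Real.norm_eq_abs]
    linarith
  have h2 : W355.UN.cond (q : ℝ) (fun _ : Fin 1 => -(a : ℂ)) y ≤ Real.exp (κ * n) := by
    unfold W355.UN.cond
    rw [Fin.prod_univ_one]
    refine le_trans ?_ h
    exact mul_le_mul_of_nonneg_left (by linarith) hq0.le
  have h3 : 0 < W355.UN.cond (q : ℝ) (fun _ : Fin 1 => -(a : ℂ)) y :=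
    lt_of_lt_of_le one_pos (one_le_cond hq1 _ _)
  have h4 := Real.log_le_log h3 h2
  rwa [Real.log_exp] at h4

/-- **Zeros of the derivatives of all completed Dirichlet L-functions.** -/
theorem dir_zeros {κ : ℝ} (hκ : κ < 4) : ∃ n₀ : ℕ, ∀ (q : ℕ) [NeZero q] (χ : DirichletCharacter ℂ q),
    χ.IsPrimitive → ∀ n : ℕ, n₀ ≤ n → ∀ s : ℂ, (q : ℝ) * (|s.im| + 2) ≤ Real.exp (κ * n) →
      iteratedDeriv n (LamQ χ) s = 0 → s.re = 1 / 2 ∧ iteratedDeriv (n + 1) (LamQ χ) s ≠ 0 := by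
  obtain ⟨κ1, hκ1⟩ : ∃ κ1 : ℝ, κ1 = max κ 1 := ⟨_, rfl⟩
  have h1 : 1 ≤ κ1 := by rw [hκ1]; exact le_max_right _ _
  have h2 : κ1 < 4 := by rw [hκ1]; exact max_lt hκ (by norm_num)
  have h3 : κ ≤ κ1 := by rw [hκ1]; exact le_max_left _ _
  obtain ⟨M, hM, H⟩ := main (B := Bst) Bst_nonneg le_rfl zero_le_one (κ := κ1) (by linarith)
    (by linarith)
  refine ⟨⌈M⌉₊, ?_⟩
  intro q _ χ hχ n hn s hs hz
  have hq : 1 ≤ q := Nat.one_le_iff_ne_zero.2 (NeZero.ne q)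
  obtain ⟨a, L, ha, hUL⟩ := all_ul q χ hχ
  have hnM : M * ((1 : ℕ) : ℝ) ≤ n := by
    rw [Nat.cast_one, mul_one]
    exact (Nat.le_ceil _).trans (by exact_mod_cast hn)
  have hc := dir_cond hq ha hs
  have hn0 : (0 : ℝ) ≤ n := Nat.cast_nonneg n
  exact H 1 _ _ _ _ hUL n hnM s (hc.trans (by gcongr)) hz

lemma alg_up {ℓ Y ε d : ℝ} (hε0 : 0 ≤ ε) (hε : ε ≤ 1 / 4) (hd : 0 ≤ d)
    (h : (1 - ε) * Y ≤ ℓ) (hdl : d * ℓ / Real.pi ≤ 1 + ε) : d * Y / Real.pi ≤ 1 + 4 * ε := by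
  have hpi := Real.pi_pos
  rw [div_le_iff₀ hpi] at hdl ⊢
  have h4 : d * ((1 - ε) * Y) ≤ d * ℓ := mul_le_mul_of_nonneg_left h hd
  have h6 : 1 + ε ≤ (1 + 4 * ε) * (1 - ε) := by nlinarith
  have h7 : (1 - ε) * (d * Y) ≤ (1 - ε) * ((1 + 4 * ε) * Real.pi) := by
    calc (1 - ε) * (d * Y) = d * ((1 - ε) * Y) := by ring
      _ ≤ d * ℓ := h4
      _ ≤ (1 + ε) * Real.pi := hdl
      _ ≤ (1 + 4 * ε) * (1 - ε) * Real.pi := mul_le_mul_of_nonneg_right h6 hpi.le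
      _ = _ := by ring
  exact le_of_mul_le_mul_left h7 (by linarith)

lemma alg_lo {ℓ Y ε d : ℝ} (hε0 : 0 ≤ ε) (hd : 0 ≤ d)
    (h : ℓ ≤ (1 + ε) * Y) (hdl : 1 - ε ≤ d * ℓ / Real.pi) : 1 - 4 * ε ≤ d * Y / Real.pi := by
  have hpi := Real.pi_pos
  rw [le_div_iff₀ hpi] at hdl ⊢
  have h12 : d * ℓ ≤ d * ((1 + ε) * Y) := mul_le_mul_of_nonneg_left h hd
  have h13 : (1 - 4 * ε) * (1 + ε) ≤ 1 - ε := by nlinarith
  have h14 : (1 + ε) * ((1 - 4 * ε) * Real.pi) ≤ (1 + ε) * (d * Y) := by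
    calc (1 + ε) * ((1 - 4 * ε) * Real.pi) = (1 - 4 * ε) * (1 + ε) * Real.pi := by ring
      _ ≤ (1 - ε) * Real.pi := mul_le_mul_of_nonneg_right h13 hpi.le
      _ ≤ d * ℓ := hdl
      _ ≤ d * ((1 + ε) * Y) := h12
      _ = _ := by ring
  exact le_of_mul_le_mul_left h14 (by linarith)

/-- **Equal spacing** of the zeros of the derivatives of all completed Dirichlet L-functions. -/
theorem dir_gap {κ ε : ℝ} (hκ : κ < 4) (hε : 0 < ε) : ∃ n₀ : ℕ, ∀ (q : ℕ) [NeZero q]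
    (χ : DirichletCharacter ℂ q), χ.IsPrimitive → ∀ n : ℕ, n₀ ≤ n → ∀ y : ℝ,
    (q : ℝ) * (|y| + 2) ≤ Real.exp (κ * n) →
      (∃ y' : ℝ, y ≤ y' ∧ (y' - y) * Real.log (q * (|y| + n)) / (2 * Real.pi) ≤ 1 + ε ∧
        iteratedDeriv n (LamQ χ) (1 / 2 + y' * I) = 0) ∧
      (iteratedDeriv n (LamQ χ) (1 / 2 + y * I) = 0 → ∃ y' : ℝ, y < y' ∧
        iteratedDeriv n (LamQ χ) (1 / 2 + y' * I) = 0 ∧
        (∀ v : ℝ, y < v → v < y' → iteratedDeriv n (LamQ χ) (1 / 2 + v * I) ≠ 0) ∧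
        |(y' - y) * Real.log (q * (|y| + n)) / (2 * Real.pi) - 1| ≤ ε) := by
  obtain ⟨κ1, hκ1⟩ : ∃ κ1 : ℝ, κ1 = max κ 1 := ⟨_, rfl⟩
  have h1 : 1 ≤ κ1 := by rw [hκ1]; exact le_max_right _ _
  have h2 : κ1 < 4 := by rw [hκ1]; exact max_lt hκ (by norm_num)
  have h3 : κ ≤ κ1 := by rw [hκ1]; exact le_max_left _ _
  obtain ⟨ε1, hε1⟩ : ∃ ε1 : ℝ, ε1 = min (ε / 4) (1 / 4) := ⟨_, rfl⟩
  have hε10 : 0 < ε1 := by rw [hε1]; exact lt_min (by linarith) (by norm_num)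
  have hε13 : ε1 ≤ ε / 4 := by rw [hε1]; exact min_le_left _ _
  have hε14 : ε1 ≤ 1 / 4 := by rw [hε1]; exact min_le_right _ _
  obtain ⟨M, hM, H⟩ := main_gap (B := Bst) Bst_nonneg le_rfl zero_le_one (κ := κ1) (by linarith)
    (by linarith) hε10
  have hμ : ∀ a : ℝ, a = 0 ∨ a = 1 → ∀ _ : Fin 1, (-(a : ℂ)).re ≤ 1 / 2 := by
    intro a ha _
    rw [neg_re, ofReal_re]
    rcases ha with rfl | rfl <;> norm_num
  obtain ⟨n1, hA1⟩ := ell_unif (m := 1) le_rfl (hμ 0 (Or.inl rfl)) (half_pos hε10)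
  obtain ⟨n2, hA2⟩ := ell_unif (m := 1) le_rfl (hμ 1 (Or.inr rfl)) (half_pos hε10)
  refine ⟨max (max n1 n2) ⌈M⌉₊, ?_⟩
  intro q _ χ hχ n hn y hy
  have hq : 1 ≤ q := Nat.one_le_iff_ne_zero.2 (NeZero.ne q)
  obtain ⟨a, L, ha, hUL⟩ := all_ul q χ hχ
  have hq1 : (1 : ℝ) ≤ q := by exact_mod_cast hq
  have hn1 : n1 ≤ n := (le_max_left _ _).trans ((le_max_left _ _).trans hn)
  have hn2 : n2 ≤ n := (le_max_right _ _).trans ((le_max_left _ _).trans hn)
  have hnM : M * ((1 : ℕ) : ℝ) ≤ n := by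
    rw [Nat.cast_one, mul_one]
    exact (Nat.le_ceil _).trans (by exact_mod_cast (le_max_right _ _).trans hn)
  have hn0 : (0 : ℝ) ≤ n := Nat.cast_nonneg n
  have hc := (dir_cond hq ha hy).trans (show κ * n ≤ κ1 * n by gcongr)
  obtain ⟨S, σ, hS, hσ, hσ1, hSn, hmℓ, hex, hgap⟩ := H 1 _ _ _ _ hUL n hnM y hc
  have hslope : 1 ≤ Real.log q + ((1 : ℕ) : ℝ) * Real.log (|y| + n) ∧
      |ell (q : ℝ) (fun _ : Fin 1 => -(a : ℂ)) y S -
        (Real.log q + ((1 : ℕ) : ℝ) * Real.log (|y| + n)) / 2| ≤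
      ε1 / 2 * (Real.log q + ((1 : ℕ) : ℝ) * Real.log (|y| + n)) := by
    rcases ha with rfl | rfl
    · exact hA1 n hn1 q y S σ hq1 hS hσ hσ1 hSn hmℓ
    · exact hA2 n hn2 q y S σ hq1 hS hσ hσ1 hSn hmℓ
  rw [Nat.cast_one, one_mul] at hslope
  have hyn : 0 < |y| + n := by
    have hM0 : (1 : ℝ) ≤ n := by
      rw [Nat.cast_one, mul_one] at hnM
      linarith
    have := abs_nonneg y
    linarith
  have hW : Real.log q + Real.log (|y| + n) = Real.log (q * (|y| + n)) := by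
    rw [Real.log_mul (by linarith) hyn.ne']
  rw [hW] at hslope
  obtain ⟨ℓ, hℓ⟩ : ∃ ℓ : ℝ, ℓ = ell (q : ℝ) (fun _ : Fin 1 => -(a : ℂ)) y S := ⟨_, rfl⟩
  rw [← hℓ] at hslope hex hgap
  obtain ⟨Y, hY⟩ : ∃ Y : ℝ, Y = Real.log (q * (|y| + n)) / 2 := ⟨_, rfl⟩
  obtain ⟨hs1, hs2⟩ := hslope
  have hs3 := abs_le.1 hs2
  have hlo : (1 - ε1) * Y ≤ ℓ := by rw [hY]; linarith [hs3.1]
  have hup : ℓ ≤ (1 + ε1) * Y := by rw [hY]; linarith [hs3.2]
  have e : ∀ d : ℝ, d * Real.log (q * (|y| + n)) / (2 * Real.pi) = d * Y / Real.pi := by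
    intro d
    rw [hY]
    have := Real.pi_pos.ne'
    field_simp
  refine ⟨?_, fun hz => ?_⟩
  · obtain ⟨y', h4, h5, h6⟩ := hex
    refine ⟨y', h4, ?_, h6⟩
    rw [e]
    exact (alg_up hε10.le hε14 (by linarith) hlo h5).trans (by linarith)
  · obtain ⟨y', h4, h5, h6, h7⟩ := hgap hz
    refine ⟨y', h4, h5, h6, ?_⟩
    have h8 := abs_le.1 h7
    have h9 := alg_up hε10.le hε14 (d := y' - y) (by linarith) hlo (by linarith [h8.2])
    have h10 := alg_lo hε10.le (d := y' - y) (by linarith) hup (by linarith [h8.1])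
    rw [e, abs_le]
    constructor <;> linarith

end Pool.Agent.U4.UH
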