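import Pool.Agent.U4.UH.Dir
import Pool.Agent.U4.UH.Asb

/-!
# Zeros of the derivatives of the L-functions of elliptic curves over number fields: location and spacing
-/

set_option autoImplicit false

open Complex Filter Topology Set
open scoped ComplexConjugate

namespace Pool.Agent.U4.UH

open Pool.Agent.W355.UN Pool.Agent.W169.HF H353.E

/-- the zeros of the `n`-th derivative at the heights `y` with `A (1 + |y|)^(2 d) ≤ exp (κ n)` are simple, on the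
line, and equally spaced -/
structure Eqsp (κ ε : ℝ) (d : ℕ) (A : ℝ) (Λ : ℂ → ℂ) (n : ℕ) : Prop where
  zeros : ∀ s : ℂ, Real.log (A * (1 + |s.im|) ^ (2 * d)) ≤ κ * n → iteratedDeriv n Λ s = 0 →
    s.re = 1 ∧ iteratedDeriv (n + 1) Λ s ≠ 0
  next : ∀ y : ℝ, Real.log (A * (1 + |y|) ^ (2 * d)) ≤ κ * n → ∃ y' : ℝ, y ≤ y' ∧
    (y' - y) * Real.log (A * (n / d + |y|) ^ (2 * d)) / (2 * Real.pi) ≤ 1 + ε ∧
      iteratedDeriv n Λ (1 + y' * I) = 0
  gap : ∀ y : ℝ, Real.log (A * (1 + |y|) ^ (2 * d)) ≤ κ * n → iteratedDeriv n Λ (1 + y * I) = 0 →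
    ∃ y' : ℝ, y < y' ∧ iteratedDeriv n Λ (1 + y' * I) = 0 ∧
      (∀ v : ℝ, y < v → v < y' → iteratedDeriv n Λ (1 + v * I) ≠ 0) ∧
      |(y' - y) * Real.log (A * (n / d + |y|) ^ (2 * d)) / (2 * Real.pi) - 1| ≤ ε

lemma itd_shift {X Λ : ℂ → ℂ} {c : ℂ} (hX : ∀ z, X z = c * Λ (z + 1 / 2)) (hΛ : Differentiable ℂ Λ) (n : ℕ) :
    ∀ z : ℂ, iteratedDeriv n X z = c * iteratedDeriv n Λ (z + 1 / 2) := by
  induction n with
  | zero => intro z; simp only [iteratedDeriv_zero]; exact hX z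
  | succ n ih =>
    intro z
    have hd : DifferentiableAt ℂ (iteratedDeriv n Λ) (z + 1 / 2) :=
      (hΛ.contDiff (n := ⊤)).differentiable_iteratedDeriv n (by exact_mod_cast WithTop.coe_lt_top _) _
    rw [iteratedDeriv_succ, iteratedDeriv_succ, show iteratedDeriv n X = fun w => c * iteratedDeriv n Λ (w + 1 / 2)
      from funext ih]
    have h1 : HasDerivAt (fun w : ℂ => c * iteratedDeriv n Λ (w + 1 / 2))
        (c * (deriv (iteratedDeriv n Λ) (z + 1 / 2))) z := by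
      have h2 := hd.hasDerivAt.comp_add_const z (1 / 2)
      exact h2.const_mul c
    exact h1.deriv

lemma log_one_add_norm {m : ℕ} (μ : Fin m → ℂ) (j : Fin m) : 0 ≤ Real.log (1 + ‖μ j‖) :=
  Real.log_nonneg (by linarith [norm_nonneg (μ j)])

lemma term_close {R y : ℝ} (hR : 1 ≤ R) (w : ℂ) :
    |Real.log (R + ‖(y : ℂ) * I - w‖) - Real.log (R + |y|)| ≤ Real.log (1 + ‖w‖) := by
  have hy := abs_nonneg y
  have hw := norm_nonneg w
  have e1 : ‖(y : ℂ) * I‖ = |y| := by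
    rw [norm_mul, Complex.norm_I, mul_one, Complex.norm_real, Real.norm_eq_abs]
  have h1 : ‖(y : ℂ) * I - w‖ ≤ |y| + ‖w‖ := by
    rw [← e1]; exact norm_sub_le _ _
  have h2 : |y| ≤ ‖(y : ℂ) * I - w‖ + ‖w‖ := by
    rw [← e1]
    have := norm_sub_norm_le ((y : ℂ) * I) w
    linarith
  have h3 := norm_nonneg ((y : ℂ) * I - w)
  rw [abs_le]
  constructor
  · have h4 : Real.log (R + |y|) ≤ Real.log ((1 + ‖w‖) * (R + ‖(y : ℂ) * I - w‖)) :=
      Real.log_le_log (by linarith) (by nlinarith)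
    rw [Real.log_mul (by linarith) (by linarith)] at h4
    linarith
  · have h4 : Real.log (R + ‖(y : ℂ) * I - w‖) ≤ Real.log ((1 + ‖w‖) * (R + |y|)) :=
      Real.log_le_log (by linarith) (by nlinarith)
    rw [Real.log_mul (by linarith) (by linarith)] at h4
    linarith

lemma scond_close {m : ℕ} {A : ℝ} (hA : 1 ≤ A) {μ : Fin m → ℂ} (hμ : ∑ j, Real.log (1 + ‖μ j‖) ≤ m) {R y : ℝ}
    (hR : 1 ≤ R) : |Real.log (scond A μ R y) - Real.log (A * (R + |y|) ^ m)| ≤ m := by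
  have hy := abs_nonneg y
  have hp : 0 < R + |y| := by linarith
  rw [log_scond hA (by linarith), Real.log_mul (by linarith) (pow_pos hp m).ne', Real.log_pow]
  have e : ∑ j, Real.log (R + ‖(y : ℂ) * I - μ j‖) - m * Real.log (R + |y|) =
      ∑ j : Fin m, (Real.log (R + ‖(y : ℂ) * I - μ j‖) - Real.log (R + |y|)) := by
    rw [Finset.sum_sub_distrib, Finset.sum_const, Finset.card_univ, Fintype.card_fin, nsmul_eq_mul]
  have h1 : |∑ j, Real.log (R + ‖(y : ℂ) * I - μ j‖) - m * Real.log (R + |y|)| ≤ m := by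
    rw [e]
    refine (Finset.abs_sum_le_sum_abs _ _).trans (le_trans (Finset.sum_le_sum fun j _ => term_close hR _) hμ)
  have e2 : Real.log A + ∑ j, Real.log (R + ‖(y : ℂ) * I - μ j‖) - (Real.log A + m * Real.log (R + |y|)) =
      ∑ j, Real.log (R + ‖(y : ℂ) * I - μ j‖) - m * Real.log (R + |y|) := by ring
  rw [e2]
  exact h1

lemma cond_close {m : ℕ} {A : ℝ} (hA : 1 ≤ A) {μ : Fin m → ℂ} (hμ : ∑ j, Real.log (1 + ‖μ j‖) ≤ m) (y : ℝ) :
    Real.log (W355.UN.cond A μ y) ≤ Real.log (A * (1 + |y|) ^ m) + m := by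
  have h1 := (abs_le.1 (scond_close hA hμ (R := 1) (y := y) le_rfl)).2
  have e : W355.UN.cond A μ y = scond A μ 1 y := rfl
  rw [e]
  linarith

/-- **Theorem for one L-function of the class**, uniform -/
theorem class_eqsp {B : ℝ → ℝ} (hB : ∀ ρ, 0 ≤ B ρ) {θ κ ε : ℝ} (hθ0 : 0 ≤ θ) (hθ1 : θ ≤ 1)
    (hκ : κ * (1 / 2 + θ) < 2) (hε : 0 < ε) : ∃ M : ℝ, 1 ≤ M ∧ ∀ (d : ℕ) (A : ℝ) (μ : Fin (2 * d) → ℂ)
      (X L Λ : ℂ → ℂ) (c : ℂ), UL (2 * d) B A θ μ X L → c ≠ 0 → (∀ z, X z = c * Λ (z + 1 / 2)) →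
      Differentiable ℂ Λ → ∑ j, Real.log (1 + ‖μ j‖) ≤ ((2 * d : ℕ) : ℝ) → ∀ n : ℕ, M * d ≤ n →
      Eqsp κ ε d A Λ n := by
  obtain ⟨κ0, hκ0, hκ01, hκ02⟩ : ∃ κ0 : ℝ, max κ 0 < κ0 ∧ κ0 * (1 / 2 + θ) < 2 ∧ 0 < κ0 := by
    have h1 : max κ 0 * (1 / 2 + θ) < 2 := by
      rcases max_cases κ 0 with ⟨h, -⟩ | ⟨h, -⟩
      · rw [h]; exact hκ
      · rw [h]; norm_num
    have h2 : (0 : ℝ) < 1 / 2 + θ := by linarith
    have h3 : max κ 0 < 2 / (1 / 2 + θ) := by rwa [lt_div_iff₀ h2]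
    obtain ⟨κ0, h4, h5⟩ := exists_between h3
    exact ⟨κ0, h4, by rwa [lt_div_iff₀ h2] at h5, lt_of_le_of_lt (le_max_right _ _) h4⟩
  have hκlt : κ < κ0 := lt_of_le_of_lt (le_max_left _ _) hκ0
  obtain ⟨ε1, hε1⟩ : ∃ ε1 : ℝ, ε1 = min (ε / 8) (1 / 8) := ⟨_, rfl⟩
  have hε10 : 0 < ε1 := by rw [hε1]; exact lt_min (by linarith) (by norm_num)
  have hε13 : ε1 ≤ ε / 8 := by rw [hε1]; exact min_le_left _ _
  have hε14 : ε1 ≤ 1 / 8 := by rw [hε1]; exact min_le_right _ _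
  obtain ⟨M1, hM1, H1⟩ := main hB hθ0 hθ1 hκ02 hκ01
  obtain ⟨M2, hM2, H2⟩ := main_gap hB hθ0 hθ1 hκ02 hκ01 hε10
  obtain ⟨M3, hM3, H3⟩ := ell_abs (ε := ε1 / 4) (by linarith)
  obtain ⟨M4, hM4⟩ : ∃ M4 : ℝ, M4 = Real.exp (8 / ε1) + 2 / (κ0 - κ) := ⟨_, rfl⟩
  have hd0 : 0 < κ0 - κ := by linarith
  have hM41 : 2 / (κ0 - κ) ≤ M4 := by rw [hM4]; linarith [Real.exp_pos (8 / ε1)]
  have hM42 : Real.exp (8 / ε1) ≤ M4 := by
    have : 0 < 2 / (κ0 - κ) := by positivity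
    rw [hM4]; linarith
  have hM43 : 0 < M4 := (Real.exp_pos _).trans_le hM42
  refine ⟨2 * (M1 + M2 + M3) + M4, by linarith, ?_⟩
  intro d A μ X L Λ c hul hc hX hΛ hμ n hn
  have hd2 : 1 ≤ 2 * d := hul.hm
  have hd1 : 1 ≤ d := by omega
  have hdR : (1 : ℝ) ≤ d := by exact_mod_cast hd1
  have hA := hul.hN
  have hn1 : M1 * ((2 * d : ℕ) : ℝ) ≤ n := by push_cast; nlinarith
  have hn2 : M2 * ((2 * d : ℕ) : ℝ) ≤ n := by push_cast; nlinarith
  have hn3 : M3 * ((2 * d : ℕ) : ℝ) ≤ n := by push_cast; nlinarith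
  have hn4 : M4 * d ≤ n := by nlinarith
  have hcond : ∀ y : ℝ, Real.log (A * (1 + |y|) ^ (2 * d)) ≤ κ * n →
      Real.log (W355.UN.cond A μ y) ≤ κ0 * n := by
    intro y hy
    have h1 := cond_close hA hμ y
    have h2 : ((2 * d : ℕ) : ℝ) ≤ (κ0 - κ) * n := by
      have h3 : 2 / (κ0 - κ) * d ≤ n := le_trans (by gcongr) hn4
      rw [div_mul_eq_mul_div, div_le_iff₀ hd0] at h3
      push_cast
      linarith
    linarith
  have hit := itd_shift hX hΛ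
  have hz : ∀ (k : ℕ) (w : ℂ), iteratedDeriv k Λ w = 0 ↔ iteratedDeriv k X (w - 1 / 2) = 0 := by
    intro k w
    rw [hit k, sub_add_cancel]
    constructor
    · intro h; rw [h, mul_zero]
    · intro h; exact (mul_eq_zero.1 h).resolve_left hc
  have hline : ∀ y : ℝ, (1 + (y : ℂ) * I) - 1 / 2 = 1 / 2 + (y : ℂ) * I := fun y => by ring
  have him : ∀ s : ℂ, (s - 1 / 2).im = s.im := fun s => by simp
  have hre : ∀ s : ℂ, (s - 1 / 2).re = s.re - 1 / 2 := fun s => by simp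
  -- the slope
  have hslope : ∀ y S σ : ℝ, 1 ≤ S → 1 / 2 ≤ σ → σ ≤ 1 → σ * (S * ell A μ y S) = n →
      ((2 * d : ℕ) : ℝ) ≤ ell A μ y S →
      (1 - ε1) * (Real.log (A * (n / d + |y|) ^ (2 * d)) / 2) ≤ ell A μ y S ∧
      ell A μ y S ≤ (1 + ε1) * (Real.log (A * (n / d + |y|) ^ (2 * d)) / 2) := by
    intro y S σ hS hσ hσ1 hSn hmℓ
    obtain ⟨h1, h2⟩ := H3 (2 * d) A μ hd2 hA hul.re_le n hn3 y S σ hS hσ hσ1 hSn hmℓ
    have hd0' : (0 : ℝ) < d := by linarith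
    obtain ⟨R, hR⟩ : ∃ R : ℝ, R = n / ((2 * d : ℕ) : ℝ) := ⟨_, rfl⟩
    have hRd : (n : ℝ) / d = 2 * R := by
      rw [hR]; push_cast; field_simp
    have hR1 : 1 ≤ R := by
      rw [hR, le_div_iff₀ (by push_cast; linarith)]
      linarith [hn3, mul_le_mul_of_nonneg_right hM3 (show (0 : ℝ) ≤ ((2 * d : ℕ) : ℝ) by positivity)]
    have hyy := abs_nonneg y
    have h3 := abs_le.1 (scond_close hA hμ (R := R) (y := y) hR1)
    rw [← hR] at h1 h2
    -- compare R and 2R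
    obtain ⟨Y, hY⟩ : ∃ Y : ℝ, Y = Real.log (A * (n / d + |y|) ^ (2 * d)) := ⟨_, rfl⟩
    rw [← hY]
    have hA0 : 0 < A := by linarith
    have e1 : Y = Real.log A + ((2 * d : ℕ) : ℝ) * Real.log (2 * R + |y|) := by
      rw [hY, hRd, Real.log_mul hA0.ne' (pow_pos (by linarith) _).ne', Real.log_pow]
    have e2 : Real.log (A * (R + |y|) ^ (2 * d)) = Real.log A + ((2 * d : ℕ) : ℝ) * Real.log (R + |y|) := by
      rw [Real.log_mul hA0.ne' (pow_pos (by linarith) _).ne', Real.log_pow]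
    have h4 : Real.log (R + |y|) ≤ Real.log (2 * R + |y|) := Real.log_le_log (by linarith) (by linarith)
    have h5 : Real.log (2 * R + |y|) ≤ Real.log (R + |y|) + 1 := by
      have h6 : Real.log (2 * R + |y|) ≤ Real.log (2 * (R + |y|)) :=
        Real.log_le_log (by linarith) (by linarith)
      rw [Real.log_mul (by norm_num) (by linarith)] at h6
      have := Real.log_two_lt_d9
      linarith
    have hm0 : (0 : ℝ) ≤ ((2 * d : ℕ) : ℝ) := by positivity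
    have h6 : ((2 * d : ℕ) : ℝ) * Real.log (R + |y|) ≤ ((2 * d : ℕ) : ℝ) * Real.log (2 * R + |y|) :=
      mul_le_mul_of_nonneg_left h4 hm0
    have h7 : ((2 * d : ℕ) : ℝ) * Real.log (2 * R + |y|) ≤
        ((2 * d : ℕ) : ℝ) * Real.log (R + |y|) + ((2 * d : ℕ) : ℝ) := by
      have := mul_le_mul_of_nonneg_left h5 hm0
      linarith
    rw [e2] at h3
    -- Y is large compared with 2 d
    have h8 : 8 / ε1 ≤ Real.log (2 * R + |y|) := by
      rw [Real.le_log_iff_exp_le (by linarith)]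
      have h9 : M4 ≤ n / d := by rw [le_div_iff₀ hd0']; exact hn4
      rw [hRd] at h9
      linarith
    have h9 : 0 ≤ Real.log A := Real.log_nonneg hA
    have h10 : 8 * ((2 * d : ℕ) : ℝ) ≤ ε1 * Y := by
      have h11 : ((2 * d : ℕ) : ℝ) * (8 / ε1) ≤ Y := by
        rw [e1]
        have := mul_le_mul_of_nonneg_left h8 hm0
        linarith
      have h12 := mul_le_mul_of_nonneg_left h11 hε10.le
      have e3 : ε1 * (((2 * d : ℕ) : ℝ) * (8 / ε1)) = 8 * ((2 * d : ℕ) : ℝ) := by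
        field_simp
      linarith
    obtain ⟨Z, hZ⟩ : ∃ Z : ℝ, Z = Real.log (scond A μ R y) := ⟨_, rfl⟩
    rw [← hZ] at h1 h2 h3
    have h13 := abs_le.1 h2
    have h14 : Z ≤ Y + ((2 * d : ℕ) : ℝ) := by linarith [h3.2]
    have h15 : Y - 2 * ((2 * d : ℕ) : ℝ) ≤ Z := by linarith [h3.1]
    have hY0 : 0 ≤ Y := by
      by_contra hneg
      push Not at hneg
      nlinarith
    have h16 : ε1 * Y ≤ Y / 8 := by nlinarith
    constructor
    · nlinarith [h13.1]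
    · nlinarith [h13.2]
  refine ⟨?_, ?_, ?_⟩
  · intro s hs h0
    obtain ⟨h1, h2⟩ := H1 _ _ _ _ _ hul n hn1 (s - 1 / 2) (by rw [him]; exact hcond _ hs) ((hz n s).1 h0)
    refine ⟨?_, fun h3 => h2 ((hz (n + 1) s).1 h3)⟩
    rw [hre] at h1
    linarith
  · intro y hy
    obtain ⟨S, σ, hS, hσ, hσ1, hSn, hmℓ, ⟨y', h4, h5, h6⟩, -⟩ := H2 _ _ _ _ _ hul n hn2 y (hcond y hy)
    obtain ⟨hlo, hup⟩ := hslope y S σ hS hσ hσ1 hSn hmℓ
    refine ⟨y', h4, ?_, ?_⟩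
    · have h7 := alg_up hε10.le (by linarith) (d := y' - y) (by linarith) hlo h5
      have e : (y' - y) * Real.log (A * (n / d + |y|) ^ (2 * d)) / (2 * Real.pi) =
          (y' - y) * (Real.log (A * (n / d + |y|) ^ (2 * d)) / 2) / Real.pi := by
        have := Real.pi_pos.ne'
        field_simp
      rw [e]
      linarith
    · rw [hz, hline]; exact h6
  · intro y hy h0
    obtain ⟨S, σ, hS, hσ, hσ1, hSn, hmℓ, -, hg⟩ := H2 _ _ _ _ _ hul n hn2 y (hcond y hy)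
    obtain ⟨hlo, hup⟩ := hslope y S σ hS hσ hσ1 hSn hmℓ
    rw [hz, hline] at h0
    obtain ⟨y', h4, h5, h6, h7⟩ := hg h0
    refine ⟨y', h4, ?_, fun v hv1 hv2 hv3 => ?_, ?_⟩
    · rw [hz, hline]; exact h5
    · rw [hz, hline] at hv3
      exact h6 v hv1 hv2 hv3
    · have h8 := abs_le.1 h7
      have h9 := alg_up hε10.le (by linarith) (d := y' - y) (by linarith) hlo (by linarith [h8.2])
      have h10 := alg_lo hε10.le (d := y' - y) (by linarith) hup (by linarith [h8.1])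
      have e : (y' - y) * Real.log (A * (n / d + |y|) ^ (2 * d)) / (2 * Real.pi) =
          (y' - y) * (Real.log (A * (n / d + |y|) ^ (2 * d)) / 2) / Real.pi := by
        have := Real.pi_pos.ne'
        field_simp
      rw [e, abs_le]
      constructor <;> linarith

end Pool.Agent.U4.UH
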