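import Pool.Agent.U4.UH.Ell
import Pool.Agent.TH839.UH.Fin2

/-!
# Elliptic curves over number fields: both cases
-/

set_option autoImplicit false

open Filter Topology NumberField IsDedekindDomain Set UpperHalfPlane MatrixGroups
  CongruenceSubgroup
open scoped ComplexConjugate

namespace Pool.Agent.U4.UH

open Pool.Agent.H921R2.TatePole H353.E Pool.Agent.W355.UN Pool.Agent.TH839.UH
open Pool.Agent.W169.HF (IsForm coef)

lemma mu_sum (n : ℕ) : ∑ j, Real.log (1 + ‖mu n j‖) ≤ ((2 * n : ℕ) : ℝ) := by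
  have h : ∀ j : Fin (n + n), Real.log (1 + ‖mu n j‖) ≤ 1 := by
    intro j
    have h1 : ‖mu n j‖ ≤ 3 / 2 := by
      rcases mu_cases j with h | h
      · rw [h]; norm_num
      · rw [h]; norm_num
    have h2 : Real.log (1 + ‖mu n j‖) ≤ Real.log (Real.exp 1) :=
      Real.log_le_log (by linarith [norm_nonneg (mu n j)]) (by linarith [Real.exp_one_gt_d9])
    rwa [Real.log_exp] at h2
  refine (Finset.sum_le_sum fun j _ => h j).trans ?_
  rw [Finset.sum_const, Finset.card_univ, Fintype.card_fin, nsmul_eq_mul]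
  push_cast
  linarith

/-- all curves over all number fields, under the conjecture of Hasse and Weil -/
theorem eqsp_num {κ ε : ℝ} (hκ : κ < 4 / 3) (hε : 0 < ε) : ∃ M : ℝ, 1 ≤ M ∧
    ∀ (K : Type) [Field K] [NumberField K] (a δ : HeightOneSpectrum (𝓞 K) → ℂ) (A : ℝ)
      (Λ : ℂ → ℂ), KL a δ A Λ → ∀ n : ℕ, M * dg K ≤ n → Eqsp κ ε (dg K) A Λ n := by
  obtain ⟨M, hM, H⟩ := class_eqsp (B := fun _ => 4 * NF.B0) (fun _ => by linarith [NF.B0_nonneg]) (θ := 1)
    zero_le_one le_rfl (κ := κ) (by linarith) hε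
  refine ⟨M, hM, ?_⟩
  intro K _ _ a δ A Λ h n hn
  have hul := h.ul
  have hc : ((2 ^ dg K * A ^ (-(1 / 4 : ℝ)) : ℝ) : ℂ) ≠ 0 := by
    exact_mod_cast (cst_pos h).ne'
  have e : dg K + dg K = 2 * dg K := by ring
  have hs := mu_sum (dg K)
  have hX : ∀ z, NX K A Λ z = ((2 ^ dg K * A ^ (-(1 / 4 : ℝ)) : ℝ) : ℂ) * Λ (z + 1 / 2) := fun z => rfl
  generalize NX K A Λ = X at hul hX
  generalize mu (dg K) = μ at hul hs
  revert hs hul μ
  rw [e]
  intro μ hul hs
  exact H (dg K) A μ X _ Λ _ hul hc hX h.entire hs n hn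

section
variable {M : ℕ} (G : Subgroup (DirichletCharacter ℂ M)) [Fintype G]

lemma cn_zero_le (N : ℕ) : ∏ χ : G, cnE N (χ : DirichletCharacter ℂ M).conductor 0 ≤
    condA G N * Real.exp (2 * Fintype.card G) := by
  have e2 : condA G N * Real.exp (2 * Fintype.card G) =
      ∏ χ : G, ((N : ℝ) * ((χ : DirichletCharacter ℂ M).conductor : ℝ) ^ 2 * Real.exp 2) := by
    rw [Finset.prod_mul_distrib (g := fun _ => Real.exp 2), Finset.prod_const, Finset.card_univ,
      ← Real.exp_nat_mul, mul_comm (Fintype.card G : ℝ) 2]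
    rfl
  rw [e2]
  refine Finset.prod_le_prod (fun χ _ => ?_) fun χ _ => ?_
  · have h1 := cnE_ge N (χ : DirichletCharacter ℂ M).conductor 0
    have h2 : (0 : ℝ) ≤ (N : ℝ) * ((χ : DirichletCharacter ℂ M).conductor : ℝ) ^ 2 * (1 + |(0 : ℝ)|) ^ 2 := by
      positivity
    exact h2.trans h1
  · have h1 := cnE_le N (χ : DirichletCharacter ℂ M).conductor 0
    simpa using h1

end

/-- curves over `ℚ` over abelian number fields, unconditionally -/
theorem eqsp_ab {κ ε : ℝ} (hκ : κ < 4) (hε : 0 < ε) : ∃ M0 : ℝ, 1 ≤ M0 ∧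
    ∀ (N : ℕ) [NeZero N] (f : CuspForm (Gamma0 N : Subgroup (GL (Fin 2) ℝ)) 2) (w : ℝ)
      (M : ℕ) [NeZero M] (G : Subgroup (DirichletCharacter ℂ M)) [Fintype G],
      IsForm N f w → Nat.Coprime M N →
      ∃ Λ : ℂ → ℂ, Differentiable ℂ Λ ∧ (∃ σ : ℝ, ∀ s : ℂ, σ ≤ s.re → Λ s = prodE G f s) ∧
      (∃ W : ℂ, ‖W‖ = 1 ∧ ∀ s : ℂ, Λ (2 - s) = W * conj (Λ (conj s))) ∧
      ∀ n : ℕ, M0 * Fintype.card G ≤ n → Eqsp κ ε (Fintype.card G) (condA G N) Λ n := by
  obtain ⟨M0, hM0, H⟩ := class_eqsp (B := Bst) Bst_nonneg (θ := 0) le_rfl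
    zero_le_one (κ := κ) (by linarith) hε
  refine ⟨M0, hM0, ?_⟩
  intro N _ f w M _ G _ hf hco
  obtain ⟨X, hpk⟩ := pk_ab G hf hco
  have hdiff := hpk.diff
  obtain ⟨w', hw', hfe⟩ := hpk.fe
  have hA1 := hpk.one_le_N
  obtain ⟨μ, L, u, ec, σ, hσ⟩ := hpk
  have hNpos : 0 < N := Nat.pos_of_ne_zero (NeZero.ne N)
  have hκ' := kap_ne G hNpos
  have hre : ∀ s : ℂ, (s - 1 / 2).re = s.re - 1 / 2 := fun s => by simp
  have hd : Differentiable ℂ fun s : ℂ => (kap G N)⁻¹ * X (s - 1 / 2) :=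
    (hdiff.comp (by fun_prop : Differentiable ℂ fun s : ℂ => s - 1 / 2)).const_mul _
  refine ⟨fun s => (kap G N)⁻¹ * X (s - 1 / 2), hd, ⟨σ + 1 / 2, fun s hs => ?_⟩,
    ⟨(kap G N)⁻¹ * w' * conj (kap G N), ?_, fun s => ?_⟩, fun n hn => ?_⟩
  · show (kap G N)⁻¹ * X (s - 1 / 2) = prodE G f s
    rw [hσ (s - 1 / 2) (by rw [hre]; linarith)]
    show (kap G N)⁻¹ * (kap G N * prodE G f (s - 1 / 2 + 1 / 2)) = prodE G f s
    rw [sub_add_cancel, inv_mul_cancel_left₀ hκ']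
  · rw [norm_mul, norm_mul, norm_inv, RCLike.norm_conj, hw', mul_one,
      inv_mul_cancel₀ (norm_ne_zero_iff.2 hκ')]
  · show (kap G N)⁻¹ * X (2 - s - 1 / 2) =
      (kap G N)⁻¹ * w' * conj (kap G N) * conj ((kap G N)⁻¹ * X (conj s - 1 / 2))
    have h1 : (2 - s - 1 / 2 : ℂ) = 1 - (s - 1 / 2) := by ring
    have h2 : conj (s - 1 / 2) = conj s - 1 / 2 := by
      rw [map_sub, map_div₀, map_one, map_ofNat]
    have h3 : conj (kap G N) ≠ 0 := (map_ne_zero _).2 hκ'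
    rw [h1, hfe, h2, map_mul, map_inv₀]
    field_simp
  · refine H (Fintype.card G) (condA G N) μ X L _ (kap G N) u hκ' (fun z => ?_) hd ?_ n hn
    · show X z = kap G N * ((kap G N)⁻¹ * X (z + 1 / 2 - 1 / 2))
      rw [add_sub_cancel_right, mul_inv_cancel_left₀ hκ']
    · have hA0 : 0 < condA G N := by linarith
      have h1 : Real.log (W355.UN.cond (condA G N) μ 0) =
          Real.log (condA G N) + ∑ j, Real.log (1 + ‖μ j‖) := by
        have e : W355.UN.cond (condA G N) μ 0 = scond (condA G N) μ 1 0 := rfl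
        rw [e, log_scond hA1 one_pos]
        congr 1
        refine Finset.sum_congr rfl fun j _ => ?_
        rw [Complex.ofReal_zero, zero_mul, zero_sub, norm_neg]
      have h2 : W355.UN.cond (condA G N) μ 0 ≤ condA G N * Real.exp (2 * Fintype.card G) := by
        rw [ec 0]
        exact cn_zero_le G N
      have h3 := Real.log_le_log (lt_of_lt_of_le one_pos (one_le_cond hA1 _ _)) h2
      rw [Real.log_mul hA0.ne' (Real.exp_pos _).ne', Real.log_exp] at h3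
      push_cast
      linarith

end Pool.Agent.U4.UH
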