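import Pool.Agent.W355.UN.Glob

/-!
# The slope: upper bound and monotonicity
-/

set_option autoImplicit false

open Complex MeasureTheory Filter Topology Set
open scoped ComplexConjugate

namespace Pool.Agent.U4.UH

open Pool.Agent.W355.UN Pool.Agent.W169.HF H353.E

variable {m : ℕ} {N : ℝ} {μ : Fin m → ℂ}

lemma half_re (w : ℂ) : (w / 2).re = w.re / 2 := by
  rw [show (2 : ℂ) = ((2 : ℝ) : ℂ) by norm_num, Complex.div_ofReal_re]

/-- the point in the argument of the digamma function -/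
lemma pt_re (μ0 : ℂ) (y S : ℝ) : ((1 / 2 + 2 * S + y * I - μ0) / 2 : ℂ).re = (1 / 2 + 2 * S - μ0.re) / 2 := by
  rw [half_re]
  simp

lemma dig_lo {z : ℂ} (hz : 1 / 4 ≤ z.re) : Real.log ‖z + 2‖ - 7 ≤ (logDeriv Gamma z).re := by
  have h3 := (Complex.abs_re_le_norm _).trans (dig_aux hz)
  rw [sub_re, Complex.log_re] at h3
  linarith [(abs_le.mp h3).1]

lemma dig_up {z : ℂ} (hz : 1 / 4 ≤ z.re) : (logDeriv Gamma z).re ≤ Real.log ‖z + 2‖ + 7 := by
  have h3 := (Complex.abs_re_le_norm _).trans (dig_aux hz)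
  rw [sub_re, Complex.log_re] at h3
  linarith [(abs_le.mp h3).2]

lemma term_re (z : ℂ) : ((((-(Real.log Real.pi) / 2 : ℝ)) : ℂ) + logDeriv Gamma z / 2).re =
    -(Real.log Real.pi) / 2 + (logDeriv Gamma z).re / 2 := by
  rw [add_re, ofReal_re, half_re]

/-- the slope at scale one is at most half the logarithm of the analytic conductor, up to `O(m)` -/
lemma ell_le (hN : 1 ≤ N) (hμ : ∀ j, (μ j).re ≤ 1 / 2) (y : ℝ) :
    ell N μ y 1 ≤ Real.log (W355.UN.cond N μ y) / 2 + 7 * m := by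
  have hN0 : 0 < N := by linarith
  have hp : ∀ j, 0 < 1 + ‖(y : ℂ) * I - μ j‖ := fun j => by positivity
  have hpp : 0 < ∏ j, (1 + ‖(y : ℂ) * I - μ j‖) := Finset.prod_pos fun j _ => hp j
  unfold W355.UN.cond
  rw [Real.log_mul hN0.ne' hpp.ne', Real.log_prod (fun j _ => (hp j).ne')]
  unfold ell gaD
  rw [add_re, ofReal_re, re_sum]
  have hlp := logpi
  have h2 : ∀ j, ((((-(Real.log Real.pi) / 2 : ℝ)) : ℂ) +
      logDeriv Gamma ((1 / 2 + 2 * (1 : ℝ) + y * I - μ j) / 2) / 2).re ≤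
      1 / 2 * Real.log (1 + ‖(y : ℂ) * I - μ j‖) + 7 := fun j => by
    obtain ⟨z, hzd⟩ : ∃ z : ℂ, z = (1 / 2 + 2 * (1 : ℝ) + y * I - μ j) / 2 := ⟨_, rfl⟩
    have hre : 1 ≤ z.re := by
      rw [hzd, pt_re]
      linarith [hμ j]
    rw [← hzd, term_re]
    have h3 := dig_up (z := z) (by linarith)
    have h4 : ‖z + 2‖ ≤ 4 * (1 + ‖(y : ℂ) * I - μ j‖) := by
      have e : z + 2 = ((y : ℂ) * I - μ j) / 2 + 13 / 4 := by
        rw [hzd]
        push_cast
        ring
      rw [e]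
      refine (norm_add_le _ _).trans ?_
      rw [norm_div, Complex.norm_ofNat]
      have : ‖(13 / 4 : ℂ)‖ = 13 / 4 := by
        rw [norm_div, Complex.norm_ofNat, Complex.norm_ofNat]
      rw [this]
      linarith [norm_nonneg ((y : ℂ) * I - μ j)]
    have h5 : 0 < ‖z + 2‖ := by
      rw [norm_pos_iff]
      intro h0
      have := congrArg Complex.re h0
      simp at this
      linarith
    have h6 : Real.log ‖z + 2‖ ≤ Real.log 4 + Real.log (1 + ‖(y : ℂ) * I - μ j‖) := by
      rw [← Real.log_mul (by norm_num) (hp j).ne']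
      exact Real.log_le_log h5 h4
    have h7 : Real.log 4 ≤ 3 := by
      have := Real.log_le_sub_one_of_pos (show (0:ℝ) < 4 by norm_num)
      linarith
    linarith
  have h3 := Finset.sum_le_sum (s := (Finset.univ : Finset (Fin m))) fun j _ => h2 j
  rw [Finset.sum_add_distrib, ← Finset.mul_sum, Finset.sum_const, Finset.card_univ, Fintype.card_fin,
    nsmul_eq_mul] at h3
  linarith

/-- the slope is increasing in the scale, up to `O(m)` -/
lemma ell_mono (hμ : ∀ j, (μ j).re ≤ 1 / 2) (y : ℝ) {S S' : ℝ} (hS : 1 ≤ S) (hSS : S ≤ S') :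
    ell N μ y S ≤ ell N μ y S' + 7 * m := by
  unfold ell gaD
  rw [add_re, ofReal_re, re_sum, add_re, ofReal_re, re_sum]
  have h2 : ∀ j, ((((-(Real.log Real.pi) / 2 : ℝ)) : ℂ) +
      logDeriv Gamma ((1 / 2 + 2 * S + y * I - μ j) / 2) / 2).re ≤
      ((((-(Real.log Real.pi) / 2 : ℝ)) : ℂ) +
      logDeriv Gamma ((1 / 2 + 2 * S' + y * I - μ j) / 2) / 2).re + 7 := fun j => by
    obtain ⟨z, hzd⟩ : ∃ z : ℂ, z = (1 / 2 + 2 * S + y * I - μ j) / 2 := ⟨_, rfl⟩
    obtain ⟨z', hzd'⟩ : ∃ z' : ℂ, z' = (1 / 2 + 2 * S' + y * I - μ j) / 2 := ⟨_, rfl⟩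
    have hre : 1 ≤ z.re := by
      rw [hzd, pt_re]
      linarith [hμ j]
    have hre' : z.re ≤ z'.re := by
      rw [hzd, hzd', pt_re, pt_re]
      linarith
    have him : z'.im = z.im := by
      rw [hzd, hzd', show (2 : ℂ) = ((2 : ℝ) : ℂ) by norm_num, Complex.div_ofReal_im,
        Complex.div_ofReal_im]
      simp
    rw [← hzd, ← hzd', term_re, term_re]
    have h3 := dig_up (z := z) (by linarith)
    have h3' := dig_lo (z := z') (by linarith)
    have h5 : 0 < ‖z + 2‖ := by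
      rw [norm_pos_iff]
      intro h0
      have := congrArg Complex.re h0
      simp at this
      linarith
    have h4 : ‖z + 2‖ ≤ ‖z' + 2‖ := by
      rw [Complex.norm_def, Complex.norm_def]
      apply Real.sqrt_le_sqrt
      rw [Complex.normSq_apply, Complex.normSq_apply]
      simp only [add_re, add_im, re_ofNat, im_ofNat, him]
      nlinarith
    have h6 := Real.log_le_log h5 h4
    linarith
  have h3 := Finset.sum_le_sum (s := (Finset.univ : Finset (Fin m))) fun j _ => h2 j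
  rw [Finset.sum_add_distrib, Finset.sum_const, Finset.card_univ, Fintype.card_fin,
    nsmul_eq_mul] at h3
  linarith

end Pool.Agent.U4.UH
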