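import Pool.Agent.U4.UH.Gap1

/-!
# Equal spacing of the zeros of the high derivatives of L-functions
-/

set_option autoImplicit false

open Complex MeasureTheory Filter Topology Set
open scoped ComplexConjugate

namespace Pool.Agent.U4.UH

open Pool.Agent.H986R2.K4 (QQ)
open Pool.Agent.H986R2.K4.WinAux (scale)
open Pool.Agent.W355.UN Pool.Agent.W169.HF H353.E

/-- **Equal spacing.**  Below the height where the analytic conductor is `e^{κ n}`, the zeros of the `n`-th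
derivative are equally spaced: the distance to the next zero above is `(1 + O(ε)) π / ℓ`, where `ℓ` is the
slope at the saddle point, `σ S ℓ = n`. -/
theorem main_gap {B : ℝ → ℝ} (hB : ∀ ρ, 0 ≤ B ρ) {θ κ ε : ℝ} (hθ0 : 0 ≤ θ) (hθ1 : θ ≤ 1) (hκ0 : 0 < κ)
    (hκ : κ * (1 / 2 + θ) < 2) (hε : 0 < ε) : ∃ M : ℝ, 1 ≤ M ∧ ∀ (m : ℕ) (N : ℝ) (μ : Fin m → ℂ)
      (X L : ℂ → ℂ), UL m B N θ μ X L → ∀ n : ℕ, M * m ≤ n → ∀ y : ℝ,
      Real.log (W355.UN.cond N μ y) ≤ κ * n →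
        ∃ S σ : ℝ, 1 ≤ S ∧ 1 / 2 ≤ σ ∧ σ ≤ 1 ∧ σ * (S * ell N μ y S) = n ∧ m ≤ ell N μ y S ∧
          (∃ y' : ℝ, y ≤ y' ∧ (y' - y) * ell N μ y S / Real.pi ≤ 1 + ε ∧
            iteratedDeriv n X (1 / 2 + y' * I) = 0) ∧
          (iteratedDeriv n X (1 / 2 + y * I) = 0 →
            ∃ y' : ℝ, y < y' ∧ iteratedDeriv n X (1 / 2 + y' * I) = 0 ∧
              (∀ v : ℝ, y < v → v < y' → iteratedDeriv n X (1 / 2 + v * I) ≠ 0) ∧
              |(y' - y) * ell N μ y S / Real.pi - 1| ≤ ε) := by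
  obtain ⟨g, hg⟩ : ∃ g : ℝ, g = 2 / κ - (1 / 2 + θ) := ⟨_, rfl⟩
  have hκg : κ * g = 2 - κ * (1 / 2 + θ) := by
    rw [hg, mul_sub]
    congr 1
    field_simp
  have hg0 : 0 < g := by
    by_contra hneg
    push Not at hneg
    have : κ * g ≤ 0 := mul_nonpos_of_nonneg_of_nonpos hκ0.le hneg
    linarith
  obtain ⟨τ, hτ⟩ : ∃ τ : ℝ, τ = min (g / 2) (1 / 4) := ⟨_, rfl⟩
  have hτ0 : 0 < τ := by rw [hτ]; exact lt_min (by linarith) (by norm_num)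
  have hτ1 : τ ≤ g / 2 := by rw [hτ]; exact min_le_left _ _
  have hτ2 : τ ≤ 1 / 4 := by rw [hτ]; exact min_le_right _ _
  obtain ⟨ρ0, hρ0⟩ : ∃ ρ0 : ℝ, ρ0 = 1 / 2 + θ + τ := ⟨_, rfl⟩
  have hκρ : κ * ρ0 < 2 := by
    have h1 : κ * τ ≤ κ * (g / 2) := by gcongr
    have h2 : κ * ρ0 = κ * (1 / 2 + θ) + κ * τ := by rw [hρ0]; ring
    have h3 : κ * (g / 2) = κ * g / 2 := by ring
    rw [h2]
    linarith
  obtain ⟨ε1, hε1⟩ : ∃ ε1 : ℝ, ε1 = min (ε / 3) (1 / 4) := ⟨_, rfl⟩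
  have hε10 : 0 < ε1 := by rw [hε1]; exact lt_min (by linarith) (by norm_num)
  have hε13 : ε1 ≤ ε / 3 := by rw [hε1]; exact min_le_left _ _
  have hε14 : ε1 ≤ 1 / 4 := by rw [hε1]; exact min_le_right _ _
  obtain ⟨a, ha⟩ : ∃ a : ℝ, a = min (τ / 8) ε1 := ⟨_, rfl⟩
  have ha0 : 0 < a := by rw [ha]; exact lt_min (by linarith) hε10
  have ha8 : a ≤ τ / 8 := by rw [ha]; exact min_le_left _ _
  have haε : a ≤ ε1 := by rw [ha]; exact min_le_right _ _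
  obtain ⟨M1, hM1, H1⟩ := near_gap (a := a) (δ := τ / 4) (ε := ε1) ha0 (by linarith) haε hε10 hε14
    (by linarith) (by linarith) (hB (τ / 4))
  obtain ⟨M4, hM4, H4⟩ := exists_scale (B := B) (θ := θ) hκ0 (ρ0 := ρ0) (by linarith) (by linarith) hκρ
    (M2 := 1 + 2 * M1) (by linarith)
  refine ⟨M4 + M1, by linarith, ?_⟩
  intro m N μ X L h n hn y hy
  have hm : (1 : ℝ) ≤ m := by exact_mod_cast h.hm
  have hm0' : (0 : ℝ) ≤ m := by linarith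
  have hn4 : M4 * m ≤ n := by
    have h1 : M4 * m ≤ (M4 + M1) * m := mul_le_mul_of_nonneg_right (by linarith) hm0'
    exact h1.trans hn
  have hn1 : M1 * m ≤ n := by
    have h1 : M1 * m ≤ (M4 + M1) * m := mul_le_mul_of_nonneg_right (by linarith) hm0'
    exact h1.trans hn
  obtain ⟨S, σ, hS, hσ, hσ1, hor, hρ, hSn, hMℓ⟩ := H4 m N μ X L h n y hn4 hy
  obtain ⟨ℓ, hℓ⟩ : ∃ ℓ : ℝ, ℓ = ell N μ y S := ⟨_, rfl⟩
  have hσ2 : 1 / 2 ≤ σ * (1 - a) := by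
    rcases hor with h1 | h1
    · rw [h1]; linarith
    · rw [h1, mul_one] at hρ
      have h2 : σ * a ≤ 1 * a := mul_le_mul_of_nonneg_right hσ1 ha0.le
      have h3 : σ * (1 - a) = σ - σ * a := by ring
      rw [h3]
      linarith
  have hσ3 : 1 / 2 ≤ σ := by
    have h2 : σ * (1 - a) ≤ σ * 1 := mul_le_mul_of_nonneg_left (by linarith) hσ.le
    linarith
  have hreg : 1 / 2 + θ + τ / 4 ≤ σ * S * (1 - a) := by
    have h1 : ρ0 * (1 - a) ≤ σ * S * (1 - a) := by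
      apply mul_le_mul_of_nonneg_right hρ
      linarith
    have h2 : ρ0 ≤ 2 := by linarith
    have h3 : ρ0 * a ≤ 2 * (τ / 8) := mul_le_mul h2 ha8 ha0.le (by norm_num)
    have h4 : ρ0 * (1 - a) = ρ0 - ρ0 * a := by ring
    linarith
  have hm0 : (m : ℝ) ≤ ell N μ y S := by
    have h1 : 1 * (m : ℝ) ≤ (1 + 2 * M1) * m := mul_le_mul_of_nonneg_right (by linarith) hm0'
    linarith
  have hMS : M1 * (m * S) ≤ n := by
    rw [← hSn, ← hℓ]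
    rw [← hℓ] at hMℓ
    have h1 : 2 * M1 * m ≤ ℓ := by
      have h2 : (1 + 2 * M1) * (m : ℝ) = m + 2 * M1 * m := by ring
      linarith
    have h2 : M1 * m ≤ σ * ℓ := by
      have h3 : 1 / 2 * (2 * M1 * m) ≤ σ * ℓ := mul_le_mul hσ3 h1 (by positivity) hσ.le
      linarith
    have h3 : M1 * m * S ≤ σ * ℓ * S := mul_le_mul_of_nonneg_right h2 (by linarith)
    have h4 : M1 * (m * S) = M1 * m * S := by ring
    have h5 : σ * (S * ℓ) = σ * ℓ * S := by ring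
    rw [h4, h5]
    exact h3
  obtain ⟨⟨y0, h01, h02, h03⟩, H2⟩ := H1 m N θ μ X L h n y S σ hS hσ hσ1 hσ2 hreg (by linarith) hSn hn1 hMS
  refine ⟨S, σ, hS, hσ3, hσ1, hSn, hm0, ⟨y0, h01, h02.trans (by linarith), h03⟩, fun hz => ?_⟩
  obtain ⟨y', h1, h2, h3, h4⟩ := H2 hz
  exact ⟨y', h1, h2, h3, h4.trans (by linarith)⟩

end Pool.Agent.U4.UH
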