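import Pool.Agent.U4.UH.Main
import Pool.Agent.U4.UH.Sp

/-!
# Equal spacing of the zeros of the high derivatives of L-functions
-/

set_option autoImplicit false

open Complex MeasureTheory Filter Topology Set
open scoped ComplexConjugate

namespace Pool.Agent.U4.UH

open Pool.Agent.H986R2.K4 (QQ)
open Pool.Agent.H986R2.K4.WinAux (scale)
open Pool.Agent.W355.UN Pool.Agent.W169.HF H353.E

/-- the next zero, at scale `S` -/
theorem near_gap {a δ ε : ℝ} (ha : 0 < a) (ha1 : a ≤ 1 / 2) (haε : a ≤ ε) (hε : 0 < ε) (hε1 : ε ≤ 1 / 4)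
    (hδ : 0 < δ) (hδ1 : δ ≤ 1) {B : ℝ → ℝ} (hB : 0 ≤ B δ) :
    ∃ M : ℝ, 1 ≤ M ∧ ∀ (m : ℕ) (N θ : ℝ) (μ : Fin m → ℂ) (X L : ℂ → ℂ), UL m B N θ μ X L →
      ∀ (n : ℕ) (y S σ : ℝ), 1 ≤ S → 0 < σ → σ ≤ 1 → 1 / 2 ≤ σ * (1 - a) →
      1 / 2 + θ + δ ≤ σ * S * (1 - a) → θ + δ ≤ 3 / 2 →
      σ * (S * ell N μ y S) = n → M * m ≤ n → M * (m * S) ≤ n →
      (∃ y' : ℝ, y ≤ y' ∧ (y' - y) * ell N μ y S / Real.pi ≤ 1 + 3 * ε ∧
        iteratedDeriv n X (1 / 2 + y' * I) = 0) ∧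
      (iteratedDeriv n X (1 / 2 + y * I) = 0 →
        ∃ y' : ℝ, y < y' ∧ iteratedDeriv n X (1 / 2 + y' * I) = 0 ∧
          (∀ v : ℝ, y < v → v < y' → iteratedDeriv n X (1 / 2 + v * I) ≠ 0) ∧
          |(y' - y) * ell N μ y S / Real.pi - 1| ≤ 3 * ε) := by
  obtain ⟨η, n0, hη, H⟩ := gap hε hε1 ha ha1 haε
  obtain ⟨C, hC⟩ : ∃ C : ℝ, C = 9 * (111 + 3 * B δ) := ⟨_, rfl⟩
  have hC0 : 0 < C := by rw [hC]; positivity
  refine ⟨max 1 (max n0 (max (37 * C / η) (78 * C / a))), le_max_left _ _, ?_⟩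
  intro m N θ μ X L h n y S σ hS hσ hσ1 hσa hreg hθδ hn hMn hMn2
  have hm : (1 : ℝ) ≤ m := by exact_mod_cast h.hm
  have hS0 : 0 < S := by linarith
  have hSc : (S : ℂ) ≠ 0 := by exact_mod_cast hS0.ne'
  have hσc : (σ : ℂ) ≠ 0 := by exact_mod_cast hσ.ne'
  have hθ := h.hθ
  have hn0 : n0 ≤ n := by
    have h1 : (n0 : ℝ) ≤ n := by
      have h2 : (n0 : ℝ) ≤ max 1 (max (n0 : ℝ) (max (37 * C / η) (78 * C / a))) :=
        (le_max_left _ _).trans (le_max_right _ _)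
      have h3 : 0 ≤ max 1 (max (n0 : ℝ) (max (37 * C / η) (78 * C / a))) :=
        le_trans zero_le_one (le_max_left _ _)
      nlinarith
    exact_mod_cast h1
  have hK1 : C * (m * S) * 37 ≤ η * n := by
    have h1 : 37 * C / η * (m * S) ≤ n := by
      refine le_trans ?_ hMn2
      apply mul_le_mul_of_nonneg_right _ (by positivity)
      exact (le_max_left _ _).trans ((le_max_right _ _).trans (le_max_right _ _))
    rw [div_mul_eq_mul_div, div_le_iff₀ hη] at h1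
    linarith
  have hK2 : C * (m * S) * 39 ≤ a / 2 * n := by
    have h1 : 78 * C / a * (m * S) ≤ n := by
      refine le_trans ?_ hMn2
      apply mul_le_mul_of_nonneg_right _ (by positivity)
      exact (le_max_right _ _).trans ((le_max_right _ _).trans (le_max_right _ _))
    rw [div_mul_eq_mul_div, div_le_iff₀ ha] at h1
    linarith
  obtain ⟨ϑ0, hϑ0⟩ : ∃ ϑ0 : ℝ, ϑ0 = max (1 / 2) ((1 / 2 + θ + δ) / S) := ⟨_, rfl⟩
  have h1 : 1 / 2 ≤ ϑ0 := by rw [hϑ0]; exact le_max_left _ _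
  have h2 : ϑ0 ≤ 2 := by
    rw [hϑ0]
    refine max_le (by norm_num) ?_
    rw [div_le_iff₀ hS0]
    linarith
  have h3 : 1 + θ + δ ≤ 1 / 2 + S * ϑ0 := by
    have h4 : (1 / 2 + θ + δ) / S ≤ ϑ0 := by rw [hϑ0]; exact le_max_right _ _
    rw [div_le_iff₀ hS0] at h4
    linarith
  obtain ⟨G, hG⟩ := h.up (y := y) hS h1 h2 hδ hδ1 h3
  have hϑσ : ϑ0 ≤ σ * (1 - a) := by
    rw [hϑ0]
    refine max_le hσa ?_
    rw [div_le_iff₀ hS0]
    linarith
  have eK : 9 * (m * S * (111 + 3 * B δ)) = C * (m * S) := by rw [hC]; ring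
  rw [eK] at hG
  obtain ⟨f, hf⟩ : ∃ f : ℂ → ℂ, f = fun u : ℂ => X (1 / 2 + y * I + S * u) := ⟨_, rfl⟩
  rw [← hf] at hG
  have hd := hG.slow.1
  obtain ⟨e, he, hfe⟩ := hG.fe
  obtain ⟨w, hw, hwe⟩ := exists_rot he
  have hw0 : w ≠ 0 := by
    intro h0
    rw [h0, norm_zero] at hw
    exact zero_ne_one hw
  have hsym : ∀ u : ℂ, w * f (-conj u) = conj (w * f u) := by
    intro u
    rw [hfe (-conj u), map_neg, Complex.conj_conj, neg_neg, ← mul_assoc, hwe, map_mul]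
  have hQ := qq_of ha ha1 hG (by positivity) hσ hσ1 hϑσ hn hK1 hK2 hw hsym
  have hval : ∀ v : ℝ, iteratedDeriv n (fun z => w * f (σ * z)) (I * (v : ℂ)) =
      w * ((σ : ℂ) ^ n * ((S : ℂ) ^ n * iteratedDeriv n X (1 / 2 + ((y + σ * S * v : ℝ) : ℂ) * I))) := by
    intro v
    rw [itd_rot hd, hf, scale h.slow.1]
    congr 4
    push_cast
    ring
  have hval0 : ∀ v : ℝ, iteratedDeriv n (fun z => w * f (σ * z)) (I * (v : ℂ)) = 0 ↔
      iteratedDeriv n X (1 / 2 + ((y + σ * S * v : ℝ) : ℂ) * I) = 0 := by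
    intro v
    rw [hval]
    constructor
    · intro h4
      have h5 := (mul_eq_zero.1 h4).resolve_left hw0
      have h6 := (mul_eq_zero.1 h5).resolve_left (pow_ne_zero _ hσc)
      exact (mul_eq_zero.1 h6).resolve_left (pow_ne_zero _ hSc)
    · intro h4
      rw [h4]
      simp
  obtain ⟨⟨y0, hy01, hy02, hy03⟩, H2⟩ := H n _ hn0 hQ
  have hσS : 0 < σ * S := by positivity
  have e1 : ∀ v : ℝ, (y + σ * S * v - y) * ell N μ y S = n * v := fun v => by rw [← hn]; ring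
  refine ⟨⟨y + σ * S * y0, by have := mul_nonneg hσS.le hy01; linarith, by rw [e1]; exact hy02,
    (hval0 y0).1 hy03⟩, fun hz => ?_⟩
  have hz0 : iteratedDeriv n (fun z => w * f (σ * z)) 0 = 0 := by
    have h4 := (hval0 0).2 (by rw [mul_zero, add_zero]; exact hz)
    rwa [ofReal_zero, mul_zero] at h4
  obtain ⟨y1, hy1, hy2, hy3, hy4⟩ := H2 hz0
  refine ⟨y + σ * S * y1, by have := mul_pos hσS hy1; linarith, (hval0 y1).1 hy2, ?_, ?_⟩
  · intro v hv1 hv2 hv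
    obtain ⟨y2, hy2'⟩ : ∃ y2 : ℝ, y2 = (v - y) / (σ * S) := ⟨_, rfl⟩
    have h5 : 0 < y2 := by
      rw [hy2']
      exact div_pos (by linarith) hσS
    have h6 : y2 < y1 := by
      rw [hy2', div_lt_iff₀ hσS]
      linarith
    refine hy3 y2 h5 h6 ((hval0 y2).2 ?_)
    have h7 : y + σ * S * y2 = v := by
      rw [hy2']
      field_simp
      ring
    rw [h7]
    exact hv
  · rw [e1]
    exact hy4

end Pool.Agent.U4.UH
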