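import Pool.Agent.H986R2.K4.AW
import Pool.Agent.H986R2.K4.NL
import Pool.Agent.H986R2.K4.RT
import Pool.Agent.H986R2.K4.Lap
import Pool.Agent.H986R2.K4.LL
import Pool.Agent.H986R2.K4.Win
import Pool.Agent.W355.UN.Fwd

/-!
# Zeros of high derivatives of a function with a profile
-/

set_option autoImplicit false

open Complex MeasureTheory Filter Topology Set
open scoped ComplexConjugate

namespace Pool.Agent.U4.UH

open Pool.Agent.H986R2.K4 (QQ aw nl rt ll lapQ)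
open Pool.Agent.H986R2.K4.WinAux (scale)
open Pool.Agent.W355.UN Pool.Agent.W169.HF

lemma exists_rot {e : ℂ} (he : ‖e‖ = 1) : ∃ w : ℂ, ‖w‖ = 1 ∧ w * e = conj w := by
  obtain ⟨w, hw⟩ := IsAlgClosed.exists_pow_nat_eq (conj e) (n := 2) (by norm_num)
  have h1 : ‖w‖ ^ 2 = 1 := by rw [← norm_pow, hw, Complex.norm_conj, he]
  have h2 : ‖w‖ = 1 := by
    have := norm_nonneg w
    nlinarith
  refine ⟨w, h2, ?_⟩
  have h3 : conj w * w = 1 := by
    rw [mul_comm, Complex.mul_conj, Complex.normSq_eq_norm_sq, h2]; norm_num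
  have h4 : w ^ 2 * e = 1 := by
    rw [hw, mul_comm, Complex.mul_conj, Complex.normSq_eq_norm_sq, he]; norm_num
  calc w * e = (conj w * w) * (w * e) := by rw [h3, one_mul]
    _ = conj w * (w ^ 2 * e) := by ring
    _ = conj w := by rw [h4, mul_one]

lemma itd_rot {f : ℂ → ℂ} (hf : Differentiable ℂ f) (w : ℂ) (σ : ℝ) (k : ℕ) (z : ℂ) :
    iteratedDeriv k (fun z => w * f (σ * z)) z = w * ((σ : ℂ) ^ k * iteratedDeriv k f (σ * z)) := by
  rw [iteratedDeriv_const_mul_field]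
  have := scale hf 0 (σ : ℂ) k z
  simp only [zero_add] at this
  rw [this]

lemma logDeriv_rot {f : ℂ → ℂ} (hf : Differentiable ℂ f) {w : ℂ} (hw : w ≠ 0) (c : ℂ) (z : ℂ) :
    logDeriv (fun z => w * f (c * z)) z = c * logDeriv f (c * z) := by
  have h2 : HasDerivAt (fun u : ℂ => c * u) c z := by
    simpa using (hasDerivAt_id z).const_mul c
  have h3 := (HasDerivAt.comp z (hf (c * z)).hasDerivAt h2).const_mul w
  have h4 : deriv (fun u : ℂ => w * f (c * u)) z = w * (deriv f (c * z) * c) := h3.deriv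
  rw [logDeriv_apply, logDeriv_apply, h4]
  rcases eq_or_ne (f (c * z)) 0 with h0 | h0
  · rw [h0]; simp
  · field_simp

/-- the normalised local situation -/
theorem qq_of {a η K ϑ0 ℓ G σ : ℝ} {f : ℂ → ℂ} {n : ℕ} {w : ℂ} (ha : 0 < a) (ha1 : a ≤ 1 / 2)
    (hU : UP K ϑ0 ℓ G f) (hK : 0 ≤ K) (hσ : 0 < σ) (hσ1 : σ ≤ 1) (hϑ : ϑ0 ≤ σ * (1 - a))
    (hn : σ * ℓ = n) (hK1 : K * 37 ≤ η * n) (hK2 : K * 39 ≤ a / 2 * n) (hw : ‖w‖ = 1)
    (hw2 : ∀ u : ℂ, w * f (-conj u) = conj (w * f u)) :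
    QQ a 6 n η (fun z => w * f (σ * z)) := by
  have hw0 : w ≠ 0 := by
    intro h0
    rw [h0, norm_zero] at hw
    exact zero_ne_one hw
  have hd := hU.slow.1
  have hG := hU.hG
  have hn0 : (0 : ℝ) ≤ n := Nat.cast_nonneg n
  have hre : ∀ z : ℂ, ((σ : ℂ) * z).re = σ * z.re := fun z => by rw [Complex.re_ofReal_mul]
  have hnm : ∀ z : ℂ, ‖(σ : ℂ) * z‖ ≤ ‖z‖ := by
    intro z
    rw [norm_mul, Complex.norm_real, Real.norm_eq_abs, abs_of_pos hσ]
    have := norm_nonneg z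
    nlinarith
  have hsq : ∀ z : ℂ, ‖z‖ ≤ 6 → K * (1 + ‖(σ : ℂ) * z‖ ^ 2) ≤ K * 37 := by
    intro z hz
    have h1 := (hnm z).trans hz
    have h2 : ‖(σ : ℂ) * z‖ ^ 2 ≤ 6 ^ 2 := by
      have := norm_nonneg ((σ : ℂ) * z)
      gcongr
    apply mul_le_mul_of_nonneg_left _ hK
    linarith
  refine ⟨?_, ?_, ?_, ?_⟩
  · exact (hd.comp (by fun_prop)).const_mul w
  · intro z
    show w * f (σ * -conj z) = conj (w * f (σ * z))
    rw [← hw2]
    congr 2
    rw [map_mul, conj_ofReal]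
    ring
  · intro z hz1 hz2
    have h1 : ϑ0 ≤ ((σ : ℂ) * z).re := by
      rw [hre]
      refine hϑ.trans ?_
      gcongr
    have hlo := hU.lo _ h1
    have hpos : 0 < ‖f (σ * z)‖ := lt_of_lt_of_le (by positivity) hlo
    refine ⟨mul_ne_zero hw0 (norm_pos_iff.1 hpos), ?_⟩
    rw [logDeriv_rot hd hw0]
    have e : (σ : ℂ) * logDeriv f (σ * z) - (n : ℂ) = σ * (logDeriv f (σ * z) - ℓ) := by
      have : (n : ℂ) = ((n : ℝ) : ℂ) := by norm_cast
      rw [this, ← hn]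
      push_cast
      ring
    rw [e, norm_mul, Complex.norm_real, Real.norm_eq_abs, abs_of_pos hσ]
    have h2 := (hU.der _ h1).trans (hsq z hz2)
    have h3 := norm_nonneg (logDeriv f (σ * z) - ℓ)
    nlinarith
  · intro z hz1 hz2
    have h1 := hU.up (σ * z)
    have h2 : max |((σ : ℂ) * z).re| ϑ0 ≤ σ * (1 - a) := by
      refine max_le ?_ hϑ
      rw [hre, abs_mul, abs_of_pos hσ]
      gcongr
    have h3 : ϑ0 ≤ ((σ : ℂ) * 1).re := by
      rw [hre, Complex.one_re]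
      nlinarith
    have h4 := hU.lo _ h3
    have hℓ : 0 ≤ ℓ := by
      by_contra hneg
      push Not at hneg
      have : σ * ℓ < 0 := mul_neg_of_pos_of_neg hσ hneg
      linarith
    have h5 : ‖(σ : ℂ) * 1‖ ≤ 1 := by
      have := hnm 1
      rwa [norm_one] at this
    have h6 : K * (1 + ‖(σ : ℂ) * 1‖ ^ 2) ≤ K * 2 := by
      have h7 : ‖(σ : ℂ) * 1‖ ^ 2 ≤ 1 := by
        have := norm_nonneg ((σ : ℂ) * 1)
        nlinarith
      apply mul_le_mul_of_nonneg_left _ hK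
      linarith
    have h7 : ((σ : ℂ) * 1).re = σ := by rw [hre, Complex.one_re, mul_one]
    rw [h7] at h4
    rw [norm_mul, norm_mul, hw, one_mul, one_mul]
    calc ‖f (σ * z)‖ ≤ G * Real.exp (ℓ * max |((σ : ℂ) * z).re| ϑ0 + K * (1 + ‖(σ : ℂ) * z‖ ^ 2)) := h1
      _ ≤ G * Real.exp (ℓ * σ - K * (1 + ‖(σ : ℂ) * 1‖ ^ 2) - a / 2 * n) := by
          apply mul_le_mul_of_nonneg_left _ hG.le
          apply Real.exp_le_exp.2
          have h8 : ℓ * max |((σ : ℂ) * z).re| ϑ0 ≤ ℓ * (σ * (1 - a)) :=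
            mul_le_mul_of_nonneg_left h2 hℓ
          have h9 := hsq z hz2
          have e1 : ℓ * (σ * (1 - a)) = n - a * n := by rw [← hn]; ring
          have e2 : ℓ * σ = n := by rw [← hn]; ring
          linarith
      _ = G * Real.exp (ℓ * σ - K * (1 + ‖(σ : ℂ) * 1‖ ^ 2)) * Real.exp (-(a / 2 * n)) := by
          rw [mul_assoc, ← Real.exp_add]
          congr 2
      _ ≤ ‖f (σ * 1)‖ * Real.exp (-(a / 2 * n)) := by gcongr

/-- zeros near the line of the derivatives of a function with a profile -/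
theorem loc {a : ℝ} (ha : 0 < a) (ha1 : a ≤ 1 / 2) : ∃ ε : ℝ, ∃ n0 : ℕ, 0 < ε ∧
    ∀ (n : ℕ) (K ϑ0 ℓ G σ : ℝ) (f : ℂ → ℂ), n0 ≤ n → UP K ϑ0 ℓ G f → 0 ≤ K → 0 < σ → σ ≤ 1 →
      ϑ0 ≤ σ * (1 - a) → σ * ℓ = n → K ≤ ε * n → ∀ x : ℝ, |x| ≤ 4 * σ →
      iteratedDeriv n f x = 0 → x = 0 ∧ iteratedDeriv (n + 1) f x ≠ 0 := by
  obtain ⟨κ1, η1, n1, hκ10, hκ1, hη1, H1⟩ := nl (rt lapQ) a 6 ha ha1 (by norm_num)
  obtain ⟨η2, n2, hη2, H2⟩ := aw lapQ a 6 κ1 ha ha1 (by norm_num) hκ10 hκ1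
  obtain ⟨η, hη⟩ : ∃ η : ℝ, η = min η1 η2 := ⟨_, rfl⟩
  have hη0 : 0 < η := by rw [hη]; exact lt_min hη1 hη2
  refine ⟨min (η / 37) (a / 78), max n1 n2, lt_min (by positivity) (by positivity), ?_⟩
  intro n K ϑ0 ℓ G σ f hn hU hK hσ hσ1 hϑ hnℓ hKn x hx hz
  have hn0 : (0 : ℝ) ≤ n := Nat.cast_nonneg n
  have hd := hU.slow.1
  have hK1 : K * 37 ≤ η * n := by
    have : min (η / 37) (a / 78) * n ≤ η / 37 * n := by
      gcongr
      exact min_le_left _ _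
    linarith
  have hK2 : K * 39 ≤ a / 2 * n := by
    have : min (η / 37) (a / 78) * n ≤ a / 78 * n := by
      gcongr
      exact min_le_right _ _
    linarith
  obtain ⟨e, he, hfe⟩ := hU.fe
  obtain ⟨w, hw, hwe⟩ := exists_rot he
  have hw0 : w ≠ 0 := by
    intro h0
    rw [h0, norm_zero] at hw
    exact zero_ne_one hw
  have hsym : ∀ u : ℂ, w * f (-conj u) = conj (w * f u) := by
    intro u
    rw [hfe (-conj u), map_neg, Complex.conj_conj, neg_neg, ← mul_assoc, hwe, map_mul]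
  have hQ := qq_of ha ha1 hU hK hσ hσ1 hϑ hnℓ hK1 hK2 hw hsym
  have hQ1 : QQ a 6 n η1 (fun z => w * f (σ * z)) :=
    Pool.Agent.H986R2.K4.WinAux.mono (by rw [hη]; exact min_le_left η1 η2) hQ
  have hQ2 : QQ a 6 n η2 (fun z => w * f (σ * z)) :=
    Pool.Agent.H986R2.K4.WinAux.mono (by rw [hη]; exact min_le_right η1 η2) hQ
  have hσc : (σ : ℂ) ≠ 0 := by exact_mod_cast hσ.ne'
  have hpt : (σ : ℂ) * ((x / σ : ℝ) : ℂ) = x := by
    push_cast
    field_simp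
  have hder : ∀ k : ℕ, iteratedDeriv k (fun z => w * f (σ * z)) ((x / σ : ℝ) : ℂ) =
      w * ((σ : ℂ) ^ k * iteratedDeriv k f x) := by
    intro k
    rw [itd_rot hd, hpt]
  have hzero : iteratedDeriv n (fun z => w * f (σ * z)) ((x / σ : ℝ) : ℂ) = 0 := by
    rw [hder, hz, mul_zero, mul_zero]
  have habs : |x / σ| = |x| / σ := by rw [abs_div, abs_of_pos hσ]
  by_cases hc : κ1 ≤ |x / σ|
  · exfalso
    refine H2 n _ ((le_max_right _ _).trans hn) hQ2 (x / σ) hc ?_ hzero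
    rw [habs, div_le_iff₀ hσ]
    linarith
  · push Not at hc
    obtain ⟨h5, h6⟩ := H1 n _ ((le_max_left _ _).trans hn) hQ1 (x / σ) hc.le hzero
    refine ⟨(div_eq_zero_iff.1 h5).resolve_right hσ.ne', fun h7 => h6 ?_⟩
    rw [hder, h7, mul_zero, mul_zero]

end Pool.Agent.U4.UH
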