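import Pool.Agent.U4.UH.Rt
import Pool.Agent.U4.UH.Gam

/-!
# Zeros of the high derivatives of L-functions, uniformly in the L-function
-/

set_option autoImplicit false

open Complex MeasureTheory Filter Topology Set
open scoped ComplexConjugate

namespace Pool.Agent.U4.UH

open Pool.Agent.H986R2.K4.WinAux (scale)
open Pool.Agent.W355.UN Pool.Agent.W169.HF H353.E

/-- near the line, at scale `S` -/
theorem near {a δ : ℝ} (ha : 0 < a) (ha1 : a ≤ 1 / 2) (hδ : 0 < δ) (hδ1 : δ ≤ 1) {B : ℝ → ℝ} (hB : 0 ≤ B δ) :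
    ∃ M : ℝ, 1 ≤ M ∧ ∀ (m : ℕ) (N θ : ℝ) (μ : Fin m → ℂ) (X L : ℂ → ℂ), UL m B N θ μ X L →
      ∀ (n : ℕ) (y S σ : ℝ), 1 ≤ S → 0 < σ → σ ≤ 1 → 1 / 2 ≤ σ * (1 - a) →
      1 / 2 + θ + δ ≤ σ * S * (1 - a) → θ + δ ≤ 3 / 2 →
      σ * (S * ell N μ y S) = n → M * m ≤ n → M * (m * S) ≤ n →
      ∀ x : ℝ, |x| ≤ 4 * (σ * S) → iteratedDeriv n X (1 / 2 + x + y * I) = 0 →
        x = 0 ∧ iteratedDeriv (n + 1) X (1 / 2 + x + y * I) ≠ 0 := by
  obtain ⟨ε, n0, hε, H⟩ := loc ha ha1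
  obtain ⟨C, hC⟩ : ∃ C : ℝ, C = 9 * (111 + 3 * B δ) := ⟨_, rfl⟩
  have hC0 : 0 < C := by rw [hC]; positivity
  refine ⟨max 1 (max n0 (C / ε)), le_max_left _ _, ?_⟩
  intro m N θ μ X L h n y S σ hS hσ hσ1 hσa hreg hθδ hn hMn hMn2 x hx hz
  have hm : (1 : ℝ) ≤ m := by exact_mod_cast h.hm
  have hS0 : 0 < S := by linarith
  have hSc : (S : ℂ) ≠ 0 := by exact_mod_cast hS0.ne'
  have hθ := h.hθ
  have hn0 : n0 ≤ n := by
    have h1 : (n0 : ℝ) ≤ n := by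
      have h2 : (n0 : ℝ) ≤ max 1 (max (n0 : ℝ) (C / ε)) := (le_max_left _ _).trans (le_max_right _ _)
      have h3 : 0 ≤ max 1 (max (n0 : ℝ) (C / ε)) := le_trans zero_le_one (le_max_left _ _)
      nlinarith
    exact_mod_cast h1
  have hK : C * (m * S) ≤ ε * n := by
    have h1 : C / ε * (m * S) ≤ n := by
      refine le_trans ?_ hMn2
      apply mul_le_mul_of_nonneg_right _ (by positivity)
      exact (le_max_right _ _).trans (le_max_right _ _)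
    rw [div_mul_eq_mul_div, div_le_iff₀ hε] at h1
    linarith
  obtain ⟨ϑ0, hϑ0⟩ : ∃ ϑ0 : ℝ, ϑ0 = max (1 / 2) ((1 / 2 + θ + δ) / S) := ⟨_, rfl⟩
  have h1 : 1 / 2 ≤ ϑ0 := by rw [hϑ0]; exact le_max_left _ _
  have h2 : ϑ0 ≤ 2 := by
    rw [hϑ0]
    refine max_le (by norm_num) ?_
    rw [div_le_iff₀ hS0]
    linarith
  have h3 : 1 + θ + δ ≤ 1 / 2 + S * ϑ0 := by
    have h4 : (1 / 2 + θ + δ) / S ≤ ϑ0 := by rw [hϑ0]; exact le_max_right _ _
    rw [div_le_iff₀ hS0] at h4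
    linarith
  obtain ⟨G, hG⟩ := h.up (y := y) hS h1 h2 hδ hδ1 h3
  have hx1 : |x / S| ≤ 4 * σ := by
    rw [abs_div, abs_of_pos hS0, div_le_iff₀ hS0]
    linarith
  have hpt : (1 / 2 + y * I + S * ((x / S : ℝ) : ℂ) : ℂ) = 1 / 2 + x + y * I := by
    push_cast
    field_simp
    ring
  have hder : ∀ k : ℕ, iteratedDeriv k (fun u : ℂ => X (1 / 2 + y * I + S * u)) ((x / S : ℝ) : ℂ) =
      (S : ℂ) ^ k * iteratedDeriv k X (1 / 2 + x + y * I) := by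
    intro k
    rw [scale h.slow.1, hpt]
  have hϑσ : ϑ0 ≤ σ * (1 - a) := by
    rw [hϑ0]
    refine max_le hσa ?_
    rw [div_le_iff₀ hS0]
    linarith
  obtain ⟨h5, h6⟩ := H n _ ϑ0 _ G σ _ hn0 hG (by have := h.hB δ; positivity) hσ hσ1 hϑσ hn (by
    refine le_trans (le_of_eq ?_) hK
    rw [hC]; ring) (x / S) hx1 (by rw [hder, hz, mul_zero])
  refine ⟨(div_eq_zero_iff.1 h5).resolve_right hS0.ne', fun h7 => h6 ?_⟩
  rw [hder, h7, mul_zero]

/-- far from the line -/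
theorem rightUL {B : ℝ → ℝ} (hB : 0 ≤ B (1 / 4)) :
    ∃ M : ℝ, 1 ≤ M ∧ ∀ (m : ℕ) (N θ : ℝ) (μ : Fin m → ℂ) (X L : ℂ → ℂ), UL m B N θ μ X L →
      ∀ (n : ℕ) (y u : ℝ), 2 + 4 * θ ≤ u → 3 * n ≤ u * ell N μ y u → M * m ≤ ell N μ y u → M * m ≤ n →
        iteratedDeriv n X (1 / 2 + u + y * I) ≠ 0 := by
  obtain ⟨ε, n0, hε, H⟩ := right
  obtain ⟨C, hC⟩ : ∃ C : ℝ, C = 9 * (111 + 3 * B (1 / 4)) := ⟨_, rfl⟩
  have hC0 : 0 < C := by rw [hC]; positivity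
  refine ⟨max 1 (max n0 (C / ε)), le_max_left _ _, ?_⟩
  intro m N θ μ X L h n y u hu h3n hM hMn
  have hm : (1 : ℝ) ≤ m := by exact_mod_cast h.hm
  have hθ := h.hθ
  have hu0 : 0 < u := by linarith
  have huc : (u : ℂ) ≠ 0 := by exact_mod_cast hu0.ne'
  have hmax : (1 : ℝ) ≤ max 1 (max (n0 : ℝ) (C / ε)) := le_max_left _ _
  have hn0 : n0 ≤ n := by
    have h1 : (n0 : ℝ) ≤ n := by
      have h2 : (n0 : ℝ) ≤ max 1 (max (n0 : ℝ) (C / ε)) := (le_max_left _ _).trans (le_max_right _ _)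
      nlinarith
    exact_mod_cast h1
  obtain ⟨ℓ, hℓ⟩ : ∃ ℓ : ℝ, ℓ = ell N μ y u := ⟨_, rfl⟩
  rw [← hℓ] at h3n hM
  have hn1 : (1 : ℝ) ≤ n := by nlinarith
  have hℓ0 : 0 < ℓ := by nlinarith
  obtain ⟨G, hG⟩ := h.up (S := u) (ϑ0 := 1 / 2) (ρ := 1 / 4) (y := y) (by linarith) le_rfl
    (by norm_num) (by norm_num) (by norm_num) (by linarith)
  rw [← hℓ] at hG
  have hK : C * m ≤ ε * ℓ := by
    have h1 : C / ε * m ≤ ℓ := by
      refine le_trans ?_ hM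
      apply mul_le_mul_of_nonneg_right _ (by positivity)
      exact (le_max_right _ _).trans (le_max_right _ _)
    rw [div_mul_eq_mul_div, div_le_iff₀ hε] at h1
    linarith
  have h1 := H n _ (u * ℓ) G (n / (u * ℓ)) _ hn0 hG (by have := h.hB (1 / 4); positivity)
    (by positivity) (by
      rw [mul_div_assoc', div_le_one (by positivity)]
      exact h3n) (by field_simp) (by
      rw [div_mul_eq_mul_div, div_le_iff₀ (by positivity)]
      have e1 : (n : ℝ) * (9 * (m * u * (111 + 3 * B (1 / 4)))) = n * u * (C * m) := by rw [hC]; ring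
      have e2 : ε * n * (u * ℓ) = n * u * (ε * ℓ) := by ring
      rw [e1, e2]
      gcongr)
  intro h0
  apply h1
  rw [scale h.slow.1]
  have e : (1 / 2 + y * I + u * 1 : ℂ) = 1 / 2 + u + y * I := by ring
  rw [e, h0, mul_zero]

/-- the scale of the saddle point -/
lemma exists_scale {B : ℝ → ℝ} {θ κ ρ0 : ℝ} (hκ0 : 0 < κ) (hρ0 : 1 / 2 < ρ0) (hρ2 : ρ0 ≤ 2)
    (hκ : κ * ρ0 < 2) {M2 : ℝ} (hM2 : 1 ≤ M2) : ∃ M : ℝ, 1 ≤ M ∧ ∀ (m : ℕ) (N : ℝ) (μ : Fin m → ℂ)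
      (X L : ℂ → ℂ), UL m B N θ μ X L → ∀ (n : ℕ) (y : ℝ), M * m ≤ n →
      Real.log (W355.UN.cond N μ y) ≤ κ * n → ∃ S σ : ℝ, 1 ≤ S ∧ 0 < σ ∧ σ ≤ 1 ∧ (σ = 1 ∨ S = 1) ∧
        ρ0 ≤ σ * S ∧ σ * (S * ell N μ y S) = n ∧ M2 * m ≤ ell N μ y S := by
  obtain ⟨S1, hS1⟩ : ∃ S1 : ℝ, S1 = 2 * Real.exp (2 * M2 + 10) := ⟨_, rfl⟩
  have hS10 : 1 ≤ S1 := by
    have : 1 ≤ Real.exp (2 * M2 + 10) := Real.one_le_exp (by linarith)
    linarith
  obtain ⟨g, hg⟩ : ∃ g : ℝ, g = 1 - ρ0 * κ / 2 := ⟨_, rfl⟩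
  have hg0 : 0 < g := by rw [hg]; linarith
  refine ⟨max (M2 * S1) (27 / g), le_trans ?_ (le_max_left _ _), ?_⟩
  · nlinarith
  intro m N μ X L h n y hMn hc
  have hm : (1 : ℝ) ≤ m := by exact_mod_cast h.hm
  have hm1 : M2 * S1 * m ≤ n := le_trans (by gcongr; exact le_max_left _ _) hMn
  have hm2 : 27 * m ≤ g * n := by
    have h1 : 27 / g * m ≤ n := le_trans (by gcongr; exact le_max_right _ _) hMn
    rw [div_mul_eq_mul_div, div_le_iff₀ hg0] at h1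
    linarith
  have hn1 : M2 * m ≤ n := by
    refine le_trans ?_ hm1
    have : M2 * m * 1 ≤ M2 * m * S1 := by gcongr
    linarith
  have hn0 : (0 : ℝ) < n := by nlinarith
  have hle := ell_le h.hN h.re_le y
  have hℓ1 : ρ0 * (ell N μ y 1 + 6 * m) < n := by
    have h1 : ell N μ y 1 + 6 * m ≤ κ * n / 2 + 13 * m := by linarith
    have h2 : ρ0 * (ell N μ y 1 + 6 * m) ≤ ρ0 * (κ * n / 2 + 13 * m) := by gcongr
    have h3 : ρ0 * (13 * m) ≤ 26 * m := by nlinarith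
    have h4 : ρ0 * (κ * n / 2 + 13 * m) = n - g * n + ρ0 * (13 * m) := by rw [hg]; ring
    linarith
  rcases le_or_gt (n : ℝ) (ell N μ y 1) with hA | hA
  · have hℓp : 0 < ell N μ y 1 := by linarith
    refine ⟨1, n / ell N μ y 1, le_rfl, div_pos hn0 hℓp, ?_, Or.inr rfl, ?_, ?_, hn1.trans hA⟩
    · rw [div_le_one (by linarith)]
      exact hA
    · rw [mul_one, le_div_iff₀ (by linarith)]
      nlinarith
    · have : ell N μ y 1 ≠ 0 := by linarith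
      field_simp
  · obtain ⟨S3, hS3⟩ : ∃ S3 : ℝ, S3 = 2 * Real.exp (2 * 1 + 10) + n := ⟨_, rfl⟩
    have hS31 : 1 ≤ S3 := by
      have : 1 ≤ Real.exp (2 * 1 + 10) := Real.one_le_exp (by norm_num)
      rw [hS3]
      linarith
    have hge3 : (n : ℝ) ≤ S3 * ell N μ y S3 := by
      have h1 := ell_ge_of h.re_le (y := y) (N := N) (r := 1) hS31 (by rw [hS3]; linarith)
      have h2 : 0 ≤ Real.log N := Real.log_nonneg h.hN
      have h3 : 1 ≤ ell N μ y S3 := by nlinarith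
      have h4 : (n : ℝ) ≤ S3 := by
        rw [hS3]
        have := Real.exp_pos (2 * 1 + 10)
        linarith
      nlinarith
    have hcont : ContinuousOn (fun S => S * ell N μ y S) (Icc 1 S3) := by
      apply ContinuousOn.mul continuousOn_id
      exact (ell_cont h y).mono fun S hS => hS.1
    obtain ⟨S, hS, hSn⟩ := intermediate_value_Icc hS31 hcont
      (show (n : ℝ) ∈ Icc _ _ from ⟨by simpa using hA.le, hge3⟩)
    have hSn' : S * ell N μ y S = n := hSn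
    refine ⟨S, 1, hS.1, one_pos, le_rfl, Or.inl rfl, ?_, by rw [one_mul]; exact hSn', ?_⟩
    · rw [one_mul]
      by_contra hlt
      push Not at hlt
      have h1 := ell_lip h y le_rfl hS.1
      have h2 : 6 * (m : ℝ) / 1 * (S - 1) ≤ 6 * m := by
        rw [div_one]
        nlinarith
      have h3 : S * ell N μ y S ≤ S * (ell N μ y 1 + 6 * m) := by
        apply mul_le_mul_of_nonneg_left _ (by linarith [hS.1])
        linarith
      have h4 : 0 ≤ ell N μ y 1 + 6 * m := by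
        by_contra hneg
        push Not at hneg
        have : S * (ell N μ y 1 + 6 * m) < 0 := mul_neg_of_pos_of_neg (by linarith [hS.1]) hneg
        linarith
      have h5 : S * (ell N μ y 1 + 6 * m) ≤ ρ0 * (ell N μ y 1 + 6 * m) := by gcongr
      linarith
    · rcases le_or_gt S1 S with hc1 | hc1
      · have h1 := ell_ge_of h.re_le (y := y) (N := N) (r := M2) hS.1 (by rw [hS1] at hc1; linarith)
        have h2 : 0 ≤ Real.log N := Real.log_nonneg h.hN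
        linarith
      · by_contra hlt
        push Not at hlt
        have h1 : S * ell N μ y S < S1 * (M2 * m) := by
          have h2 : S * ell N μ y S < S * (M2 * m) := by
            apply mul_lt_mul_of_pos_left hlt (by linarith [hS.1])
          have h3 : S * (M2 * m) ≤ S1 * (M2 * m) := by gcongr
          linarith
        rw [hSn'] at h1
        linarith

/-- **Main theorem.**  For every `κ` with `κ (1/2 + θ) < 2` and every L-function in the class `UL` of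
degree `m`: if `n ≥ M m`, all zeros of the `n`-th derivative at heights where the analytic conductor is
at most `e^{κ n}` are simple and on the line. -/
theorem main {B : ℝ → ℝ} (hB : ∀ ρ, 0 ≤ B ρ) {θ κ : ℝ} (hθ0 : 0 ≤ θ) (hθ1 : θ ≤ 1) (hκ0 : 0 < κ)
    (hκ : κ * (1 / 2 + θ) < 2) : ∃ M : ℝ, 1 ≤ M ∧ ∀ (m : ℕ) (N : ℝ) (μ : Fin m → ℂ)
      (X L : ℂ → ℂ), UL m B N θ μ X L → ∀ n : ℕ, M * m ≤ n → ∀ s : ℂ,
      Real.log (W355.UN.cond N μ s.im) ≤ κ * n → iteratedDeriv n X s = 0 →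
        s.re = 1 / 2 ∧ iteratedDeriv (n + 1) X s ≠ 0 := by
  obtain ⟨g, hg⟩ : ∃ g : ℝ, g = 2 / κ - (1 / 2 + θ) := ⟨_, rfl⟩
  have hκg : κ * g = 2 - κ * (1 / 2 + θ) := by
    rw [hg, mul_sub]
    congr 1
    field_simp
  have hg0 : 0 < g := by
    by_contra hneg
    push Not at hneg
    have : κ * g ≤ 0 := mul_nonpos_of_nonneg_of_nonpos hκ0.le hneg
    linarith
  obtain ⟨τ, hτ⟩ : ∃ τ : ℝ, τ = min (g / 2) (1 / 4) := ⟨_, rfl⟩
  have hτ0 : 0 < τ := by rw [hτ]; exact lt_min (by linarith) (by norm_num)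
  have hτ1 : τ ≤ g / 2 := by rw [hτ]; exact min_le_left _ _
  have hτ2 : τ ≤ 1 / 4 := by rw [hτ]; exact min_le_right _ _
  obtain ⟨ρ0, hρ0⟩ : ∃ ρ0 : ℝ, ρ0 = 1 / 2 + θ + τ := ⟨_, rfl⟩
  have hκρ : κ * ρ0 < 2 := by
    have h1 : κ * τ ≤ κ * (g / 2) := by gcongr
    rw [hρ0]
    nlinarith
  obtain ⟨M1, hM1, H1⟩ := near (a := τ / 8) (δ := τ / 4) (by linarith) (by linarith) (by linarith)
    (by linarith) (hB (τ / 4))
  obtain ⟨M3, hM3, H3⟩ := rightUL (hB (1 / 4))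
  obtain ⟨M2, hM2⟩ : ∃ M2 : ℝ, M2 = 28 + 2 * M1 + 2 * M3 := ⟨_, rfl⟩
  obtain ⟨M4, hM4, H4⟩ := exists_scale (B := B) (θ := θ) hκ0 (ρ0 := ρ0) (by linarith) (by linarith) hκρ
    (M2 := M2) (by linarith)
  refine ⟨M4 + M1 + M3, by linarith, ?_⟩
  intro m N μ X L h n hn s hs hz
  have hm : (1 : ℝ) ≤ m := by exact_mod_cast h.hm
  have hn4 : M4 * m ≤ n := by nlinarith
  have hn1 : M1 * m ≤ n := by nlinarith
  have hn3 : M3 * m ≤ n := by nlinarith
  obtain ⟨S, σ, hS, hσ, hσ1, hor, hρ, hSn, hMℓ⟩ := H4 m N μ X L h n s.im hn4 hs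
  obtain ⟨ℓ, hℓ⟩ : ∃ ℓ : ℝ, ℓ = ell N μ s.im S := ⟨_, rfl⟩
  rw [← hℓ] at hSn hMℓ
  have hσ2 : 1 / 2 ≤ σ * (1 - τ / 8) := by
    rcases hor with h1 | h1
    · rw [h1]; linarith
    · rw [h1, mul_one] at hρ
      nlinarith
  have hσ3 : 1 / 2 ≤ σ := by nlinarith
  have hreg : 1 / 2 + θ + τ / 4 ≤ σ * S * (1 - τ / 8) := by
    have h1 : ρ0 * (1 - τ / 8) ≤ σ * S * (1 - τ / 8) := by
      apply mul_le_mul_of_nonneg_right hρ
      linarith
    have h2 : ρ0 ≤ 2 := by linarith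
    nlinarith
  have hMS : M1 * (m * S) ≤ n := by
    rw [← hSn]
    have h1 : 2 * M1 * m ≤ ℓ := le_trans (by gcongr; linarith) hMℓ
    have h2 : M1 * m ≤ σ * ℓ := by nlinarith
    nlinarith
  -- right of the line
  have hright : ∀ u : ℝ, 4 * (σ * S) < u → iteratedDeriv n X (1 / 2 + u + s.im * I) ≠ 0 := by
    intro u hu
    have hSu : S ≤ u := by nlinarith
    have hu0 : 0 ≤ u := by linarith
    have h1 := ell_mono (N := N) h.re_le s.im hS hSu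
    rw [← hℓ] at h1
    have h28 : 28 * (m : ℝ) ≤ ℓ := le_trans (by gcongr; linarith) hMℓ
    have h2 : 3 / 4 * ℓ ≤ ell N μ s.im u := by linarith
    have hℓ0 : 0 < ℓ := by linarith
    refine H3 m N θ μ X L h n s.im u (by linarith) ?_ ?_ hn3
    · calc 3 * (n : ℝ) = 4 * (σ * S) * (3 / 4 * ℓ) := by rw [← hSn]; ring
        _ ≤ u * ell N μ s.im u := by gcongr
    · have h3 : 2 * M3 * m ≤ ℓ := le_trans (by gcongr; linarith) hMℓ
      nlinarith
  obtain ⟨x, hx⟩ : ∃ x : ℝ, x = s.re - 1 / 2 := ⟨_, rfl⟩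
  have hpt : (1 / 2 + x + s.im * I : ℂ) = s := by
    apply Complex.ext <;> simp [hx]
  rcases le_or_gt |x| (4 * (σ * S)) with hc | hc
  · obtain ⟨h1, h2⟩ := H1 m N θ μ X L h n s.im S σ hS hσ hσ1 hσ2 hreg (by linarith) (by rw [← hℓ]; exact hSn)
      hn1 hMS x hc (by rw [hpt]; exact hz)
    rw [hpt] at h2
    exact ⟨by linarith, h2⟩
  · exfalso
    rcases le_total 0 x with hx0 | hx0
    · rw [abs_of_nonneg hx0] at hc
      exact hright x hc (by rw [hpt]; exact hz)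
    · rw [abs_of_nonpos hx0] at hc
      obtain ⟨e, he, hfe⟩ := h.fe
      have h1 := itd_fe h.slow.1 he hfe n hz
      refine hright (-x) hc ?_
      have e1 : (1 / 2 + ((-x : ℝ) : ℂ) + s.im * I : ℂ) = 1 - conj s := by
        apply Complex.ext
        · simp [hx]; ring
        · simp
      rw [e1]
      exact h1

end Pool.Agent.U4.UH
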