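import Pool.Agent.U4.UH.Ell

/-!
# Zeros of the derivatives of products of Dirichlet L-functions: location and spacing, uniformly
-/

set_option autoImplicit false

open Complex Filter Topology Set
open scoped ComplexConjugate

namespace Pool.Agent.U4.UH

open Pool.Agent.W355.UN Pool.Agent.W169.HF H353.E

/-- the zeros of the `n`-th derivative at the heights `y` with `A (1 + |y|)^m ≤ exp (κ n)` are simple, on the
line, and equally spaced -/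
structure EqspD (κ ε : ℝ) (m : ℕ) (A : ℝ) (Λ : ℂ → ℂ) (n : ℕ) : Prop where
  zeros : ∀ s : ℂ, Real.log (A * (1 + |s.im|) ^ m) ≤ κ * n → iteratedDeriv n Λ s = 0 →
    s.re = 1 / 2 ∧ iteratedDeriv (n + 1) Λ s ≠ 0
  next : ∀ y : ℝ, Real.log (A * (1 + |y|) ^ m) ≤ κ * n → ∃ y' : ℝ, y ≤ y' ∧
    (y' - y) * Real.log (A * (n / m + |y|) ^ m) / (2 * Real.pi) ≤ 1 + ε ∧
      iteratedDeriv n Λ (1 / 2 + y' * I) = 0
  gap : ∀ y : ℝ, Real.log (A * (1 + |y|) ^ m) ≤ κ * n → iteratedDeriv n Λ (1 / 2 + y * I) = 0 →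
    ∃ y' : ℝ, y < y' ∧ iteratedDeriv n Λ (1 / 2 + y' * I) = 0 ∧
      (∀ v : ℝ, y < v → v < y' → iteratedDeriv n Λ (1 / 2 + v * I) ≠ 0) ∧
      |(y' - y) * Real.log (A * (n / m + |y|) ^ m) / (2 * Real.pi) - 1| ≤ ε

/-- **Theorem for one L-function of the class**, uniform -/
theorem class_eqspD {B : ℝ → ℝ} (hB : ∀ ρ, 0 ≤ B ρ) {θ κ ε : ℝ} (hθ0 : 0 ≤ θ) (hθ1 : θ ≤ 1)
    (hκ : κ * (1 / 2 + θ) < 2) (hε : 0 < ε) : ∃ M : ℝ, 1 ≤ M ∧ ∀ (m : ℕ) (A : ℝ) (μ : Fin m → ℂ)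
      (X L : ℂ → ℂ), UL m B A θ μ X L → ∑ j, Real.log (1 + ‖μ j‖) ≤ (m : ℝ) → ∀ n : ℕ, M * m ≤ n →
      EqspD κ ε m A X n := by
  obtain ⟨κ0, hκ0, hκ01, hκ02⟩ : ∃ κ0 : ℝ, max κ 0 < κ0 ∧ κ0 * (1 / 2 + θ) < 2 ∧ 0 < κ0 := by
    have h1 : max κ 0 * (1 / 2 + θ) < 2 := by
      rcases max_cases κ 0 with ⟨h, -⟩ | ⟨h, -⟩
      · rw [h]; exact hκ
      · rw [h]; norm_num
    have h2 : (0 : ℝ) < 1 / 2 + θ := by linarith
    have h3 : max κ 0 < 2 / (1 / 2 + θ) := by rwa [lt_div_iff₀ h2]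
    obtain ⟨κ0, h4, h5⟩ := exists_between h3
    exact ⟨κ0, h4, by rwa [lt_div_iff₀ h2] at h5, lt_of_le_of_lt (le_max_right _ _) h4⟩
  have hκlt : κ < κ0 := lt_of_le_of_lt (le_max_left _ _) hκ0
  obtain ⟨ε1, hε1⟩ : ∃ ε1 : ℝ, ε1 = min (ε / 8) (1 / 8) := ⟨_, rfl⟩
  have hε10 : 0 < ε1 := by rw [hε1]; exact lt_min (by linarith) (by norm_num)
  have hε13 : ε1 ≤ ε / 8 := by rw [hε1]; exact min_le_left _ _
  have hε14 : ε1 ≤ 1 / 8 := by rw [hε1]; exact min_le_right _ _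
  obtain ⟨M1, hM1, H1⟩ := main hB hθ0 hθ1 hκ02 hκ01
  obtain ⟨M2, hM2, H2⟩ := main_gap hB hθ0 hθ1 hκ02 hκ01 hε10
  obtain ⟨M3, hM3, H3⟩ := ell_abs (ε := ε1 / 4) (by linarith)
  obtain ⟨M4, hM4⟩ : ∃ M4 : ℝ, M4 = Real.exp (8 / ε1) + 2 / (κ0 - κ) := ⟨_, rfl⟩
  have hd0 : 0 < κ0 - κ := by linarith
  have hM41 : 2 / (κ0 - κ) ≤ M4 := by rw [hM4]; linarith [Real.exp_pos (8 / ε1)]
  have hM42 : Real.exp (8 / ε1) ≤ M4 := by
    have : 0 < 2 / (κ0 - κ) := by positivity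
    rw [hM4]; linarith
  have hM43 : 0 < M4 := (Real.exp_pos _).trans_le hM42
  refine ⟨2 * (M1 + M2 + M3) + M4, by linarith, ?_⟩
  intro m A μ X L hul hμ n hn
  have hm1 : 1 ≤ m := hul.hm
  have hmR : (1 : ℝ) ≤ m := by exact_mod_cast hm1
  have hA := hul.hN
  have hn1 : M1 * (m : ℝ) ≤ n := by nlinarith
  have hn2 : M2 * (m : ℝ) ≤ n := by nlinarith
  have hn3 : M3 * (m : ℝ) ≤ n := by nlinarith
  have hn4 : M4 * m ≤ n := by nlinarith
  have hcond : ∀ y : ℝ, Real.log (A * (1 + |y|) ^ m) ≤ κ * n →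
      Real.log (W355.UN.cond A μ y) ≤ κ0 * n := by
    intro y hy
    have h1 := cond_close hA hμ y
    have h2 : (m : ℝ) ≤ (κ0 - κ) * n := by
      have h3 : 2 / (κ0 - κ) * m ≤ n := le_trans (by gcongr) hn4
      rw [div_mul_eq_mul_div, div_le_iff₀ hd0] at h3
      linarith
    linarith
  -- the slope
  have hslope : ∀ y S σ : ℝ, 1 ≤ S → 1 / 2 ≤ σ → σ ≤ 1 → σ * (S * ell A μ y S) = n →
      (m : ℝ) ≤ ell A μ y S →
      (1 - ε1) * (Real.log (A * (n / m + |y|) ^ m) / 2) ≤ ell A μ y S ∧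
      ell A μ y S ≤ (1 + ε1) * (Real.log (A * (n / m + |y|) ^ m) / 2) := by
    intro y S σ hS hσ hσ1 hSn hmℓ
    obtain ⟨h1, h2⟩ := H3 m A μ hm1 hA hul.re_le n hn3 y S σ hS hσ hσ1 hSn hmℓ
    have hm0' : (0 : ℝ) < m := by linarith
    obtain ⟨R, hR⟩ : ∃ R : ℝ, R = n / (m : ℝ) := ⟨_, rfl⟩
    have hR1 : 1 ≤ R := by
      rw [hR, le_div_iff₀ hm0']
      linarith [hn3, mul_le_mul_of_nonneg_right hM3 (show (0 : ℝ) ≤ (m : ℝ) by positivity)]
    have hyy := abs_nonneg y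
    have h3 := abs_le.1 (scond_close hA hμ (R := R) (y := y) hR1)
    rw [← hR] at h1 h2 ⊢
    obtain ⟨Y, hY⟩ : ∃ Y : ℝ, Y = Real.log (A * (R + |y|) ^ m) := ⟨_, rfl⟩
    rw [← hY] at h3 ⊢
    have hA0 : 0 < A := by linarith
    have e1 : Y = Real.log A + (m : ℝ) * Real.log (R + |y|) := by
      rw [hY, Real.log_mul hA0.ne' (pow_pos (by linarith) _).ne', Real.log_pow]
    have hm0 : (0 : ℝ) ≤ (m : ℝ) := by positivity
    -- Y is large compared with m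
    have h8 : 8 / ε1 ≤ Real.log (R + |y|) := by
      rw [Real.le_log_iff_exp_le (by linarith)]
      have h9 : M4 ≤ R := by rw [hR, le_div_iff₀ hm0']; exact hn4
      linarith
    have h9 : 0 ≤ Real.log A := Real.log_nonneg hA
    have h10 : 8 * (m : ℝ) ≤ ε1 * Y := by
      have h11 : (m : ℝ) * (8 / ε1) ≤ Y := by
        rw [e1]
        have := mul_le_mul_of_nonneg_left h8 hm0
        linarith
      have h12 := mul_le_mul_of_nonneg_left h11 hε10.le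
      have e3 : ε1 * ((m : ℝ) * (8 / ε1)) = 8 * (m : ℝ) := by
        field_simp
      linarith
    obtain ⟨Z, hZ⟩ : ∃ Z : ℝ, Z = Real.log (scond A μ R y) := ⟨_, rfl⟩
    rw [← hZ] at h1 h2 h3
    have h13 := abs_le.1 h2
    have h14 : Z ≤ Y + (m : ℝ) := by linarith [h3.2]
    have h15 : Y - 2 * (m : ℝ) ≤ Z := by linarith [h3.1]
    have hY0 : 0 ≤ Y := by
      by_contra hneg
      push Not at hneg
      nlinarith
    have h16 : ε1 * Y ≤ Y / 8 := by nlinarith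
    constructor
    · nlinarith [h13.1]
    · nlinarith [h13.2]
  refine ⟨?_, ?_, ?_⟩
  · intro s hs h0
    exact H1 _ _ _ _ _ hul n hn1 s (hcond _ hs) h0
  · intro y hy
    obtain ⟨S, σ, hS, hσ, hσ1, hSn, hmℓ, ⟨y', h4, h5, h6⟩, -⟩ := H2 _ _ _ _ _ hul n hn2 y (hcond y hy)
    obtain ⟨hlo, hup⟩ := hslope y S σ hS hσ hσ1 hSn hmℓ
    refine ⟨y', h4, ?_, h6⟩
    have h7 := alg_up hε10.le (by linarith) (d := y' - y) (by linarith) hlo h5
    have e : (y' - y) * Real.log (A * (n / m + |y|) ^ m) / (2 * Real.pi) =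
        (y' - y) * (Real.log (A * (n / m + |y|) ^ m) / 2) / Real.pi := by
      have := Real.pi_pos.ne'
      field_simp
    rw [e]
    linarith
  · intro y hy h0
    obtain ⟨S, σ, hS, hσ, hσ1, hSn, hmℓ, -, hg⟩ := H2 _ _ _ _ _ hul n hn2 y (hcond y hy)
    obtain ⟨hlo, hup⟩ := hslope y S σ hS hσ hσ1 hSn hmℓ
    obtain ⟨y', h4, h5, h6, h7⟩ := hg h0
    refine ⟨y', h4, h5, h6, ?_⟩
    have h8 := abs_le.1 h7
    have h9 := alg_up hε10.le (by linarith) (d := y' - y) (by linarith) hlo (by linarith [h8.2])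
    have h10 := alg_lo hε10.le (d := y' - y) (by linarith) hup (by linarith [h8.1])
    have e : (y' - y) * Real.log (A * (n / m + |y|) ^ m) / (2 * Real.pi) =
        (y' - y) * (Real.log (A * (n / m + |y|) ^ m) / 2) / Real.pi := by
      have := Real.pi_pos.ne'
      field_simp
    rw [e, abs_le]
    constructor <;> linarith

/-! ### Products of Dirichlet L-functions -/

lemma log_one_add_a {a : ℝ} (ha : a = 0 ∨ a = 1) : Real.log (1 + ‖(-(a : ℂ))‖) ≤ 1 := by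
  rcases ha with rfl | rfl
  · simp
  · rw [norm_neg, Complex.ofReal_one, norm_one]
    have := Real.log_two_lt_d9
    norm_num
    linarith

theorem prod_ul : ∀ (m : ℕ) (q : Fin (m + 1) → ℕ) [∀ i, NeZero (q i)] (χ : ∀ i, DirichletCharacter ℂ (q i)),
    (∀ i, (χ i).IsPrimitive) → ∃ (μ : Fin (m + 1) → ℂ) (L : ℂ → ℂ),
      UL (m + 1) Bst (∏ i, (q i : ℝ)) 0 μ (fun s => ∏ i, LamQ (χ i) s) L ∧
        ∑ j, Real.log (1 + ‖μ j‖) ≤ ((m + 1 : ℕ) : ℝ) := by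
  intro m
  induction m with
  | zero =>
    intro q _ χ hχ
    obtain ⟨a, L, ha, h⟩ := all_ul (q 0) (χ 0) (hχ 0)
    refine ⟨fun _ => -(a : ℂ), L, ?_, ?_⟩
    · have e1 : (fun s => ∏ i, LamQ (χ i) s) = LamQ (χ 0) := by
        funext s
        exact Fin.prod_univ_one _
      have e2 : (∏ i, (q i : ℝ)) = (q 0 : ℝ) := Fin.prod_univ_one _
      rw [e1, e2]
      exact h
    · have := log_one_add_a ha
      simpa using this
  | succ m ih =>
    intro q _ χ hχ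
    obtain ⟨μ1, L1, h1, h2⟩ := ih (fun i => q i.castSucc) (fun i => χ i.castSucc) fun i => hχ _
    obtain ⟨a, L, ha, h⟩ := all_ul (q (Fin.last (m + 1))) (χ (Fin.last (m + 1))) (hχ _)
    refine ⟨Fin.append μ1 (fun _ => -(a : ℂ)), fun s => L1 s * L s, ?_, ?_⟩
    · have h3 := h1.mul h
      have e1 : (fun s => ∏ i, LamQ (χ i) s) =
          fun s => (∏ i : Fin (m + 1), LamQ (χ i.castSucc) s) * LamQ (χ (Fin.last (m + 1))) s := by
        funext s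
        exact Fin.prod_univ_castSucc _
      have e2 : (∏ i, (q i : ℝ)) = (∏ i : Fin (m + 1), (q i.castSucc : ℝ)) * (q (Fin.last (m + 1)) : ℝ) :=
        Fin.prod_univ_castSucc _
      rw [e1, e2]
      exact h3
    · rw [Fin.sum_univ_add]
      simp only [Fin.append_left, Fin.append_right]
      have h3 := log_one_add_a ha
      have h4 : ∑ _x : Fin 1, Real.log (1 + ‖(-(a : ℂ))‖) = Real.log (1 + ‖(-(a : ℂ))‖) :=
        Fin.sum_univ_one _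
      rw [h4]
      push_cast at h2 ⊢
      linarith

/-- **Products of completed Dirichlet L-functions** -/
theorem prod_eqsp {κ ε : ℝ} (hκ : κ < 4) (hε : 0 < ε) : ∃ M : ℝ, 1 ≤ M ∧ ∀ (m : ℕ) (q : Fin (m + 1) → ℕ)
    [∀ i, NeZero (q i)] (χ : ∀ i, DirichletCharacter ℂ (q i)), (∀ i, (χ i).IsPrimitive) →
      ∀ n : ℕ, M * ((m + 1 : ℕ) : ℝ) ≤ n →
        EqspD κ ε (m + 1) (∏ i, (q i : ℝ)) (fun s => ∏ i, LamQ (χ i) s) n := by
  obtain ⟨M, hM, H⟩ := class_eqspD (B := Bst) Bst_nonneg (θ := 0) le_rfl zero_le_one (κ := κ) (by linarith) hε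
  refine ⟨M, hM, ?_⟩
  intro m q _ χ hχ n hn
  obtain ⟨μ, L, h1, h2⟩ := prod_ul m q χ hχ
  exact H _ _ _ _ _ h1 h2 n hn

end Pool.Agent.U4.UH
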