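import Pool.Agent.H986R2.K4.RT
import Pool.Agent.H986R2.K4.Lap

set_option autoImplicit false

/-!
# Quantitative version of `Pool.Agent.H986R2.K4.RT`: the ratio of consecutive half Cauchy integrals

The proof is that of `Pool.Agent.H986R2.K4.rt` with the error terms kept.
-/

namespace Pool.Agent.U4.UH

open Complex Filter Topology MeasureTheory Set
open Pool.Agent.H986R2.K4
open Pool.Agent.H24R2.DZ (bad hc)

set_option maxHeartbeats 4000000 in
open Pool.Agent.H986R2.K4.RTAux in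
/-- quantitative version of `K4.rt`: the ratio of consecutive half Cauchy integrals is nearly `1` -/
theorem rtq {ε : ℝ} (hε : 0 < ε) (hε1 : ε ≤ 1) : ∀ κ R : ℝ, 0 < κ → κ ≤ 1 / 2 → κ ≤ ε → 3 ≤ R →
    ∃ κ1 η : ℝ, ∃ n0 : ℕ, 0 < κ1 ∧ κ1 ≤ κ / 2 ∧ 0 < η ∧ ∀ (n : ℕ) (F : ℂ → ℂ), n0 ≤ n → QQ κ R n η F →
      ∀ z : ℂ, ‖z‖ ≤ κ1 → hc F (n + 1) z ≠ 0 ∧ ‖hc F (n + 2) z / hc F (n + 1) z - 1‖ ≤ ε := by
  have h := lapQ
  intro κ R hκ0 hκ1 hκε hR
  obtain ⟨d, hdd⟩ : ∃ d, d = κ / 2 / 5 := ⟨_, rfl⟩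
  have hκ : κ = 10 * d := by rw [hdd]; ring
  have hd0 : 0 < d := by rw [hdd]; positivity
  have hd : d ≤ 1 / 20 := by rw [hdd]; linarith
  obtain ⟨d1, d2, d3, d4, d5⟩ := dd hd0 hd
  obtain ⟨η0, c, C, n0, hη0, hcp, hC, hn0, hL⟩ := h (κ / 2) (d ^ 3 / 10) (by positivity)
    (by linarith) (by positivity) (by rw [hκ]; nlinarith)
  rw [← hdd] at hL
  have hδ : 0 < d ^ 2 / 8 := by positivity
  obtain ⟨n1, hn1, hlarge⟩ := large (ε * c) C (d ^ 2 / 8) (by positivity) hδ
  refine ⟨d ^ 3 / 10, min η0 (d ^ 2 / 100), max n0 n1, by positivity, by rw [hκ]; nlinarith,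
    lt_min hη0 (by positivity), ?_⟩
  intro n F hn hN z hz
  have hnn0 : n0 ≤ n := (le_max_left _ _).trans hn
  have hnn1 : n1 ≤ n := (le_max_right _ _).trans hn
  have hn1' : 1 ≤ n := hn0.trans hnn0
  have hnpos : (0 : ℝ) < n := by exact_mod_cast hn1'
  have hη : 0 < min η0 (d ^ 2 / 100) := lt_min hη0 (by positivity)
  have hη1 : min η0 (d ^ 2 / 100) ≤ d ^ 2 / 100 := min_le_right _ _
  have hz50 : ‖z‖ ≤ 1 / 50 := by linarith
  have hz1' := abs_le.1 ((Complex.abs_re_le_norm z).trans hz)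
  have hreg : ∀ w ∈ Metric.ball (z + 1) (κ / 2), 1 - κ ≤ w.re ∧ ‖w‖ ≤ R := by
    intro w hw
    rw [Metric.mem_ball, dist_eq_norm] at hw
    have h1 := abs_le.1 ((Complex.abs_re_le_norm _).trans hw.le)
    rw [Complex.sub_re, Complex.add_re, Complex.one_re] at h1
    refine ⟨by linarith [h1.1, hz1'.1], ?_⟩
    have e : w = (w - (z + 1)) + z + 1 := by ring
    rw [e]
    refine (norm_add_le _ _).trans ?_
    have := norm_add_le (w - (z + 1)) z
    rw [norm_one]
    linarith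
  obtain ⟨w0, hw0, -, hQ1, -, hQ3, hQ4⟩ := hL n hnn0 z F (by
    intro w hw
    obtain ⟨r1, r2⟩ := hreg w hw
    obtain ⟨r3, r4⟩ := hN.far w r1 r2
    refine ⟨hN.diff w, r3, ?_⟩
    exact r4.trans (by gcongr; exact min_le_left _ _))
  obtain ⟨l1, l2⟩ := hlarge n hnn1
  obtain ⟨Q0, hQ0⟩ : ∃ Q0, Q0 = ‖F w0 / (w0 - z) ^ (n + 1)‖ := ⟨_, rfl⟩
  rw [← hQ0] at hQ1 hQ3 hQ4
  have hw0b : w0 ∈ Metric.ball (z + 1) (κ / 2) := by
    rw [Metric.mem_ball, dist_eq_norm]
    linarith
  have hF1 : F (z + 1) ≠ 0 := (hN.far _ (hreg _ (Metric.mem_ball_self (by positivity))).1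
    (hreg _ (Metric.mem_ball_self (by positivity))).2).1
  have hQ0pos : 0 < Q0 := by
    refine lt_of_lt_of_le ?_ hQ1
    have := norm_pos_iff.2 hF1
    positivity
  have hFQ : ‖F (z + 1)‖ * Real.exp (-(d ^ 2 / 5 * n)) ≤ Real.exp (-(d ^ 2 / 8 * n)) * Q0 := by
    have e1 : ‖F (z + 1)‖ * Real.exp (-(d ^ 2 / 5 * n)) =
      Real.exp (-((d ^ 2 / 5 - d ^ 3 / 10) * n)) * (Real.exp (-(d ^ 3 / 10 * n)) * ‖F (z + 1)‖) := by
      rw [← mul_assoc, ← Real.exp_add, mul_comm]
      congr 2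
      ring
    rw [e1]
    have e2 : Real.exp (-((d ^ 2 / 5 - d ^ 3 / 10) * n)) ≤ Real.exp (-(d ^ 2 / 8 * n)) :=
      Real.exp_le_exp.2 (by
        have h9 : d ^ 2 / 8 * n ≤ (d ^ 2 / 5 - d ^ 3 / 10) * n :=
          mul_le_mul_of_nonneg_right (by linarith) hnpos.le
        linarith)
    gcongr
  have hvlow : ∀ y : ℝ, |y| ≤ d → 1 / 2 ≤ ‖w0 + I * y - z‖ := by
    intro y hy
    have h1 : (w0 + I * y - z).re = 1 + (w0 - (z + 1)).re := by simp; ring
    have h2 := abs_le.1 ((Complex.abs_re_le_norm _).trans hw0)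
    have h3 := Complex.abs_re_le_norm (w0 + I * y - z)
    rw [h1] at h3
    have h4 := le_abs_self (1 + (w0 - (z + 1)).re)
    linarith [h2.1]
  have hw0low : 49 / 50 ≤ ‖w0 - z‖ := by
    have h1 : (w0 - z).re = 1 + (w0 - (z + 1)).re := by simp; ring
    have h2 := abs_le.1 ((Complex.abs_re_le_norm _).trans hw0)
    have h3 := Complex.abs_re_le_norm (w0 - z)
    rw [h1] at h3
    have h4 := le_abs_self (1 + (w0 - (z + 1)).re)
    linarith [h2.1]
  have hw0ne : w0 - z ≠ 0 := by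
    rw [← norm_pos_iff]
    linarith
  obtain ⟨lam, hlam⟩ : ∃ lam : ℂ, lam = 1 / (w0 - z) := ⟨_, rfl⟩
  have hlamn : ‖lam‖ ≤ 50 / 49 := by
    rw [hlam, norm_div, norm_one, div_le_div_iff₀ (by linarith) (by norm_num)]
    linarith
  have hcirc : ∀ φ : ℝ, 1 / 2 ≤ ‖cexp (I * φ) - z‖ := by
    intro φ
    have := norm_sub_norm_le (cexp (I * φ)) z
    have hnm : ‖cexp (I * φ)‖ = 1 := by
      rw [mul_comm]; exact Complex.norm_exp_ofReal_mul_I φ
    rw [hnm] at this
    linarith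
  -- first integral
  have hE0 : 0 ≤ Real.exp (-(d ^ 2 / 8 * n)) * Q0 := by positivity
  have D1 := deform (n := n) (F := F) (k := fun _ => 1) (z := z) (w0 := w0)
    (M := 2 * (Real.exp (-(d ^ 2 / 8 * n)) * Q0)) hN.diff hd0 hd hz50 (by linarith) (by positivity)
    (fun w _ => differentiableAt_const _)
    (fun φ h1 h2 => by
      rw [mul_one]
      refine (arcb hκ hd0 hd hR hη hη1 hn1' hN hz h1 h2).trans ?_
      gcongr)
    (fun σ hσ w hw => by
      rw [mul_one]
      refine (segb hκ hd0 hd hR hη hη1 hn1' hN hz hw0 hσ hw).trans ?_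
      gcongr)
  simp only [mul_one] at D1
  -- second integral
  have hkb : ∀ w : ℂ, 1 / 2 ≤ ‖w - z‖ → ‖1 / (w - z) - lam‖ ≤ 6 := by
    intro w hw
    refine (norm_sub_le _ _).trans ?_
    rw [norm_div, norm_one]
    have : 1 / ‖w - z‖ ≤ 2 := by
      rw [div_le_iff₀ (by linarith)]
      linarith
    linarith
  have hseglow : ∀ σ : ℝ, (σ = 1 ∨ σ = -1) →
      ∀ w ∈ segment ℝ (w0 + I * ((σ * d : ℝ) : ℂ)) (cexp (I * ((σ * d : ℝ) : ℂ))),
      1 / 2 ≤ ‖w - z‖ := by
    intro σ hσ w hw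
    have hσa : |σ * d| ≤ d := by
      rcases hσ with rfl | rfl
      · rw [one_mul, abs_of_pos hd0]
      · rw [neg_one_mul, abs_neg, abs_of_pos hd0]
    have b1 : w0 + I * ((σ * d : ℝ) : ℂ) ∈ Metric.ball (1 : ℂ) (2 / 5) := by
      rw [Metric.mem_ball, dist_eq_norm]
      have e : w0 + I * ((σ * d : ℝ) : ℂ) - 1 = (w0 - (z + 1)) + z + I * ((σ * d : ℝ) : ℂ) := by ring
      rw [e]
      refine (norm_add_le _ _).trans_lt ?_
      have := norm_add_le (w0 - (z + 1)) z
      rw [norm_mul, Complex.norm_I, one_mul, Complex.norm_real, Real.norm_eq_abs]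
      linarith
    have b2 : cexp (I * ((σ * d : ℝ) : ℂ)) ∈ Metric.ball (1 : ℂ) (2 / 5) := by
      rw [Metric.mem_ball, dist_eq_norm]
      have := Real.norm_exp_I_mul_ofReal_sub_one_le (x := σ * d)
      rw [Real.norm_eq_abs] at this
      linarith
    have hwb := (convex_ball (1 : ℂ) (2 / 5)).segment_subset b1 b2 hw
    rw [Metric.mem_ball, dist_eq_norm] at hwb
    have h1 : ‖(1 : ℂ)‖ ≤ ‖w - z‖ + ‖w - 1‖ + ‖z‖ := by
      have e : (1 : ℂ) = (w - z) + (-(w - 1)) + z := by ring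
      calc ‖(1 : ℂ)‖ = ‖(w - z) + (-(w - 1)) + z‖ := by rw [← e]
        _ ≤ ‖(w - z) + (-(w - 1))‖ + ‖z‖ := norm_add_le _ _
        _ ≤ (‖w - z‖ + ‖-(w - 1)‖) + ‖z‖ := by gcongr; exact norm_add_le _ _
        _ = _ := by rw [norm_neg]
    rw [norm_one] at h1
    linarith
  have D2 := deform (n := n) (F := F) (k := fun w => 1 / (w - z) - lam) (z := z) (w0 := w0)
    (M := 12 * (Real.exp (-(d ^ 2 / 8 * n)) * Q0)) hN.diff hd0 hd hz50 (by linarith) (by positivity)
    (fun w hw => by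
      have hne : w - z ≠ 0 := by
        rw [← norm_pos_iff]
        linarith
      exact ((differentiableAt_const _).div (differentiableAt_id.sub_const z) hne).sub_const _)
    (fun φ h1 h2 => by
      rw [norm_mul]
      have a1 := (arcb hκ hd0 hd hR hη hη1 hn1' hN hz h1 h2).trans
        (mul_le_mul_of_nonneg_left hFQ (by norm_num : (0 : ℝ) ≤ 2))
      calc ‖F (cexp (I * φ)) / (cexp (I * φ) - z) ^ (n + 1)‖ * ‖1 / (cexp (I * φ) - z) - lam‖
          ≤ (2 * (Real.exp (-(d ^ 2 / 8 * n)) * Q0)) * 6 := by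
            gcongr
            exact hkb _ (hcirc φ)
        _ = _ := by ring)
    (fun σ hσ w hw => by
      rw [norm_mul]
      have a1 := (segb hκ hd0 hd hR hη hη1 hn1' hN hz hw0 hσ hw).trans
        (mul_le_mul_of_nonneg_left hFQ (by norm_num : (0 : ℝ) ≤ 2))
      calc ‖F w / (w - z) ^ (n + 1)‖ * ‖1 / (w - z) - lam‖
          ≤ (2 * (Real.exp (-(d ^ 2 / 8 * n)) * Q0)) * 6 := by
            gcongr
            exact hkb _ (hseglow σ hσ w hw)
        _ = _ := by ring)
  -- bound of the second vertical integral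
  have hV2 : ‖∫ y in (-d)..d, F (w0 + I * y) / (w0 + I * y - z) ^ (n + 1) *
      (1 / (w0 + I * y - z) - lam)‖ ≤ 3 * (C / n * Q0) := by
    refine (intervalIntegral.norm_integral_le_integral_norm (by linarith)).trans ?_
    have hline : Continuous fun y : ℝ => w0 + I * (y : ℂ) := by fun_prop
    have hcF : Continuous fun y : ℝ => F (w0 + I * (y : ℂ)) := hN.diff.continuous.comp hline
    have hI1 : IntervalIntegrable (fun y : ℝ => ‖F (w0 + I * y) / (w0 + I * y - z) ^ (n + 1)‖ * |y|)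
        volume (-d) d := by
      apply ContinuousOn.intervalIntegrable
      refine ContinuousOn.mul (ContinuousOn.norm (hcF.continuousOn.div ?_ ?_)) continuous_abs.continuousOn
      · exact ((hline.sub continuous_const).pow _).continuousOn
      · intro y hy
        rw [uIcc_of_le (by linarith)] at hy
        apply pow_ne_zero
        rw [← norm_pos_iff]
        linarith [hvlow y (abs_le.2 hy)]
    have hI2 : IntervalIntegrable (fun y : ℝ => ‖F (w0 + I * y) / (w0 + I * y - z) ^ (n + 1) *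
        (1 / (w0 + I * y - z) - lam)‖) volume (-d) d := by
      apply ContinuousOn.intervalIntegrable
      refine ContinuousOn.norm (ContinuousOn.mul (hcF.continuousOn.div ?_ ?_)
        (ContinuousOn.sub (continuousOn_const.div ?_ ?_) continuousOn_const))
      · exact ((hline.sub continuous_const).pow _).continuousOn
      · intro y hy
        rw [uIcc_of_le (by linarith)] at hy
        apply pow_ne_zero
        rw [← norm_pos_iff]
        linarith [hvlow y (abs_le.2 hy)]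
      · exact (hline.sub continuous_const).continuousOn
      · intro y hy
        rw [uIcc_of_le (by linarith)] at hy
        rw [← norm_pos_iff]
        linarith [hvlow y (abs_le.2 hy)]
    have hle : ∀ y ∈ Icc (-d) d,
        ‖F (w0 + I * y) / (w0 + I * y - z) ^ (n + 1) * (1 / (w0 + I * y - z) - lam)‖ ≤
        3 * (‖F (w0 + I * y) / (w0 + I * y - z) ^ (n + 1)‖ * |y|) := by
      intro y hy
      have hv := hvlow y (abs_le.2 hy)
      have hvne : w0 + I * y - z ≠ 0 := by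
        rw [← norm_pos_iff]
        linarith
      have e : 1 / (w0 + I * y - z) - lam = -(I * y) / ((w0 + I * y - z) * (w0 - z)) := by
        rw [hlam, div_sub_div _ _ hvne hw0ne]
        congr 1
        ring
      have e2 : ‖1 / (w0 + I * y - z) - lam‖ ≤ 3 * |y| := by
        rw [e, norm_div, norm_neg, norm_mul, norm_mul, Complex.norm_I, one_mul, Complex.norm_real,
          Real.norm_eq_abs, div_le_iff₀ (by positivity)]
        have : 1 ≤ 3 * (‖w0 + I * y - z‖ * ‖w0 - z‖) := by nlinarith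
        nlinarith [abs_nonneg y]
      rw [norm_mul]
      calc _ ≤ ‖F (w0 + I * y) / (w0 + I * y - z) ^ (n + 1)‖ * (3 * |y|) := by gcongr
        _ = _ := by ring
    refine (intervalIntegral.integral_mono_on (by linarith) hI2 (hI1.const_mul 3) hle).trans ?_
    rw [intervalIntegral.integral_const_mul]
    gcongr
  obtain ⟨I1, hI1⟩ : ∃ I1, I1 = ∫ φ in (-(Real.pi / 2))..(Real.pi / 2),
      F (cexp (I * φ)) / (cexp (I * φ) - z) ^ (n + 1) * cexp (I * φ) := ⟨_, rfl⟩
  obtain ⟨I2, hI2⟩ : ∃ I2, I2 = ∫ φ in (-(Real.pi / 2))..(Real.pi / 2),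
      F (cexp (I * φ)) / (cexp (I * φ) - z) ^ (n + 1) * (1 / (cexp (I * φ) - z) - lam) *
        cexp (I * φ) := ⟨_, rfl⟩
  rw [← hI1] at D1
  rw [← hI2] at D2
  have nI1 : c / (2 * Real.sqrt n) * Q0 ≤ ‖I1‖ := by
    have a1 := norm_sub_norm_le (∫ y in (-d)..d,
      F (w0 + I * y) / (w0 + I * y - z) ^ (n + 1)) I1
    have a1' : ‖(∫ y in (-d)..d,
      F (w0 + I * y) / (w0 + I * y - z) ^ (n + 1)) - I1‖ ≤ 16 * (Real.exp (-(d ^ 2 / 8 * n)) * Q0) := by
      rw [norm_sub_rev]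
      linarith
    have a2 : 16 * (Real.exp (-(d ^ 2 / 8 * n)) * Q0) ≤ c / (2 * Real.sqrt n) * Q0 := by
      have l1' : 32 * Real.exp (-(d ^ 2 / 8 * n)) ≤ c / (2 * Real.sqrt n) := by
        refine l1.trans ?_
        have : ε * c ≤ c := by nlinarith
        gcongr
      calc 16 * (Real.exp (-(d ^ 2 / 8 * n)) * Q0) ≤ (32 * Real.exp (-(d ^ 2 / 8 * n))) * Q0 := by
            linarith
        _ ≤ _ := by gcongr
    have a3 : c / Real.sqrt n * Q0 = 2 * (c / (2 * Real.sqrt n) * Q0) := by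
      have hs : Real.sqrt n ≠ 0 := (Real.sqrt_pos.2 hnpos).ne'
      field_simp
    linarith
  have nI2 : ‖I2‖ ≤ 3 / 4 * ε * ‖I1‖ := by
    have a1 : ‖I2‖ ≤ 3 * (C / n * Q0) + 96 * (Real.exp (-(d ^ 2 / 8 * n)) * Q0) := by
      have b1 := norm_add_le (I2 - ∫ y in (-d)..d,
        F (w0 + I * y) / (w0 + I * y - z) ^ (n + 1) * (1 / (w0 + I * y - z) - lam))
        (∫ y in (-d)..d,
        F (w0 + I * y) / (w0 + I * y - z) ^ (n + 1) * (1 / (w0 + I * y - z) - lam))
      rw [sub_add_cancel] at b1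
      linarith
    have hEx : 0 ≤ Real.exp (-(d ^ 2 / 8 * n)) * Q0 := hE0
    have a2 : 3 * (C / n * Q0) + 96 * (Real.exp (-(d ^ 2 / 8 * n)) * Q0) ≤
        3 / 2 * ((2 * C / n + 96 * Real.exp (-(d ^ 2 / 8 * n))) * Q0) := by
      have : 3 / 2 * ((2 * C / n + 96 * Real.exp (-(d ^ 2 / 8 * n))) * Q0) =
        3 * (C / n * Q0) + 144 * (Real.exp (-(d ^ 2 / 8 * n)) * Q0) := by ring
      rw [this]
      linarith
    have a3 : (2 * C / n + 96 * Real.exp (-(d ^ 2 / 8 * n))) * Q0 ≤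
        (1 / 2 * (ε * c / (2 * Real.sqrt n))) * Q0 := by gcongr
    have a4 : (1 / 2 * (ε * c / (2 * Real.sqrt n))) * Q0 ≤ 1 / 2 * (ε * ‖I1‖) := by
      have e5 : (1 / 2 * (ε * c / (2 * Real.sqrt n))) * Q0 = 1 / 2 * (ε * (c / (2 * Real.sqrt n) * Q0)) := by ring
      rw [e5]
      gcongr
    linarith
  have hI1pos : 0 < ‖I1‖ := by
    refine lt_of_lt_of_le ?_ nI1
    have hs : 0 < Real.sqrt n := Real.sqrt_pos.2 hnpos
    positivity
  have hI1ne : I1 ≠ 0 := norm_pos_iff.1 hI1pos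
  -- identification
  have hpi : (Real.pi : ℂ) ≠ 0 := by exact_mod_cast Real.pi_ne_zero
  have hcont1 : Continuous fun φ : ℝ => F (cexp (I * φ)) / (cexp (I * φ) - z) ^ (n + 1) * cexp (I * φ) := by
    have hl : Continuous fun φ : ℝ => cexp (I * (φ : ℂ)) := by fun_prop
    refine ((hN.diff.continuous.comp hl).div ((hl.sub continuous_const).pow _) ?_).mul hl
    intro φ
    apply pow_ne_zero
    have h0 := hcirc φ
    exact norm_pos_iff.1 (show 0 < ‖cexp (I * φ) - z‖ by linarith)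
  have hcont2 : Continuous fun φ : ℝ => F (cexp (I * φ)) * cexp (I * φ) / (cexp (I * φ) - z) ^ (n + 2) := by
    have hl : Continuous fun φ : ℝ => cexp (I * (φ : ℂ)) := by fun_prop
    refine ((hN.diff.continuous.comp hl).mul hl).div ((hl.sub continuous_const).pow _) ?_
    intro φ
    apply pow_ne_zero
    have h0 := hcirc φ
    exact norm_pos_iff.1 (show 0 < ‖cexp (I * φ) - z‖ by linarith)
  have hc1 : hc F (n + 1) z = (1 / (2 * Real.pi) : ℂ) * I1 := by
    unfold hc
    rw [hI1]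
    congr 1
    apply intervalIntegral.integral_congr
    intro φ _
    simp only
    ring
  have hc2 : hc F (n + 2) z = (1 / (2 * Real.pi) : ℂ) * (I2 + lam * I1) := by
    have e : I2 + lam * I1 = ∫ φ in (-(Real.pi / 2))..(Real.pi / 2),
        F (cexp (I * φ)) * cexp (I * φ) / (cexp (I * φ) - z) ^ (n + 2) := by
      have e1 : I2 = (∫ φ in (-(Real.pi / 2))..(Real.pi / 2),
        (F (cexp (I * φ)) * cexp (I * φ) / (cexp (I * φ) - z) ^ (n + 2) -
          lam * (F (cexp (I * φ)) / (cexp (I * φ) - z) ^ (n + 1) * cexp (I * φ)))) := by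
        rw [hI2]
        apply intervalIntegral.integral_congr
        intro φ _
        have hne : cexp (I * φ) - z ≠ 0 := by
          rw [← norm_pos_iff]
          linarith [hcirc φ]
        simp only
        rw [pow_succ _ (n + 1)]
        field_simp
      rw [e1, intervalIntegral.integral_sub (hcont2.intervalIntegrable _ _)
        ((hcont1.intervalIntegrable _ _).const_mul lam), intervalIntegral.integral_const_mul,
        ← hI1]
      ring
    unfold hc
    rw [e]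
  have hne : (1 / (2 * Real.pi) : ℂ) ≠ 0 := by
    apply div_ne_zero one_ne_zero
    exact mul_ne_zero two_ne_zero hpi
  refine ⟨by rw [hc1]; exact mul_ne_zero hne hI1ne, ?_⟩
  have hratio : hc F (n + 2) z / hc F (n + 1) z = lam + I2 / I1 := by
    rw [hc1, hc2, mul_div_mul_left _ _ hne, add_div, mul_div_cancel_right₀ _ hI1ne]
    ring
  have e0 : hc F (n + 2) z / hc F (n + 1) z - 1 = (lam - 1) + I2 / I1 := by
    rw [hratio]; ring
  rw [e0]
  refine (norm_add_le _ _).trans ?_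
  have h2 : ‖I2 / I1‖ ≤ 3 / 4 * ε := by
    rw [norm_div, div_le_iff₀ hI1pos]
    exact nI2
  have h1 : ‖lam - 1‖ ≤ ε / 4 := by
    have e : lam - 1 = -(w0 - (z + 1)) / (w0 - z) := by
      rw [hlam, div_sub_one hw0ne]
      congr 1
      ring
    rw [e, norm_div, norm_neg, div_le_iff₀ (by linarith)]
    have e3 : d ≤ ε / 10 := by linarith
    have e4 : d ^ 3 / 10 ≤ ε / 4 * (49 / 50) := by nlinarith
    have e5 : ε / 4 * (49 / 50) ≤ ε / 4 * ‖w0 - z‖ := by gcongr
    linarith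
  linarith

end Pool.Agent.U4.UH
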