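import Pool.Agent.U4.UH.Loc

/-!
# Derivatives far to the right, and the functional equation for the derivatives
-/

set_option autoImplicit false

open Complex MeasureTheory Filter Topology Set
open scoped ComplexConjugate

namespace Pool.Agent.U4.UH

open Pool.Agent.H986R2.K4 (QQ aw nl rt ll lapQ)
open Pool.Agent.H986R2.K4.WinAux (scale)
open Pool.Agent.W355.UN Pool.Agent.W169.HF

/-- the derivative does not vanish at the point `1` of the profile -/
theorem right : ∃ ε : ℝ, ∃ n0 : ℕ, 0 < ε ∧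
    ∀ (n : ℕ) (K ℓ G σ : ℝ) (f : ℂ → ℂ), n0 ≤ n → UP K (1 / 2) ℓ G f → 0 ≤ K → 0 < σ → 3 * σ ≤ 1 →
      σ * ℓ = n → σ * K ≤ ε * n → iteratedDeriv n f 1 ≠ 0 := by
  obtain ⟨η, n0, hη, hn0, H⟩ := ll 1 one_pos
  refine ⟨η / 4, n0, by positivity, ?_⟩
  intro n K ℓ G σ f hn hU hK hσ hσ1 hnℓ hKn
  have hd := hU.slow.1
  have hG := hU.hG
  have hσc : (σ : ℂ) ≠ 0 := by exact_mod_cast hσ.ne'
  have hre : ∀ z : ℂ, ((σ : ℂ) * z).re = σ * z.re := fun z => by rw [Complex.re_ofReal_mul]
  have hpt : (σ : ℂ) * (1 / σ : ℂ) = 1 := by field_simp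
  have hball : ∀ w ∈ Metric.ball (1 / σ : ℂ) (3 / 2), ‖(σ : ℂ) * w - 1‖ ≤ 1 / 2 := by
    intro w hw
    rw [Metric.mem_ball, dist_eq_norm] at hw
    have e : (σ : ℂ) * w - 1 = σ * (w - 1 / σ) := by rw [mul_sub, hpt]
    rw [e, norm_mul, Complex.norm_real, Real.norm_eq_abs, abs_of_pos hσ]
    nlinarith
  have hlow : ∀ w ∈ Metric.ball (1 / σ : ℂ) (3 / 2), 1 / 2 ≤ ((σ : ℂ) * w).re ∧ ‖(σ : ℂ) * w‖ ≤ 3 / 2 := by
    intro w hw
    have h1 := hball w hw
    constructor
    · have h2 := (abs_le.1 ((Complex.abs_re_le_norm _).trans h1)).1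
      rw [sub_re, one_re] at h2
      linarith
    · have e : (σ : ℂ) * w = (σ * w - 1) + 1 := by ring
      rw [e]
      refine (norm_add_le _ _).trans ?_
      rw [norm_one]
      linarith
  have hFd : ∀ w : ℂ, logDeriv (fun z => f (σ * z)) w = σ * logDeriv f (σ * w) := by
    intro w
    have := logDeriv_rot hd one_ne_zero (σ : ℂ) w
    simpa only [one_mul] using this
  have h1 := (H n (1 / σ : ℂ) (fun z => f (σ * z)) hn (fun w hw => by
    obtain ⟨h2, h3⟩ := hlow w hw
    have hlo := hU.lo _ h2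
    have hpos : 0 < ‖f (σ * w)‖ := lt_of_lt_of_le (by positivity) hlo
    refine ⟨(hd.comp (by fun_prop : Differentiable ℂ fun z : ℂ => (σ : ℂ) * z)) w,
      norm_pos_iff.1 hpos, ?_⟩
    rw [hFd]
    have e : (σ : ℂ) * logDeriv f (σ * w) - (n : ℂ) = σ * (logDeriv f (σ * w) - ℓ) := by
      have : (n : ℂ) = ((n : ℝ) : ℂ) := by norm_cast
      rw [this, ← hnℓ]
      push_cast
      ring
    rw [e, norm_mul, Complex.norm_real, Real.norm_eq_abs, abs_of_pos hσ]
    have h4 := hU.der _ h2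
    have h5 : 1 + ‖(σ : ℂ) * w‖ ^ 2 ≤ 4 := by
      have := norm_nonneg ((σ : ℂ) * w)
      nlinarith
    have h6 : K * (1 + ‖(σ : ℂ) * w‖ ^ 2) ≤ K * 4 := mul_le_mul_of_nonneg_left h5 hK
    calc σ * ‖logDeriv f (σ * w) - ℓ‖ ≤ σ * (K * 4) := by
          apply mul_le_mul_of_nonneg_left _ hσ.le
          linarith
      _ = 4 * (σ * K) := by ring
      _ ≤ η * n := by linarith)).1
  have h2 : 0 < ‖f (σ * (1 / σ : ℂ))‖ := by
    rw [hpt]
    exact lt_of_lt_of_le (by positivity) (hU.lo 1 (by norm_num))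
  intro h0
  have h3 : iteratedDeriv n (fun z => f (σ * z)) (1 / σ : ℂ) = 0 := by
    have := scale hd 0 (σ : ℂ) n (1 / σ : ℂ)
    simp only [zero_add] at this
    rw [this, hpt, h0, mul_zero]
  rw [h3, norm_zero] at h1
  have h4 : 0 < Real.exp ((1 - 1) * (n : ℝ)) * ((n.factorial : ℝ) * ‖f (σ * (1 / σ : ℂ))‖) := by
    have : (0 : ℝ) < n.factorial := by exact_mod_cast n.factorial_pos
    positivity
  linarith

/-- the derivatives of a function reflected at the unitary line -/
lemma itd_refl {X : ℂ → ℂ} (hX : Differentiable ℂ X) (n : ℕ) (s : ℂ) :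
    iteratedDeriv n (fun s => conj (X (1 - conj s))) s =
      (-1) ^ n * conj (iteratedDeriv n X (1 - conj s)) := by
  induction n generalizing s with
  | zero => simp
  | succ n ih =>
    have hd : Differentiable ℂ (iteratedDeriv n X) := by
      have h2 : ContDiff ℂ ((n + 1 : ℕ) : ℕ∞) X := hX.contDiff
      exact h2.differentiable_iteratedDeriv n (by exact_mod_cast Nat.lt_succ_self n)
    rw [iteratedDeriv_succ]
    have h3 : iteratedDeriv n (fun s => conj (X (1 - conj s))) =
        fun s => (-1) ^ n * conj (iteratedDeriv n X (1 - conj s)) := by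
      funext w
      exact ih w
    rw [h3]
    have h4 : HasDerivAt (fun u : ℂ => iteratedDeriv n X (1 - u)) (-(deriv (iteratedDeriv n X) (1 - conj s)))
        (conj s) := by
      have h5 : HasDerivAt (fun u : ℂ => 1 - u) (-1) (conj s) := by
        simpa using (hasDerivAt_id (conj s)).const_sub 1
      have h6 := HasDerivAt.comp (conj s) (hd (1 - conj s)).hasDerivAt h5
      refine h6.congr_deriv ?_
      ring
    have h7 : HasDerivAt (fun s : ℂ => conj (iteratedDeriv n X (1 - conj s)))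
        (conj (-(deriv (iteratedDeriv n X) (1 - conj s)))) s := by
      have h8 := HasDerivAt.conj_conj h4
      rw [Complex.conj_conj] at h8
      exact h8
    have h9 := (h7.const_mul ((-1 : ℂ) ^ n)).deriv
    rw [h9, iteratedDeriv_succ, map_neg, pow_succ]
    ring

lemma itd_fe {X : ℂ → ℂ} (hX : Differentiable ℂ X) {e : ℂ} (he : ‖e‖ = 1)
    (hfe : ∀ s : ℂ, X s = e * conj (X (1 - conj s))) (n : ℕ) {s : ℂ} (hs : iteratedDeriv n X s = 0) :
    iteratedDeriv n X (1 - conj s) = 0 := by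
  have h1 : X = fun s => e * conj (X (1 - conj s)) := funext hfe
  have h2 : iteratedDeriv n X s = e * ((-1) ^ n * conj (iteratedDeriv n X (1 - conj s))) := by
    conv_lhs => rw [h1]
    rw [iteratedDeriv_const_mul_field, itd_refl hX]
  rw [hs] at h2
  have he0 : e ≠ 0 := by
    intro h0
    rw [h0, norm_zero] at he
    exact zero_ne_one he
  have h3 := (mul_eq_zero.1 h2.symm).resolve_left he0
  have h4 := (mul_eq_zero.1 h3).resolve_left (pow_ne_zero _ (by norm_num))
  have h5 := congrArg conj h4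
  rwa [Complex.conj_conj, map_zero] at h5

end Pool.Agent.U4.UH
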